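import Pool.Agent.Helper338.RA.Defs2
set_option autoImplicit false
namespace RA
variable {V : Type} {k : ℕ}
namespace J7557


/-- distance from `o` -/
noncomputable def DD7557 (T : V → Fin k → V) (o z : V) : ℕ :=
  sInf {m | ∃ w : List (Fin k), w.length = m ∧ run T o w = z}

theorem DD_le_7557 {T : V → Fin k → V} {o z : V} {w : List (Fin k)} (h : run T o w = z) :
    DD7557 T o z ≤ w.length := Nat.sInf_le ⟨w, rfl, h⟩

theorem DD_ex_7557 {T : V → Fin k → V} {o z : V} (h : ∃ w, run T o w = z) :
    ∃ w : List (Fin k), w.length = DD7557 T o z ∧ run T o w = z := by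
  obtain ⟨w, hw⟩ := h
  exact Nat.sInf_mem (s := {m | ∃ w : List (Fin k), w.length = m ∧ run T o w = z})
    ⟨_, w, rfl, hw⟩

theorem run_snoc_7557 (T : V → Fin k → V) (p : V) (w : List (Fin k)) (a : Fin k) :
    run T p (w ++ [a]) = T (run T p w) a := by
  simp [run, List.foldl_append]

theorem agree_7557 {T T' : V → Fin k → V} {o v : V} (h : ∀ y, y ≠ v → T' y = T y) :
    ∀ w : List (Fin k), w.length ≤ DD7557 T o v → run T' o w = run T o w := by
  intro w
  induction w using List.reverseRecOn with
  | nil => intro _; rfl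
  | append_singleton w a ih =>
    intro hw
    rw [List.length_append, List.length_singleton] at hw
    rw [run_snoc_7557, run_snoc_7557, ih (by omega)]
    have : run T o w ≠ v := fun hh => by
      have := DD_le_7557 hh
      omega
    rw [h _ this]

/-- the order on the states -/
def LT7557 (lab : V → ℕ) (T : V → Fin k → V) (o u v : V) : Prop :=
  DD7557 T o u < DD7557 T o v ∨ (DD7557 T o u = DD7557 T o v ∧ lab u < lab v)

theorem LT_total_7557 {lab : V → ℕ} (hlab : Function.Injective lab) (T : V → Fin k → V) (o : V)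
    {u v : V} (huv : u ≠ v) : LT7557 lab T o u v ∨ LT7557 lab T o v u := by
  unfold LT7557
  have h1 : lab u ≠ lab v := fun h => huv (hlab h)
  omega

theorem LT_asymm_7557 {lab : V → ℕ} {T : V → Fin k → V} {o : V}
    {u v : V} (h : LT7557 lab T o u v) (h' : LT7557 lab T o v u) : False := by
  unfold LT7557 at h h'
  omega

theorem key_7557 {lab : V → ℕ} {T T' : V → Fin k → V} {o u v : V} (hT : Acc T o)
    (huv : u ≠ v) (he : T u = T v) (hlt : LT7557 lab T o u v) (h : ∀ y, y ≠ v → T' y = T y) :
    Acc T' o ∧ LT7557 lab T' o u v := by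
  have hle : DD7557 T o u ≤ DD7557 T o v := by
    unfold LT7557 at hlt
    omega
  have hA := agree_7557 (o := o) h
  have hreach : ∀ z, DD7557 T o z ≤ DD7557 T o v → ∃ w, run T' o w = z := by
    intro z hz
    obtain ⟨w, hw1, hw2⟩ := DD_ex_7557 (hT z)
    exact ⟨w, by rw [hA w (by omega), hw2]⟩
  have hacc : Acc T' o := by
    have : ∀ n z, DD7557 T o z ≤ n → ∃ w, run T' o w = z := by
      intro n
      induction n with
      | zero =>
        intro z hz
        exact hreach z (by omega)
      | succ n ih =>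
        intro z hz
        by_cases hzv : DD7557 T o z ≤ DD7557 T o v
        · exact hreach z hzv
        · obtain ⟨w, hw1, hw2⟩ := DD_ex_7557 (hT z)
          rcases List.eq_nil_or_concat w with rfl | ⟨w', a, rfl⟩
          · simp at hw1
            omega
          · rw [List.concat_eq_append] at hw1 hw2
            rw [List.length_append, List.length_singleton] at hw1
            rw [run_snoc_7557] at hw2
            by_cases hy : run T o w' = v
            · obtain ⟨w2, hw3⟩ := hreach u hle
              refine ⟨w2 ++ [a], ?_⟩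
              rw [run_snoc_7557, hw3, h u huv, he, ← hy, hw2]
            · have h1 := DD_le_7557 (rfl : run T o w' = run T o w')
              obtain ⟨w2, hw3⟩ := ih (run T o w') (by omega)
              refine ⟨w2 ++ [a], ?_⟩
              rw [run_snoc_7557, hw3, h _ hy, hw2]
    exact fun z => this _ z le_rfl
  refine ⟨hacc, ?_⟩
  have h1 : DD7557 T' o u ≤ DD7557 T o u := by
    obtain ⟨w, hw1, hw2⟩ := DD_ex_7557 (hT u)
    rw [← hw1]
    exact DD_le_7557 (by rw [hA w (by omega), hw2])
  have h2 : DD7557 T' o v ≤ DD7557 T o v := by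
    obtain ⟨w, hw1, hw2⟩ := DD_ex_7557 (hT v)
    rw [← hw1]
    exact DD_le_7557 (by rw [hA w (by omega), hw2])
  have h3 : DD7557 T o v ≤ DD7557 T' o v := by
    obtain ⟨w, hw1, hw2⟩ := DD_ex_7557 (hacc v)
    rw [← hw1]
    exact DD_le_7557 (by rw [← hA w (by omega), hw2])
  unfold LT7557 at hlt ⊢
  omega

theorem card_ne_7557 (V : Type) [Fintype V] [DecidableEq V] :
    Nat.card {p : V × V // p.1 ≠ p.2} = Fintype.card V * (Fintype.card V - 1) := by
  rw [Nat.card_eq_fintype_card, Fintype.card_subtype]
  have : (Finset.univ.filter (fun p : V × V => p.1 ≠ p.2)) = (Finset.univ : Finset V).offDiag := by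
    ext p
    simp [Finset.mem_offDiag]
  rw [this, Finset.offDiag_card, Finset.card_univ, Nat.mul_sub_one]

-- TARGET
theorem identical_rows (V : Type) [Fintype V] [DecidableEq V] (k : ℕ) (o : V) :
    2 * (Fintype.card V)^k *
        Set.ncard {T : V → Fin k → V | Acc T o ∧ ∃ u v, u ≠ v ∧ T u = T v}
      ≤ Fintype.card V * (Fintype.card V - 1) * Set.ncard {T : V → Fin k → V | Acc T o} := by
  classical
  obtain ⟨lab, hlab⟩ : ∃ lab : V → ℕ, Function.Injective lab :=
    ⟨fun v => (Fintype.equivFin V v : ℕ), fun a b hab =>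
      (Fintype.equivFin V).injective (Fin.ext hab)⟩
  let S : Set (V → Fin k → V) := {T | Acc T o ∧ ∃ u v, u ≠ v ∧ T u = T v}
  let A : Set (V → Fin k → V) := {T | Acc T o}
  have hch : ∀ T : S, ∃ u v, u ≠ v ∧ (T : V → Fin k → V) u = (T : V → Fin k → V) v ∧
      LT7557 lab (T : V → Fin k → V) o u v := by
    rintro ⟨T, hT, u, v, huv, he⟩
    rcases LT_total_7557 hlab T o huv with h | h
    · exact ⟨u, v, huv, he, h⟩
    · exact ⟨v, u, huv.symm, he.symm, h⟩
  choose U W hne heq hlt using hch
  have hkey : ∀ (T : S) (ρ : Fin k → V),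
      Acc (Function.update (T : V → Fin k → V) (W T) ρ) o ∧
      LT7557 lab (Function.update (T : V → Fin k → V) (W T) ρ) o (U T) (W T) := by
    intro T ρ
    exact key_7557 T.2.1 (hne T) (heq T) (hlt T)
      (fun y hy => Function.update_of_ne hy _ _)
  let Φ : S × (Fin k → V) × Bool → A × {p : V × V // p.1 ≠ p.2} := fun x =>
    (⟨Function.update (x.1 : V → Fin k → V) (W x.1) x.2.1, (hkey x.1 x.2.1).1⟩,
      if x.2.2 then ⟨(U x.1, W x.1), hne x.1⟩ else ⟨(W x.1, U x.1), (hne x.1).symm⟩)
  have hrec : ∀ (T T2 : S) (ρ ρ2 : Fin k → V),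
      Function.update (T : V → Fin k → V) (W T) ρ = Function.update (T2 : V → Fin k → V) (W T2) ρ2 →
      U T = U T2 → W T = W T2 → T = T2 ∧ ρ = ρ2 := by
    intro T T2 ρ ρ2 h1 h2 h3
    have hoff : ∀ y, y ≠ W T → (T : V → Fin k → V) y = (T2 : V → Fin k → V) y := by
      intro y hy
      have h4 := congrFun h1 y
      rw [Function.update_of_ne hy, Function.update_of_ne (by rw [← h3]; exact hy)] at h4
      exact h4
    refine ⟨?_, ?_⟩
    · apply Subtype.ext
      funext y
      by_cases hy : y = W T
      · rw [hy, ← heq T, hoff _ (hne T), h2, heq T2, h3]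
      · exact hoff y hy
    · have h4 := congrFun h1 (W T)
      rw [Function.update_self, h3, Function.update_self] at h4
      exact h4
  have hinj : Function.Injective Φ := by
    rintro ⟨T, ρ, c⟩ ⟨T2, ρ2, c2⟩ h
    have h1 : Function.update (T : V → Fin k → V) (W T) ρ =
        Function.update (T2 : V → Fin k → V) (W T2) ρ2 :=
      congrArg Subtype.val (congrArg Prod.fst h)
    have h2 : (if c then (⟨(U T, W T), hne T⟩ : {p : V × V // p.1 ≠ p.2}) else
        ⟨(W T, U T), (hne T).symm⟩) =
        (if c2 then (⟨(U T2, W T2), hne T2⟩ : {p : V × V // p.1 ≠ p.2}) else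
        ⟨(W T2, U T2), (hne T2).symm⟩) := congrArg Prod.snd h
    have hk1 := (hkey T ρ).2
    have hk2 := (hkey T2 ρ2).2
    rw [← h1] at hk2
    cases c <;> cases c2
    · simp only [Bool.false_eq_true, if_false, Subtype.mk.injEq, Prod.mk.injEq] at h2
      obtain ⟨h3, h4⟩ := hrec T T2 ρ ρ2 h1 h2.2 h2.1
      rw [h3, h4]
    · simp only [Bool.false_eq_true, if_false, if_true, Subtype.mk.injEq, Prod.mk.injEq] at h2
      rw [← h2.1, ← h2.2] at hk2
      exact (LT_asymm_7557 hk1 hk2).elim
    · simp only [Bool.false_eq_true, if_false, if_true, Subtype.mk.injEq, Prod.mk.injEq] at h2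
      rw [← h2.1, ← h2.2] at hk2
      exact (LT_asymm_7557 hk1 hk2).elim
    · simp only [if_true, Subtype.mk.injEq, Prod.mk.injEq] at h2
      obtain ⟨h3, h4⟩ := hrec T T2 ρ ρ2 h1 h2.1 h2.2
      rw [h3, h4]
  have hcard := Nat.card_le_card_of_injective Φ hinj
  rw [Nat.card_prod, Nat.card_prod, Nat.card_prod, card_ne_7557] at hcard
  have e1 : Nat.card S = Set.ncard S := rfl
  have e2 : Nat.card A = Set.ncard A := rfl
  have e3 : Nat.card (Fin k → V) = Fintype.card V ^ k := by
    rw [Nat.card_eq_fintype_card, Fintype.card_fun, Fintype.card_fin]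
  have e4 : Nat.card Bool = 2 := by simp
  rw [e1, e2, e3, e4] at hcard
  calc 2 * (Fintype.card V)^k * Set.ncard S = Set.ncard S * (Fintype.card V ^ k * 2) := by ring
    _ ≤ Set.ncard A * (Fintype.card V * (Fintype.card V - 1)) := hcard
    _ = Fintype.card V * (Fintype.card V - 1) * Set.ncard A := by ring


end J7557
alias identical_rows := J7557.identical_rows
end RA
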