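import Pool.Agent.Helper338.RA.Defs2
set_option autoImplicit false
namespace RA
variable {V : Type} {k : ℕ}
namespace J7563

open Classical in
/-- modified transition function -/
noncomputable def modT {V : Type} {k s : ℕ} (F : Finset (Fin s × Fin k)) (T : V → Fin k → V)
    (m : Fin s → V) (G : Fin s × Fin k → V) : V → Fin k → V := fun v a =>
  if h : ∃ i, v = m i then (if (h.choose, a) ∈ F then T v a else G (h.choose, a)) else T v a

open Classical in
/-- recorded values -/
noncomputable def modP {V : Type} {k s h : ℕ} (tgt : Fin s → Fin k → Fin s ⊕ Fin h)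
    (F : Finset (Fin s × Fin k)) (m : Fin s → V) (e : Fin h → V) (G : Fin s × Fin k → V) :
    Fin s ⊕ Fin h → V := fun t =>
  if h : ∃ x ∈ F, tgt x.1 x.2 = t then G h.choose else Sum.elim m e t

theorem modT_in {V : Type} {k s : ℕ} {F : Finset (Fin s × Fin k)} {T : V → Fin k → V}
    {m : Fin s → V} (hm : Function.Injective m) {G : Fin s × Fin k → V} {i : Fin s} {a : Fin k}
    (h : (i, a) ∈ F) : modT F T m G (m i) a = T (m i) a := by
  have hex : ∃ j, m i = m j := ⟨i, rfl⟩
  have hc : hex.choose = i := (hm hex.choose_spec).symm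
  unfold modT
  rw [dif_pos hex, hc, if_pos h]

theorem modT_out {V : Type} {k s : ℕ} {F : Finset (Fin s × Fin k)} {T : V → Fin k → V}
    {m : Fin s → V} (hm : Function.Injective m) {G : Fin s × Fin k → V} {i : Fin s} {a : Fin k}
    (h : (i, a) ∉ F) : modT F T m G (m i) a = G (i, a) := by
  have hex : ∃ j, m i = m j := ⟨i, rfl⟩
  have hc : hex.choose = i := (hm hex.choose_spec).symm
  unfold modT
  rw [dif_pos hex, hc, if_neg h]

theorem modT_off {V : Type} {k s : ℕ} {F : Finset (Fin s × Fin k)} {T : V → Fin k → V}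
    {m : Fin s → V} {G : Fin s × Fin k → V} {v : V} 
    (h : ∀ i, v ≠ m i) : modT F T m G v = T v := by
  funext a
  have hex : ¬ ∃ j, v = m j := by rintro ⟨j, hj⟩; exact h j hj
  unfold modT
  rw [dif_neg hex]

theorem modP_in {V : Type} {k s h : ℕ} {tgt : Fin s → Fin k → Fin s ⊕ Fin h}
    {F : Finset (Fin s × Fin k)} {m : Fin s → V} {e : Fin h → V} {G : Fin s × Fin k → V}
    (hinj : Set.InjOn (fun x : Fin s × Fin k => tgt x.1 x.2) (F : Set (Fin s × Fin k)))
    {x : Fin s × Fin k} (hx : x ∈ F) : modP tgt F m e G (tgt x.1 x.2) = G x := by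
  have hex : ∃ y ∈ F, tgt y.1 y.2 = tgt x.1 x.2 := ⟨x, hx, rfl⟩
  have hc : hex.choose = x := hinj (by exact_mod_cast hex.choose_spec.1) (by exact_mod_cast hx) hex.choose_spec.2
  unfold modP
  rw [dif_pos hex, hc]

theorem modP_out {V : Type} {k s h : ℕ} {tgt : Fin s → Fin k → Fin s ⊕ Fin h}
    {F : Finset (Fin s × Fin k)} {m : Fin s → V} {e : Fin h → V} {G : Fin s × Fin k → V}
    {t : Fin s ⊕ Fin h} (hx : ¬ ∃ x ∈ F, tgt x.1 x.2 = t) : modP tgt F m e G t = Sum.elim m e t := by
  unfold modP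
  rw [dif_neg hx]

-- TARGET
theorem pattern_count (V : Type) [Fintype V] [DecidableEq V] (k s h : ℕ) (o : V)
    (tgt : Fin s → Fin k → Fin s ⊕ Fin h) (F : Finset (Fin s × Fin k)) (rank : Fin s → ℕ)
    (hinj : Set.InjOn (fun x : Fin s × Fin k => tgt x.1 x.2) (F : Set (Fin s × Fin k)))
    (hrank : ∀ x ∈ F, ∀ j, tgt x.1 x.2 = Sum.inl j → rank x.1 < rank j) :
    Set.ncard {x : (V → Fin k → V) × (Fin s → V) × (Fin h → V) |
        Function.Injective x.2.1 ∧
        (∀ i a, x.1 (x.2.1 i) a = Sum.elim x.2.1 x.2.2 (tgt i a)) ∧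
        (∀ T' : V → Fin k → V, (∀ v, (∀ i, v ≠ x.2.1 i) → T' v = x.1 v) →
          (∀ i a, (i, a) ∈ F → T' (x.2.1 i) a = x.1 (x.2.1 i) a) → Acc T' o)}
      * (Fintype.card V)^(k*s)
      ≤ Set.ncard {T : V → Fin k → V | Acc T o} * (Fintype.card V)^(s+h) := by
  classical
  obtain ⟨S, hS⟩ : ∃ S : Set ((V → Fin k → V) × (Fin s → V) × (Fin h → V)), S = {x |
        Function.Injective x.2.1 ∧
        (∀ i a, x.1 (x.2.1 i) a = Sum.elim x.2.1 x.2.2 (tgt i a)) ∧
        (∀ T' : V → Fin k → V, (∀ v, (∀ i, v ≠ x.2.1 i) → T' v = x.1 v) →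
          (∀ i a, (i, a) ∈ F → T' (x.2.1 i) a = x.1 (x.2.1 i) a) → Acc T' o)} := ⟨_, rfl⟩
  rw [← hS]
  have key : (S ×ˢ (Set.univ : Set (Fin s × Fin k → V))).ncard ≤
      ({T : V → Fin k → V | Acc T o} ×ˢ (Set.univ : Set (Fin s ⊕ Fin h → V))).ncard := by
    refine Set.ncard_le_ncard_of_injOn
      (fun z => (modT F z.1.1 z.1.2.1 z.2, modP tgt F z.1.2.1 z.1.2.2 z.2)) ?_ ?_ (Set.toFinite _)
    · rintro ⟨⟨T, m, e⟩, G⟩ hz
      have hx : (T, m, e) ∈ S := hz.1
      rw [hS] at hx
      obtain ⟨h1, h2, h3⟩ := hx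
      refine ⟨?_, Set.mem_univ _⟩
      exact h3 _ (fun v hv => modT_off hv) (fun i a hia => modT_in h1 hia)
    · rintro ⟨⟨T1, m1, e1⟩, G1⟩ hz1 ⟨⟨T2, m2, e2⟩, G2⟩ hz2 heq
      have hx1 : (T1, m1, e1) ∈ S := hz1.1
      have hx2 : (T2, m2, e2) ∈ S := hz2.1
      rw [hS] at hx1 hx2
      obtain ⟨a1, a2, a3⟩ := hx1
      obtain ⟨b1, b2, b3⟩ := hx2
      simp only at a1 a2 b1 b2
      simp only [Prod.mk.injEq] at heq
      obtain ⟨hT, hP⟩ := heq
      -- a target of an edge in `F` has the same value as soon as the sources agree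
      have step : ∀ x ∈ F, m1 x.1 = m2 x.1 →
          Sum.elim m1 e1 (tgt x.1 x.2) = Sum.elim m2 e2 (tgt x.1 x.2) := by
        intro x hx hm
        have hx' : (x.1, x.2) ∈ F := by simpa using hx
        rw [← a2 x.1 x.2, ← b2 x.1 x.2, ← modT_in (T := T1) (G := G1) a1 hx', ← modT_in (T := T2) (G := G2) b1 hx', hT, hm]
      have root : ∀ t, (¬ ∃ x ∈ F, tgt x.1 x.2 = t) → Sum.elim m1 e1 t = Sum.elim m2 e2 t := by
        intro t ht
        rw [← modP_out (e := e1) (G := G1) ht, ← modP_out (e := e2) (G := G2) ht, hP]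
      have hm : ∀ r, ∀ j, rank j = r → m1 j = m2 j := by
        intro r
        induction r using Nat.strong_induction_on with
        | _ r ih =>
          intro j hj
          by_cases hex : ∃ x ∈ F, tgt x.1 x.2 = Sum.inl j
          · obtain ⟨x, hx, hxj⟩ := hex
            have h4 := hrank x hx j hxj
            have h5 := step x hx (ih (rank x.1) (by omega) x.1 rfl)
            rw [hxj] at h5
            exact h5
          · exact root _ hex
      have hmm : m1 = m2 := funext fun j => hm _ j rfl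
      have hall : ∀ t, Sum.elim m1 e1 t = Sum.elim m2 e2 t := by
        intro t
        by_cases hex : ∃ x ∈ F, tgt x.1 x.2 = t
        · obtain ⟨x, hx, hxj⟩ := hex
          have h5 := step x hx (by rw [hmm])
          rw [hxj] at h5
          exact h5
        · exact root _ hex
      have hee : e1 = e2 := funext fun j => hall (Sum.inr j)
      subst hmm
      subst hee
      have hTT : T1 = T2 := by
        funext v a
        by_cases hv : ∃ i, v = m1 i
        · obtain ⟨i, rfl⟩ := hv
          rw [a2, b2]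
        · push Not at hv
          rw [← modT_off (F := F) (G := G1) (T := T1) hv, ← modT_off (F := F) (G := G2) (T := T2) hv, hT]
      have hGG : G1 = G2 := by
        funext x
        by_cases hx : x ∈ F
        · rw [← modP_in (m := m1) (e := e1) (G := G1) hinj hx, ← modP_in (m := m1) (e := e1) (G := G2) hinj hx, hP]
        · have hx' : (x.1, x.2) ∉ F := by simpa using hx
          have q1 := modT_out (T := T1) (G := G1) a1 hx'
          have q2 := modT_out (T := T2) (G := G2) b1 hx'
          rw [hT, q2] at q1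
          exact q1.symm
      rw [hTT, hGG]
  rw [Set.ncard_prod, Set.ncard_prod, Set.ncard_univ, Set.ncard_univ, Nat.card_eq_fintype_card,
    Nat.card_eq_fintype_card, Fintype.card_fun, Fintype.card_fun, Fintype.card_prod, Fintype.card_sum,
    Fintype.card_fin, Fintype.card_fin, Fintype.card_fin, mul_comm s k] at key
  exact key


end J7563
alias pattern_count := J7563.pattern_count
end RA
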