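import Pool.Agent.Helper338.RA.Defs2
set_option autoImplicit false
namespace RA
variable {V : Type} {k : ℕ}
namespace J7564

-- TARGET
theorem pattern_exists (V : Type) [Fintype V] [DecidableEq V] (k : ℕ) (o : V)
    (T : V → Fin k → V) (hT : Acc T o) (M : Finset V) (hM : Closed T M)
    (hne : ∃ u ∈ M, ∃ v ∈ M, ∃ a, T u a ≠ T v a ∧ T u a ∈ M ∧ T v a ∈ M) :
    ∃ (h : ℕ) (tgt : Fin M.card → Fin k → Fin M.card ⊕ Fin h)
      (F : Finset (Fin M.card × Fin k)) (rank : Fin M.card → ℕ)
      (m : Fin M.card → V) (e : Fin h → V),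
      2 * h + 2 ≤ k * M.card ∧
      Set.InjOn (fun x : Fin M.card × Fin k => tgt x.1 x.2) (F : Set (Fin M.card × Fin k)) ∧
      (∀ x ∈ F, ∀ j, tgt x.1 x.2 = Sum.inl j → rank x.1 < rank j) ∧
      Function.Injective m ∧
      (∀ i a, T (m i) a = Sum.elim m e (tgt i a)) ∧
      (∀ T' : V → Fin k → V, (∀ v, (∀ i, v ≠ m i) → T' v = T v) →
          (∀ i a, (i, a) ∈ F → T' (m i) a = T (m i) a) → Acc T' o) := by
  classical
  have hT' : ∀ q, ∃ n, ∃ w : List (Fin k), w.length = n ∧ run T o w = q := by
    intro q
    obtain ⟨w, hw⟩ := hT q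
    exact ⟨w.length, w, rfl, hw⟩
  let dist : V → ℕ := fun q => Nat.find (hT' q)
  have hdist : ∀ q, ∃ w : List (Fin k), w.length = dist q ∧ run T o w = q :=
    fun q => Nat.find_spec (hT' q)
  have hdist_le : ∀ (q : V) (w : List (Fin k)), run T o w = q → dist q ≤ w.length :=
    fun q w hw => Nat.find_min' (hT' q) ⟨w, rfl, hw⟩
  have hpar : ∀ z : V, ∃ x : V × Fin k, z ≠ o → (T x.1 x.2 = z ∧ dist x.1 < dist z) := by
    intro z
    by_cases hz : z = o
    · subst hz
      obtain ⟨u, _, _, _, a, _⟩ := hne
      exact ⟨(u, a), fun h => absurd rfl h⟩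
    · obtain ⟨w, hw1, hw2⟩ := hdist z
      rcases List.eq_nil_or_concat w with hw | ⟨w', a, hw⟩
      · subst hw
        exact absurd hw2.symm hz
      · rw [List.concat_eq_append] at hw
        subst hw
        refine ⟨(run T o w', a), fun _ => ⟨?_, ?_⟩⟩
        · rw [← hw2]
          simp [run]
        · have h1 := hdist_le (run T o w') w' rfl
          rw [List.length_append] at hw1
          simp at hw1
          simp only
          omega
  choose parf hparf using hpar
  let X : Finset (V × Fin k) := (M ×ˢ Finset.univ).filter (fun x => T x.1 x.2 ∉ M)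
  let Z : Finset V := X.image (fun x => T x.1 x.2)
  let m : Fin M.card → V := fun i => (M.equivFin.symm i).1
  let e : Fin Z.card → V := fun i => (Z.equivFin.symm i).1
  have hmM : ∀ i, m i ∈ M := fun i => (M.equivFin.symm i).2
  have hZ : ∀ i a, T (m i) a ∉ M → T (m i) a ∈ Z := by
    intro i a hia
    refine Finset.mem_image.mpr ⟨(m i, a), ?_, rfl⟩
    exact Finset.mem_filter.mpr ⟨Finset.mem_product.mpr ⟨hmM i, Finset.mem_univ _⟩, hia⟩
  let tgt : Fin M.card → Fin k → Fin M.card ⊕ Fin Z.card := fun i a =>
    if h : T (m i) a ∈ M then Sum.inl (M.equivFin ⟨T (m i) a, h⟩)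
    else Sum.inr (Z.equivFin ⟨T (m i) a, hZ i a h⟩)
  have hkey : ∀ i a, T (m i) a = Sum.elim m e (tgt i a) := by
    intro i a
    by_cases h : T (m i) a ∈ M
    · simp only [tgt, dif_pos h, Sum.elim_inl]
      show T (m i) a = (M.equivFin.symm (M.equivFin ⟨T (m i) a, h⟩)).1
      rw [Equiv.symm_apply_apply]
    · simp only [tgt, dif_neg h, Sum.elim_inr]
      show T (m i) a = (Z.equivFin.symm (Z.equivFin ⟨T (m i) a, hZ i a h⟩)).1
      rw [Equiv.symm_apply_apply]
  have hminj : Function.Injective m := by
    intro i j hij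
    exact M.equivFin.symm.injective (Subtype.ext hij)
  have hsurj : ∀ u ∈ M, ∃ i, m i = u := by
    intro u hu
    refine ⟨M.equivFin ⟨u, hu⟩, ?_⟩
    show (M.equivFin.symm (M.equivFin ⟨u, hu⟩)).1 = u
    rw [Equiv.symm_apply_apply]
  let F : Finset (Fin M.card × Fin k) :=
    Finset.univ.filter (fun x => ∃ z, z ≠ o ∧ parf z = (m x.1, x.2))
  have hF : ∀ x, x ∈ F ↔ ∃ z, z ≠ o ∧ parf z = (m x.1, x.2) := by
    intro x
    simp [F]
  have hFz : ∀ x ∈ F, parf (T (m x.1) x.2) = (m x.1, x.2) ∧ T (m x.1) x.2 ≠ o := by
    intro x hx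
    obtain ⟨z, hz, hpz⟩ := (hF x).mp hx
    have h1 := (hparf z hz).1
    rw [hpz] at h1
    simp only at h1
    rw [h1]
    exact ⟨hpz, hz⟩
  refine ⟨Z.card, tgt, F, fun j => dist (m j), m, e, ?_, ?_, ?_, hminj, hkey, ?_⟩
  · -- counting
    have h1 : 2 * Z.card ≤ X.card := by
      apply Finset.mul_card_image_le_card
      intro z hz
      obtain ⟨⟨u, a⟩, hx, hxz⟩ := Finset.mem_image.mp hz
      obtain ⟨hx1, hx2⟩ := Finset.mem_filter.mp hx
      obtain ⟨hu, _⟩ := Finset.mem_product.mp hx1
      simp only at hu hx2 hxz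
      obtain ⟨v, hv, hvu, hva⟩ := hM u hu
      have h2 : T u a = T v a := by
        rcases hva a with h | h
        · exact h
        · exact absurd h.1 hx2
      have hsub : ({(u, a), (v, a)} : Finset (V × Fin k)) ⊆
          X.filter (fun x => T x.1 x.2 = z) := by
        intro y hy
        rw [Finset.mem_insert, Finset.mem_singleton] at hy
        rcases hy with rfl | rfl
        · exact Finset.mem_filter.mpr ⟨hx, hxz⟩
        · refine Finset.mem_filter.mpr ⟨?_, ?_⟩
          · refine Finset.mem_filter.mpr ⟨Finset.mem_product.mpr ⟨hv, Finset.mem_univ _⟩, ?_⟩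
            show T v a ∉ M
            rw [← h2]; exact hx2
          · show T v a = z
            rw [← h2]; exact hxz
      have hcard := Finset.card_le_card hsub
      rw [Finset.card_pair] at hcard
      · exact hcard
      · intro hcon
        exact hvu (Prod.ext_iff.mp hcon).1.symm
    have h3 : X.card + 2 ≤ (M ×ˢ (Finset.univ : Finset (Fin k))).card := by
      obtain ⟨u, hu, v, hv, a, hab, hua, hva⟩ := hne
      have hdisj : Disjoint X ({(u, a), (v, a)} : Finset (V × Fin k)) := by
        rw [Finset.disjoint_left]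
        intro y hy hy2
        have hy3 := (Finset.mem_filter.mp hy).2
        rw [Finset.mem_insert, Finset.mem_singleton] at hy2
        rcases hy2 with rfl | rfl
        · exact hy3 hua
        · exact hy3 hva
      have hsub : X ∪ ({(u, a), (v, a)} : Finset (V × Fin k)) ⊆ M ×ˢ (Finset.univ : Finset (Fin k)) := by
        intro y hy
        rcases Finset.mem_union.mp hy with hy | hy
        · exact (Finset.mem_filter.mp hy).1
        · rw [Finset.mem_insert, Finset.mem_singleton] at hy
          rcases hy with rfl | rfl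
          · exact Finset.mem_product.mpr ⟨hu, Finset.mem_univ _⟩
          · exact Finset.mem_product.mpr ⟨hv, Finset.mem_univ _⟩
      have hcard := Finset.card_le_card hsub
      rw [Finset.card_union_of_disjoint hdisj, Finset.card_pair] at hcard
      · exact hcard
      · intro hcon
        apply hab
        have huv : u = v := (Prod.ext_iff.mp hcon).1
        rw [huv]
    rw [Finset.card_product, Finset.card_univ, Fintype.card_fin, mul_comm] at h3
    omega
  · -- injectivity
    intro x hx y hy hxy
    simp only at hxy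
    have h1 := hFz x hx
    have h2 := hFz y hy
    have h3 : T (m x.1) x.2 = T (m y.1) y.2 := by rw [hkey, hkey, hxy]
    rw [h3] at h1
    have h4 := h1.1.symm.trans h2.1
    have h5 := Prod.ext_iff.mp h4
    exact Prod.ext (hminj h5.1) h5.2
  · -- rank
    intro x hx j hj
    have h1 := hFz x hx
    have h2 : T (m x.1) x.2 = m j := by rw [hkey, hj]; rfl
    have h3 := (hparf _ h1.2).2
    rw [h1.1, h2] at h3
    exact h3
  · -- accessibility
    intro T' hT1 hT2
    have hmain : ∀ n, ∀ z, dist z = n → ∃ w, run T' o w = z := by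
      intro n
      induction n using Nat.strong_induction_on with
      | _ n ih =>
        intro z hzn
        by_cases hz : z = o
        · exact ⟨[], by rw [hz]; rfl⟩
        · obtain ⟨h1, h2⟩ := hparf z hz
          obtain ⟨w, hw⟩ := ih (dist (parf z).1) (by omega) (parf z).1 rfl
          refine ⟨w ++ [(parf z).2], ?_⟩
          have h3 : run T' o (w ++ [(parf z).2]) = T' (parf z).1 (parf z).2 := by
            simp only [run, List.foldl_append, List.foldl_cons, List.foldl_nil]
            rw [show List.foldl T' o w = (parf z).1 from hw]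
          rw [h3]
          by_cases hu : (parf z).1 ∈ M
          · obtain ⟨i, hi⟩ := hsurj _ hu
            have h4 : (i, (parf z).2) ∈ F := by
              rw [hF]
              exact ⟨z, hz, Prod.ext hi.symm rfl⟩
            have h5 := hT2 i (parf z).2 h4
            rw [hi] at h5
            rw [h5]; exact h1
          · rw [hT1 (parf z).1 (fun i hi => hu (by rw [hi]; exact hmM i))]
            exact h1
    intro q
    exact hmain _ q rfl


end J7564
alias pattern_exists := J7564.pattern_exists
end RA
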