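import Pool.Agent.Helper338.RA.Defs2
set_option autoImplicit false
namespace RA
variable {V : Type} {k : ℕ}
namespace J7574

theorem image_cons_aux (N t : ℕ) (x : Fin N) (w : Fin t → Fin N) :
    (Finset.univ.image (Fin.cons x w : Fin (t + 1) → Fin N)) = insert x (Finset.univ.image w) := by
  ext y
  simp only [Finset.mem_image, Finset.mem_univ, true_and, Finset.mem_insert]
  constructor
  · rintro ⟨i, rfl⟩
    refine Fin.cases ?_ (fun j => ?_) i
    · left; simp
    · right; exact ⟨j, by simp⟩
  · rintro (rfl | ⟨j, rfl⟩)
    · exact ⟨0, by simp⟩
    · exact ⟨j.succ, by simp⟩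

theorem count_insert_aux (N d : ℕ) (s : Finset (Fin N)) :
    (Finset.univ.filter (fun x : Fin N => (insert x s).card = d + 1)).card
      = (if s.card = d + 1 then d + 1 else 0) + (if s.card = d then N - d else 0) := by
  by_cases h1 : s.card = d + 1
  · have h2 : s.card ≠ d := by omega
    rw [if_pos h1, if_neg h2, add_zero, ← h1]
    congr 1
    ext x
    simp only [Finset.mem_filter, Finset.mem_univ, true_and]
    constructor
    · intro h
      by_contra hx
      rw [Finset.card_insert_of_notMem hx] at h
      omega
    · intro h
      rw [Finset.insert_eq_of_mem h]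
  · rw [if_neg h1, zero_add]
    by_cases h2 : s.card = d
    · rw [if_pos h2]
      have : (Finset.univ.filter (fun x : Fin N => (insert x s).card = d + 1)) = sᶜ := by
        ext x
        simp only [Finset.mem_filter, Finset.mem_univ, true_and, Finset.mem_compl]
        constructor
        · intro h hx
          rw [Finset.insert_eq_of_mem hx] at h
          omega
        · intro h
          rw [Finset.card_insert_of_notMem h, h2]
      rw [this, Finset.card_compl, Fintype.card_fin, h2]
    · rw [if_neg h2, Finset.card_eq_zero]
      ext x
      simp only [Finset.mem_filter, Finset.mem_univ, true_and, Finset.notMem_empty, iff_false]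
      intro h
      by_cases hx : x ∈ s
      · rw [Finset.insert_eq_of_mem hx] at h
        omega
      · rw [Finset.card_insert_of_notMem hx] at h
        omega

theorem card_image_card_succ (N t d : ℕ) :
    (Finset.univ.filter (fun w : Fin (t + 1) → Fin N => (Finset.univ.image w).card = d + 1)).card
      = (d + 1) * (Finset.univ.filter (fun w : Fin t → Fin N => (Finset.univ.image w).card = d + 1)).card
        + (N - d) * (Finset.univ.filter (fun w : Fin t → Fin N => (Finset.univ.image w).card = d)).card := by
  classical
  have h0 : (Finset.univ.filter (fun w : Fin (t + 1) → Fin N => (Finset.univ.image w).card = d + 1)).card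
      = ∑ w : Fin t → Fin N, (Finset.univ.filter
          (fun x : Fin N => (insert x (Finset.univ.image w)).card = d + 1)).card := by
    have e := Fin.consEquiv (fun _ : Fin (t + 1) => Fin N)
    rw [Finset.card_filter, ← (Fin.consEquiv (fun _ : Fin (t + 1) => Fin N)).sum_comp,
      Fintype.sum_prod_type_right]
    refine Finset.sum_congr rfl fun w _ => ?_
    rw [Finset.card_filter]
    refine Finset.sum_congr rfl fun x _ => ?_
    have : (Fin.consEquiv (fun _ : Fin (t + 1) => Fin N)) (x, w) = (Fin.cons x w : Fin (t + 1) → Fin N) := by
      ext i
      rw [Fin.consEquiv_apply]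
    rw [this, image_cons_aux]
  rw [h0]
  simp_rw [count_insert_aux]
  rw [Finset.sum_add_distrib]
  congr 1
  · rw [← Finset.sum_filter, Finset.sum_const, smul_eq_mul, mul_comm]
  · rw [← Finset.sum_filter, Finset.sum_const, smul_eq_mul, mul_comm]

theorem card_image_card (N t d : ℕ) :
    (Finset.univ.filter (fun w : Fin t → Fin N => (Finset.univ.image w).card = d)).card
      = N.descFactorial d * Nat.stirlingSecond t d := by
  induction t generalizing d with
  | zero =>
    cases d with
    | zero => simp
    | succ d => simp
  | succ t ih =>
    cases d with
    | zero =>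
      rw [Nat.stirlingSecond_succ_zero, mul_zero, Finset.card_eq_zero]
      ext w
      simp only [Finset.mem_filter, Finset.mem_univ, true_and, Finset.notMem_empty, iff_false]
      rw [Finset.card_eq_zero]
      intro h
      have : w 0 ∈ Finset.univ.image w := Finset.mem_image_of_mem _ (Finset.mem_univ _)
      rw [h] at this
      simp at this
    | succ d =>
      rw [card_image_card_succ, ih, ih, Nat.stirlingSecond_succ_succ, Nat.descFactorial_succ]
      ring

-- TARGET
theorem ncard_image_card (N t d : ℕ) :
    Set.ncard {w : Fin t → Fin N | (Finset.univ.image w).card = d}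
      = N.descFactorial d * Nat.stirlingSecond t d := by
  rw [← card_image_card, ← Set.ncard_coe_finset]
  congr 1
  ext w
  simp


end J7574
alias ncard_image_card := J7574.ncard_image_card
end RA
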