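import Pool.Agent.Helper338.RA.Defs2
set_option autoImplicit false
namespace RA
variable {V : Type} {k : ℕ}
namespace J7575

theorem arith_7575 (m e p q r x y z : ℕ) (A : q * z ≤ r * y) (B : p * y ≤ q * x)
    (C : p * z ≤ q * y) (D : p * z ≤ r * x) :
    ((m + 1) * q + p) * ((m + e + 1 + 1) * z + y) ≤
      ((m + 1 + 1) * r + q) * ((m + e + 1) * y + x) := by
  have h1 := Nat.mul_le_mul_left ((m + 1) * (m + e + 2)) A
  have h2 := Nat.mul_le_mul_left e C
  have h3 := Nat.mul_le_mul_left (m + 2) D
  have h4 : 0 ≤ e * (r * y) := Nat.zero_le _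
  nlinarith

theorem stirling_tp_7575 (t : ℕ) : ∀ i j : ℕ, i ≤ j →
    Nat.stirlingSecond t i * Nat.stirlingSecond t (j + 1) ≤
      Nat.stirlingSecond t (i + 1) * Nat.stirlingSecond t j := by
  induction t with
  | zero =>
    intro i j _
    simp [Nat.stirlingSecond]
  | succ t ih =>
    intro i j hij
    cases i with
    | zero => simp [Nat.stirlingSecond]
    | succ m =>
      obtain ⟨n, rfl⟩ : ∃ n, j = n + 1 := ⟨j - 1, by omega⟩
      obtain ⟨e, rfl⟩ : ∃ e, n = m + e := ⟨n - m, by omega⟩
      have A := ih (m + 1) (m + e + 1) (by omega)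
      have B := ih m (m + e) (by omega)
      have C := ih m (m + e + 1) (by omega)
      have D : Nat.stirlingSecond t m * Nat.stirlingSecond t (m + e + 1 + 1) ≤
          Nat.stirlingSecond t (m + 1 + 1) * Nat.stirlingSecond t (m + e) := by
        rcases Nat.eq_zero_or_pos e with rfl | he
        · exact le_of_eq (mul_comm _ _)
        · exact C.trans (ih (m + 1) (m + e) (by omega))
      simp only [Nat.stirlingSecond_succ_succ]
      exact arith_7575 m e _ _ _ _ _ _ A B C D

-- TARGET
theorem stirling_logconcave (t d : ℕ) :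
    Nat.stirlingSecond t d * Nat.stirlingSecond t (d+2) ≤ (Nat.stirlingSecond t (d+1))^2 := by
  rw [sq]
  exact stirling_tp_7575 t d (d + 1) (by omega)


end J7575
alias stirling_logconcave := J7575.stirling_logconcave
end RA
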