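import Pool.Agent.Helper338.RA.Defs2
import Pool.Agent.Helper338.RA.J7574
import Pool.Agent.Helper338.RA.J7575
set_option autoImplicit false
namespace RA
variable {V : Type} {k : ℕ}
namespace J7578



theorem mode_pos (t d : ℕ) (hd : 1 ≤ d) (hdt : d ≤ t) : 0 < Nat.stirlingSecond t d := by
  induction t generalizing d with
  | zero => omega
  | succ t ih =>
    obtain ⟨k, rfl⟩ : ∃ k, d = k + 1 := ⟨d - 1, by omega⟩
    rcases Nat.lt_or_ge t (k + 1) with h | h
    · have : k = t := by omega
      subst this
      rw [Nat.stirlingSecond_self]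
      exact one_pos
    · rw [Nat.stirlingSecond_succ_succ]
      exact Nat.add_pos_left (Nat.mul_pos (Nat.succ_pos k) (ih (k + 1) hd h)) _

theorem mode_ratio (t d : ℕ) (hd : 1 ≤ d) (d' : ℕ) (hdd : d ≤ d') :
    Nat.stirlingSecond t d * Nat.stirlingSecond t (d' + 1) ≤
      Nat.stirlingSecond t (d + 1) * Nat.stirlingSecond t d' := by
  induction d', hdd using Nat.le_induction with
  | base => rw [mul_comm]
  | succ d' hdd ih =>
    by_cases h : d' + 1 ≤ t
    · have h1 : 0 < Nat.stirlingSecond t d' := mode_pos t d' (by omega) (by omega)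
      have h2 : 0 < Nat.stirlingSecond t (d' + 1) := mode_pos t (d' + 1) (by omega) h
      have h3 := stirling_logconcave t d'
      have h4 : (Nat.stirlingSecond t d' * Nat.stirlingSecond t (d' + 1)) *
          (Nat.stirlingSecond t d * Nat.stirlingSecond t (d' + 1 + 1)) ≤
          (Nat.stirlingSecond t d' * Nat.stirlingSecond t (d' + 1)) *
          (Nat.stirlingSecond t (d + 1) * Nat.stirlingSecond t (d' + 1)) := by
        calc (Nat.stirlingSecond t d' * Nat.stirlingSecond t (d' + 1)) *
              (Nat.stirlingSecond t d * Nat.stirlingSecond t (d' + 1 + 1))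
            = (Nat.stirlingSecond t d * Nat.stirlingSecond t (d' + 1)) *
              (Nat.stirlingSecond t d' * Nat.stirlingSecond t (d' + 2)) := by ring
          _ ≤ (Nat.stirlingSecond t (d + 1) * Nat.stirlingSecond t d') *
              (Nat.stirlingSecond t (d' + 1)) ^ 2 := Nat.mul_le_mul ih h3
          _ = _ := by ring
      exact Nat.le_of_mul_le_mul_left h4 (Nat.mul_pos h1 h2)
    · rw [Nat.stirlingSecond_eq_zero_of_lt (n := t) (k := d' + 1 + 1) (by omega), mul_zero]
      exact Nat.zero_le _

-- TARGET
theorem exists_mode (t n : ℕ) (hn : 1 ≤ n) (ht : n + 1 ≤ t) :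
    ∃ N, n ≤ N ∧ N^t ≤ N * (N.descFactorial n * Nat.stirlingSecond t n) := by
  classical
  have hS1 : 0 < Nat.stirlingSecond t (n + 1) := mode_pos t (n + 1) (by omega) ht
  obtain ⟨N, hN, hN1, hN2⟩ : ∃ N, n ≤ N ∧
      (N - n) * Nat.stirlingSecond t (n + 1) ≤ Nat.stirlingSecond t n ∧
      Nat.stirlingSecond t n < (N - n + 1) * Nat.stirlingSecond t (n + 1) := by
    refine ⟨n + Nat.stirlingSecond t n / Nat.stirlingSecond t (n + 1), Nat.le_add_right _ _, ?_, ?_⟩
    · rw [Nat.add_sub_cancel_left]
      exact Nat.div_mul_le_self _ _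
    · rw [Nat.add_sub_cancel_left]
      have h1 := Nat.div_add_mod (Nat.stirlingSecond t n) (Nat.stirlingSecond t (n + 1))
      have h2 := Nat.mod_lt (Nat.stirlingSecond t n) hS1
      rw [add_mul, one_mul, mul_comm]
      omega
  refine ⟨N, hN, ?_⟩
  have hup : ∀ d, n ≤ d → N.descFactorial (d + 1) * Nat.stirlingSecond t (d + 1) ≤
      N.descFactorial d * Nat.stirlingSecond t d := by
    intro d hd
    have h1 : (N - d) * Nat.stirlingSecond t (d + 1) ≤ Nat.stirlingSecond t d := by
      have h2 := mode_ratio t n hn d hd
      have h3 : Nat.stirlingSecond t (n + 1) * ((N - d) * Nat.stirlingSecond t (d + 1)) ≤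
          Nat.stirlingSecond t (n + 1) * Nat.stirlingSecond t d := by
        calc Nat.stirlingSecond t (n + 1) * ((N - d) * Nat.stirlingSecond t (d + 1))
            = ((N - d) * Nat.stirlingSecond t (n + 1)) * Nat.stirlingSecond t (d + 1) := by ring
          _ ≤ ((N - n) * Nat.stirlingSecond t (n + 1)) * Nat.stirlingSecond t (d + 1) :=
              Nat.mul_le_mul_right _ (Nat.mul_le_mul_right _ (by omega))
          _ ≤ Nat.stirlingSecond t n * Nat.stirlingSecond t (d + 1) := Nat.mul_le_mul_right _ hN1
          _ ≤ _ := h2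
      exact Nat.le_of_mul_le_mul_left h3 hS1
    rw [Nat.descFactorial_succ]
    calc (N - d) * N.descFactorial d * Nat.stirlingSecond t (d + 1)
        = N.descFactorial d * ((N - d) * Nat.stirlingSecond t (d + 1)) := by ring
      _ ≤ _ := Nat.mul_le_mul_left _ h1
  have hdown : ∀ d, 1 ≤ d → d < n → N.descFactorial d * Nat.stirlingSecond t d ≤
      N.descFactorial (d + 1) * Nat.stirlingSecond t (d + 1) := by
    intro d hd1 hd
    have h1 : Nat.stirlingSecond t d ≤ (N - d) * Nat.stirlingSecond t (d + 1) := by
      have h2 := mode_ratio t d hd1 n hd.le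
      have h3 : Nat.stirlingSecond t (n + 1) * Nat.stirlingSecond t d ≤
          Nat.stirlingSecond t (n + 1) * ((N - d) * Nat.stirlingSecond t (d + 1)) := by
        calc Nat.stirlingSecond t (n + 1) * Nat.stirlingSecond t d
            = Nat.stirlingSecond t d * Nat.stirlingSecond t (n + 1) := mul_comm _ _
          _ ≤ Nat.stirlingSecond t (d + 1) * Nat.stirlingSecond t n := h2
          _ ≤ Nat.stirlingSecond t (d + 1) * ((N - n + 1) * Nat.stirlingSecond t (n + 1)) :=
              Nat.mul_le_mul_left _ hN2.le
          _ ≤ Nat.stirlingSecond t (d + 1) * ((N - d) * Nat.stirlingSecond t (n + 1)) :=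
              Nat.mul_le_mul_left _ (Nat.mul_le_mul_right _ (by omega))
          _ = _ := by ring
      exact Nat.le_of_mul_le_mul_left h3 hS1
    rw [Nat.descFactorial_succ]
    calc N.descFactorial d * Nat.stirlingSecond t d
        ≤ N.descFactorial d * ((N - d) * Nat.stirlingSecond t (d + 1)) := Nat.mul_le_mul_left _ h1
      _ = _ := by ring
  have hmax1 : ∀ d, n ≤ d → N.descFactorial d * Nat.stirlingSecond t d ≤
      N.descFactorial n * Nat.stirlingSecond t n := by
    intro d hd
    induction d, hd using Nat.le_induction with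
    | base => exact le_refl _
    | succ d hd ih => exact (hup d hd).trans ih
  have hmax2 : ∀ k, k < n → N.descFactorial (n - k) * Nat.stirlingSecond t (n - k) ≤
      N.descFactorial n * Nat.stirlingSecond t n := by
    intro k
    induction k with
    | zero => intro _; exact le_refl _
    | succ k ih =>
      intro hk
      have h1 := hdown (n - (k + 1)) (by omega) (by omega)
      have h2 : n - (k + 1) + 1 = n - k := by omega
      rw [h2] at h1
      exact h1.trans (ih (by omega))
  have hmax : ∀ d, 1 ≤ d → N.descFactorial d * Nat.stirlingSecond t d ≤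
      N.descFactorial n * Nat.stirlingSecond t n := by
    intro d hd
    rcases Nat.lt_or_ge d n with h | h
    · have h1 := hmax2 (n - d) (by omega)
      have h2 : n - (n - d) = d := by omega
      rw [h2] at h1
      exact h1
    · exact hmax1 d h
  have hcard : N ^ t = ∑ d ∈ Finset.Icc 1 N,
      (Finset.univ.filter (fun w : Fin t → Fin N => (Finset.univ.image w).card = d)).card := by
    have h1 := Finset.card_eq_sum_card_fiberwise (f := fun w : Fin t → Fin N => (Finset.univ.image w).card)
      (s := Finset.univ) (t := Finset.Icc 1 N) (by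
        intro w _
        rw [Finset.mem_coe, Finset.mem_Icc]
        constructor
        · refine Finset.card_pos.2 ⟨w ⟨0, by omega⟩, Finset.mem_image_of_mem _ (Finset.mem_univ _)⟩
        · have := Finset.card_le_univ (Finset.univ.image w)
          simpa using this)
    rw [Finset.card_univ, Fintype.card_fun, Fintype.card_fin, Fintype.card_fin] at h1
    exact h1
  rw [hcard]
  have hterm : ∀ d ∈ Finset.Icc 1 N,
      (Finset.univ.filter (fun w : Fin t → Fin N => (Finset.univ.image w).card = d)).card ≤
      N.descFactorial n * Nat.stirlingSecond t n := by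
    intro d hd
    rw [Finset.mem_Icc] at hd
    have h1 := ncard_image_card N t d
    have h2 : Set.ncard {w : Fin t → Fin N | (Finset.univ.image w).card = d} =
        (Finset.univ.filter (fun w : Fin t → Fin N => (Finset.univ.image w).card = d)).card := by
      rw [← Set.ncard_coe_finset]
      congr 1
      ext w
      simp
    rw [← h2, h1]
    exact hmax d hd.1
  refine (Finset.sum_le_card_nsmul _ _ _ hterm).trans ?_
  rw [Nat.card_Icc, smul_eq_mul, Nat.add_sub_cancel]


end J7578
alias exists_mode := J7578.exists_mode
end RA
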