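import Pool.Agent.Helper338.RA.Defs2
set_option autoImplicit false
namespace RA
variable {V : Type} {k : ℕ}
namespace J7579



theorem aux7579 (m k L : ℕ) (hk : 1 ≤ k) (hL : L = k*(m+1)) [NeZero L]
    (w : Fin L → Fin (m+1)) (hw : Function.Surjective w) :
    ∃ r : Fin L, ∀ i, i < m + 1 → i + 1 ≤
    (insert 0 ((Finset.univ.filter (fun p : Fin L => p.val < k*i)).image
      (fun p => w (p + r)))).card := by
  classical
  obtain ⟨mk, hmk⟩ : ∃ mk : Fin (m+1) → Fin L, ∀ v, w (mk v) = v :=
    ⟨fun v => (hw v).choose, fun v => (hw v).choose_spec⟩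
  have hinj : Function.Injective mk := by
    intro a b h
    rw [← hmk a, ← hmk b, h]
  have hLpos : 0 < L := Nat.pos_of_ne_zero (NeZero.ne L)
  let mark : ℕ → Prop := fun n => ∃ v : Fin (m+1), v ≠ 0 ∧ (mk v).val = n % L
  let x : ℕ → ℤ := fun n => (if mark n then (k : ℤ) else 0) - 1
  let S : ℕ → ℤ := fun t => ∑ n ∈ Finset.range t, x n
  have hsum : ∀ r t, S (r + t) - S r =
      (k : ℤ) * ((Finset.range t).filter (fun n => mark (r + n))).card - t := by
    intro r t
    have h1 : S (r + t) = S r + ∑ n ∈ Finset.range t, x (r + n) := Finset.sum_range_add x r t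
    have h2 : ∑ n ∈ Finset.range t, (if mark (r + n) then (k : ℤ) else 0) =
        (k : ℤ) * ((Finset.range t).filter (fun n => mark (r + n))).card := by
      rw [← Finset.sum_filter, Finset.sum_const, nsmul_eq_mul, mul_comm]
    rw [h1]
    simp only [x, Finset.sum_sub_distrib, Finset.sum_const, Finset.card_range, nsmul_eq_mul,
      mul_one]
    rw [h2]
    ring
  have hcard : ((Finset.range L).filter (fun n => mark (0 + n))).card = m := by
    have h1 : (Finset.range L).filter (fun n => mark (0 + n)) =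
        ((Finset.univ : Finset (Fin (m+1))).erase 0).image (fun v => (mk v).val) := by
      ext n
      simp only [Finset.mem_filter, Finset.mem_range, zero_add, Finset.mem_image,
        Finset.mem_erase, Finset.mem_univ, and_true, mark]
      constructor
      · rintro ⟨h1, v, hv, h2⟩
        exact ⟨v, hv, by rw [h2, Nat.mod_eq_of_lt h1]⟩
      · rintro ⟨v, hv, rfl⟩
        exact ⟨(mk v).isLt, v, hv, (Nat.mod_eq_of_lt (mk v).isLt).symm⟩
    rw [h1, Finset.card_image_of_injective]
    · simp
    · intro a b h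
      exact hinj (Fin.ext h)
  have hSL : S L = -(k : ℤ) := by
    have h1 := hsum 0 L
    rw [hcard] at h1
    have h2 : S 0 = 0 := by simp [S]
    rw [h2, zero_add, sub_zero] at h1
    rw [h1, hL]
    push_cast
    ring
  have hper : ∀ t, S (L + t) = S t - k := by
    intro t
    have h1 : S (L + t) = S L + ∑ n ∈ Finset.range t, x (L + n) := Finset.sum_range_add x L t
    have h2 : ∀ n, x (L + n) = x n := by
      intro n
      simp only [x, mark, Nat.add_mod_left]
    simp only [h2] at h1
    rw [h1, hSL]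
    simp only [S]
    ring
  -- first minimum
  have hex : ∃ t, t < L ∧ ∀ s < L, S t ≤ S s := by
    obtain ⟨t, ht, hmin⟩ := Finset.exists_min_image (Finset.range L) S ⟨0, by simpa using hLpos⟩
    exact ⟨t, Finset.mem_range.1 ht, fun s hs => hmin s (Finset.mem_range.2 hs)⟩
  let t0 := Nat.find hex
  have ht0 : t0 < L ∧ ∀ s < L, S t0 ≤ S s := Nat.find_spec hex
  have hfirst : ∀ t' < t0, S t0 < S t' := by
    intro t' ht'
    have h1 := Nat.find_min hex ht'
    push Not at h1
    obtain ⟨s, hs, h2⟩ := h1 (ht'.trans ht0.1)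
    exact lt_of_le_of_lt (ht0.2 s hs) h2
  have hmain : ∀ t < L, -(k : ℤ) < S (t0 + t) - S t0 := by
    intro t ht
    by_cases h : t0 + t < L
    · have h1 := ht0.2 _ h
      have h2 : (0 : ℤ) < k := by exact_mod_cast hk
      linarith
    · obtain ⟨t', ht'⟩ : ∃ t', t0 + t = L + t' := ⟨t0 + t - L, by omega⟩
      have h1 : t' < t0 := by omega
      rw [ht', hper]
      have h2 := hfirst t' h1
      linarith
  refine ⟨⟨t0, ht0.1⟩, ?_⟩
  intro i hi
  have hki : k * i < L := by
    rw [hL]
    exact Nat.mul_lt_mul_of_pos_left hi (by omega)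
  have h1 := hmain (k * i) hki
  rw [hsum] at h1
  have h2 : i ≤ ((Finset.range (k * i)).filter (fun n => mark (t0 + n))).card := by
    by_contra hcon
    push Not at hcon
    have h3 : ((((Finset.range (k * i)).filter (fun n => mark (t0 + n))).card : ℕ) : ℤ) + 1 ≤ i := by
      exact_mod_cast hcon
    have h4 : (0 : ℤ) < k := by exact_mod_cast hk
    push_cast at h1
    nlinarith
  refine le_trans (Nat.add_le_add_right h2 1) ?_
  -- map marked positions to values
  have hex2 : ∀ n, n ∈ (Finset.range (k * i)).filter (fun n => mark (t0 + n)) →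
      ∃ v : Fin (m+1), v ≠ 0 ∧ (mk v).val = (t0 + n) % L := by
    intro n hn
    exact (Finset.mem_filter.1 hn).2
  let val : ℕ → Fin (m+1) := fun n => if h : mark (t0 + n) then h.choose else 0
  have hval : ∀ n, mark (t0 + n) → val n ≠ 0 ∧ (mk (val n)).val = (t0 + n) % L := by
    intro n h
    simp only [val, dif_pos h]
    exact h.choose_spec
  have hvinj : Set.InjOn val
      ((Finset.range (k * i)).filter (fun n => mark (t0 + n)) : Finset ℕ) := by
    intro a ha b hb hab
    simp only [Finset.coe_filter, Finset.mem_range, Set.mem_ofPred_eq] at ha hb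
    have h3 := (hval a ha.2).2
    have h4 := (hval b hb.2).2
    rw [hab, h4] at h3
    have h5 : t0 + b ≡ t0 + a [MOD L] := h3
    have h6 : b ≡ a [MOD L] := Nat.ModEq.add_left_cancel' t0 h5
    have h7 : b % L = a % L := h6
    rw [Nat.mod_eq_of_lt (hb.1.trans hki), Nat.mod_eq_of_lt (ha.1.trans hki)] at h7
    exact h7.symm
  rw [← Finset.card_image_of_injOn hvinj]
  have hnot : (0 : Fin (m+1)) ∉
      ((Finset.range (k * i)).filter (fun n => mark (t0 + n))).image val := by
    intro h
    obtain ⟨n, hn, h3⟩ := Finset.mem_image.1 h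
    exact (hval n (Finset.mem_filter.1 hn).2).1 h3
  rw [← Finset.card_insert_of_notMem hnot]
  apply Finset.card_le_card
  apply Finset.insert_subset_insert
  intro v hv
  obtain ⟨n, hn, h3⟩ := Finset.mem_image.1 hv
  obtain ⟨hn1, hn2⟩ := Finset.mem_filter.1 hn
  rw [Finset.mem_range] at hn1
  refine Finset.mem_image.2 ⟨⟨n, hn1.trans hki⟩, by simpa using hn1, ?_⟩
  have h4 : (⟨n, hn1.trans hki⟩ : Fin L) + ⟨t0, ht0.1⟩ = mk v := by
    apply Fin.ext
    rw [Fin.val_add, ← h3, (hval n hn2).2, Nat.add_comm]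
  show w (_ + _) = v
  rw [h4, hmk]

-- TARGET
theorem good_rotation (m k : ℕ) (hk : 1 ≤ k) [NeZero (k*(m+1))]
    (w : Fin (k*(m+1)) → Fin (m+1)) (hw : Function.Surjective w) :
    ∃ r : Fin (k*(m+1)), GoodWord m k (fun p => w (p + r)) :=
  aux7579 m k _ hk rfl w hw


end J7579
alias good_rotation := J7579.good_rotation
end RA
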