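import Pool.Agent.Helper338.RA.Defs2
set_option autoImplicit false
namespace RA
variable {V : Type} {k : ℕ}
namespace J7580



section goodacc

variable {m : ℕ}

/-- the values seen in the first `n` letters, together with `0` -/
def seenW (w : Fin (k*(m+1)) → Fin (m+1)) (n : ℕ) : Finset (Fin (m+1)) :=
  insert 0 ((Finset.univ.filter (fun p : Fin (k*(m+1)) => p.val < n)).image w)

/-- time of the first occurrence -/
noncomputable def foW (w : Fin (k*(m+1)) → Fin (m+1)) (v : Fin (m+1)) : ℕ :=
  sInf {n | v ∈ seenW w n}

/-- rank of a value in the order of first occurrences -/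
noncomputable def rkW (w : Fin (k*(m+1)) → Fin (m+1)) (v : Fin (m+1)) : ℕ :=
  (Finset.univ.filter (fun x => foW w x < foW w v)).card

theorem mem_seenW (w : Fin (k*(m+1)) → Fin (m+1)) (n : ℕ) (v : Fin (m+1)) :
    v ∈ seenW w n ↔ v = 0 ∨ ∃ p : Fin (k*(m+1)), p.val < n ∧ w p = v := by
  simp [seenW]

theorem seenW_mono (w : Fin (k*(m+1)) → Fin (m+1)) {a b : ℕ} (h : a ≤ b) :
    seenW w a ⊆ seenW w b := by
  intro v hv
  rw [mem_seenW] at hv ⊢
  rcases hv with hv | ⟨p, hp, hw⟩
  · exact Or.inl hv
  · exact Or.inr ⟨p, by omega, hw⟩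

theorem foW_le_iff {w : Fin (k*(m+1)) → Fin (m+1)} (hs : Function.Surjective w) (v : Fin (m+1))
    (n : ℕ) : foW w v ≤ n ↔ v ∈ seenW w n := by
  constructor
  · intro h
    have hne : {n | v ∈ seenW w n}.Nonempty := by
      obtain ⟨p, hp⟩ := hs v
      exact ⟨p.val + 1, (mem_seenW w _ v).2 (Or.inr ⟨p, by omega, hp⟩)⟩
    exact seenW_mono w h (Nat.sInf_mem hne)
  · intro h
    exact Nat.sInf_le h

theorem foW_inj {w : Fin (k*(m+1)) → Fin (m+1)} (hs : Function.Surjective w) {v v' : Fin (m+1)}
    (h : foW w v = foW w v') : v = v' := by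
  have key : ∀ x : Fin (m+1), (foW w x = 0 → x = 0) ∧
      (∀ n, foW w x = n + 1 → ∃ p : Fin (k*(m+1)), p.val = n ∧ w p = x) := by
    intro x
    refine ⟨fun h0 => ?_, fun n hn => ?_⟩
    · have := (foW_le_iff hs x 0).1 h0.le
      rw [mem_seenW] at this
      rcases this with h1 | ⟨p, hp, -⟩
      · exact h1
      · omega
    · have h1 := (foW_le_iff hs x (n+1)).1 hn.le
      have h2 : x ∉ seenW w n := fun h3 => by
        have := (foW_le_iff hs x n).2 h3
        omega
      rw [mem_seenW] at h1 h2
      push Not at h2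
      rcases h1 with h1 | ⟨p, hp, hw⟩
      · exact absurd h1 h2.1
      · refine ⟨p, ?_, hw⟩
        by_contra hne
        exact h2.2 p (by omega) hw
  rcases Nat.eq_zero_or_pos (foW w v) with h0 | h0
  · rw [(key v).1 h0, (key v').1 (by omega)]
  · obtain ⟨n, hn⟩ := Nat.exists_eq_succ_of_ne_zero h0.ne'
    obtain ⟨p, hp, hw⟩ := (key v).2 n hn
    obtain ⟨p', hp', hw'⟩ := (key v').2 n (by omega)
    have : p = p' := Fin.ext (by omega)
    rw [← hw, ← hw', this]

theorem rkW_lt_of_foW_lt {w : Fin (k*(m+1)) → Fin (m+1)} {v v' : Fin (m+1)}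
    (h : foW w v < foW w v') : rkW w v < rkW w v' := by
  apply Finset.card_lt_card
  rw [Finset.ssubset_iff_of_subset]
  · exact ⟨v, by simpa using h, by simp⟩
  · intro x hx
    simp only [Finset.mem_filter, Finset.mem_univ, true_and] at hx ⊢
    omega

theorem rkW_lt (w : Fin (k*(m+1)) → Fin (m+1)) (v : Fin (m+1)) : rkW w v < m + 1 := by
  have h1 : (Finset.univ.filter (fun x => foW w x < foW w v)) ⊂ (Finset.univ : Finset (Fin (m+1))) := by
    rw [Finset.ssubset_univ_iff]
    intro h
    have : v ∈ (Finset.univ.filter (fun x => foW w x < foW w v)) := by rw [h]; simp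
    simp at this
  have := Finset.card_lt_card h1
  simpa [rkW] using this

theorem exists_rkW {w : Fin (k*(m+1)) → Fin (m+1)} (hs : Function.Surjective w) {i : ℕ}
    (hi : i < m + 1) : ∃ v, rkW w v = i := by
  have hinj : Function.Injective (fun v => (⟨rkW w v, rkW_lt w v⟩ : Fin (m+1))) := by
    intro v v' h
    have h' : rkW w v = rkW w v' := by simpa using h
    apply foW_inj hs
    rcases lt_trichotomy (foW w v) (foW w v') with h1 | h1 | h1
    · have := rkW_lt_of_foW_lt h1; omega
    · exact h1
    · have := rkW_lt_of_foW_lt h1; omega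
  obtain ⟨v, hv⟩ := (Finite.injective_iff_surjective.1 hinj) ⟨i, hi⟩
  exact ⟨v, by simpa using congrArg Fin.val hv⟩

theorem idx_lt (w : Fin (k*(m+1)) → Fin (m+1)) (v : Fin (m+1)) (a : Fin k) :
    k * rkW w v + a.val < k * (m+1) := by
  have h1 := rkW_lt w v
  have h2 := a.2
  calc k * rkW w v + a.val < k * rkW w v + k := by omega
    _ = k * (rkW w v + 1) := by ring
    _ ≤ k * (m+1) := Nat.mul_le_mul_left _ h1

/-- the automaton of a word -/
noncomputable def autW (w : Fin (k*(m+1)) → Fin (m+1)) : Fin (m+1) → Fin k → Fin (m+1) :=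
  fun v a => w ⟨k * rkW w v + a.val, idx_lt w v a⟩

theorem good_foW {w : Fin (k*(m+1)) → Fin (m+1)} (hs : Function.Surjective w)
    (hg : GoodWord m k w) {v : Fin (m+1)} {i : ℕ} (hi : i < m + 1) (h : k * i < foW w v) :
    i < rkW w v := by
  have h1 := hg i hi
  have h2 : (insert 0 ((Finset.univ.filter (fun p : Fin (k*(m+1)) => p.val < k*i)).image w)) ⊆
      (Finset.univ.filter (fun x => foW w x < foW w v)) := by
    intro x hx
    have hx' : x ∈ seenW w (k * i) := hx
    have := (foW_le_iff hs x (k*i)).2 hx'
    simp only [Finset.mem_filter, Finset.mem_univ, true_and]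
    omega
  have h3 := Finset.card_le_card h2
  unfold rkW
  omega

theorem acc_autW {w : Fin (k*(m+1)) → Fin (m+1)} (hs : Function.Surjective w)
    (hg : GoodWord m k w) : Acc (autW w) 0 := by
  have main : ∀ N : ℕ, ∀ v, rkW w v = N → ∃ u, run (autW w) 0 u = v := by
    intro N
    induction N using Nat.strong_induction_on with
    | _ N ih =>
      intro v hv
      by_cases h0 : v = 0
      · exact ⟨[], by rw [h0]; rfl⟩
      · have h1 := (foW_le_iff hs v (foW w v)).1 le_rfl
        rw [mem_seenW] at h1
        rcases h1 with h1 | ⟨p, hp, hw⟩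
        · exact absurd h1 h0
        · have hk0 : 0 < k := by
            rcases Nat.eq_zero_or_pos k with hk | hk
            · exfalso
              subst hk
              have := p.2
              simp at this
            · exact hk
          have hdm : k * (p.val / k) + p.val % k = p.val := Nat.div_add_mod _ _
          have hi : p.val / k < m + 1 := by
            rw [Nat.div_lt_iff_lt_mul hk0]
            exact lt_of_lt_of_eq p.2 (mul_comm _ _)
          have h2 : p.val / k < rkW w v := good_foW hs hg hi (by omega)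
          obtain ⟨u, hu⟩ := exists_rkW hs hi
          obtain ⟨l, hl⟩ := ih (p.val / k) (by omega) u hu
          refine ⟨l ++ [⟨p.val % k, Nat.mod_lt _ hk0⟩], ?_⟩
          have h3 : run (autW w) 0 (l ++ [⟨p.val % k, Nat.mod_lt _ hk0⟩]) =
              autW w (run (autW w) 0 l) ⟨p.val % k, Nat.mod_lt _ hk0⟩ := by
            simp [run]
          rw [h3, hl]
          unfold autW
          rw [← hw]
          congr 1
          apply Fin.ext
          show k * rkW w u + p.val % k = p.val
          rw [hu]; exact hdm
  exact fun q => main _ q rfl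

theorem seenW_congr {w w' : Fin (k*(m+1)) → Fin (m+1)} {n : ℕ}
    (h : ∀ p : Fin (k*(m+1)), p.val < n → w p = w' p) {a : ℕ} (ha : a ≤ n) :
    seenW w a = seenW w' a := by
  ext v
  rw [mem_seenW, mem_seenW]
  constructor
  · rintro (h1 | ⟨p, hp, hw⟩)
    · exact Or.inl h1
    · exact Or.inr ⟨p, hp, by rw [← h p (by omega)]; exact hw⟩
  · rintro (h1 | ⟨p, hp, hw⟩)
    · exact Or.inl h1
    · exact Or.inr ⟨p, hp, by rw [h p (by omega)]; exact hw⟩

theorem autW_inj {w w' : Fin (k*(m+1)) → Fin (m+1)} (hs : Function.Surjective w)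
    (hs' : Function.Surjective w') (hg : GoodWord m k w) (hT : autW w = autW w') : w = w' := by
  have main : ∀ n : ℕ, ∀ p : Fin (k*(m+1)), p.val < n → w p = w' p := by
    intro n
    induction n with
    | zero => intro p hp; omega
    | succ n ih =>
      intro p hp
      rcases Nat.lt_succ_iff_lt_or_eq.1 hp with h | h
      · exact ih p h
      · have hk0 : 0 < k := by
          rcases Nat.eq_zero_or_pos k with hk | hk
          · exfalso
            subst hk
            have := p.2
            simp at this
          · exact hk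
        have hdm : k * (p.val / k) + p.val % k = p.val := Nat.div_add_mod _ _
        have hi : p.val / k < m + 1 := by
          rw [Nat.div_lt_iff_lt_mul hk0]
          exact lt_of_lt_of_eq p.2 (mul_comm _ _)
        obtain ⟨u, hu⟩ := exists_rkW hs hi
        have hfu : foW w u ≤ k * (p.val / k) := by
          by_contra hc
          push Not at hc
          have := good_foW hs hg hi hc
          omega
        have hle : ∀ (x : Fin (m+1)) (a : ℕ), a ≤ n → (foW w x ≤ a ↔ foW w' x ≤ a) := by
          intro x a ha
          rw [foW_le_iff hs, foW_le_iff hs', seenW_congr ih ha]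
        have hfe : foW w u = foW w' u := by
          have hn : foW w u ≤ n := by omega
          have h1 := (hle u (foW w u) hn).1 le_rfl
          have h2 := (hle u (foW w' u) (by omega)).2 le_rfl
          omega
        have hr : rkW w' u = p.val / k := by
          rw [← hu]
          unfold rkW
          congr 1
          ext x
          simp only [Finset.mem_filter, Finset.mem_univ, true_and]
          rw [← hfe]
          rcases Nat.eq_zero_or_pos (foW w u) with h0 | h0
          · rw [h0]; simp
          · have h3 := hle x (foW w u - 1) (by omega)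
            constructor
            · intro h4; have := h3.2 (by omega); omega
            · intro h4; have := h3.1 (by omega); omega
        have h5 := congrFun (congrFun hT u) ⟨p.val % k, Nat.mod_lt _ hk0⟩
        unfold autW at h5
        have h6 : (⟨k * rkW w u + (⟨p.val % k, Nat.mod_lt _ hk0⟩ : Fin k).val, idx_lt w u _⟩ :
            Fin (k*(m+1))) = p := Fin.ext (by show k * rkW w u + p.val % k = p.val; rw [hu]; exact hdm)
        have h7 : (⟨k * rkW w' u + (⟨p.val % k, Nat.mod_lt _ hk0⟩ : Fin k).val, idx_lt w' u _⟩ :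
            Fin (k*(m+1))) = p := Fin.ext (by show k * rkW w' u + p.val % k = p.val; rw [hr]; exact hdm)
        rw [h6, h7] at h5
        exact h5
  funext p
  exact main (p.val + 1) p (by omega)

end goodacc

-- TARGET
theorem good_le_acc (m k : ℕ) (hk : 1 ≤ k) :
    Set.ncard {w : Fin (k*(m+1)) → Fin (m+1) | GoodWord m k w ∧ Function.Surjective w}
      ≤ Set.ncard {T : Fin (m+1) → Fin k → Fin (m+1) | Acc T 0} := by
  apply Set.ncard_le_ncard_of_injOn autW
  · rintro w ⟨hg, hs⟩
    exact acc_autW hs hg
  · rintro w ⟨hg, hs⟩ w' ⟨-, hs'⟩ h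
    exact autW_inj hs hs' hg h


end J7580
alias good_le_acc := J7580.good_le_acc
end RA
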