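import Pool.Agent.Helper338.RA.Defs2
import Pool.Agent.Helper338.RA.J7579
import Pool.Agent.Helper338.RA.J7580
set_option autoImplicit false
namespace RA
variable {V : Type} {k : ℕ}
namespace J7581





-- TARGET
theorem surj_le_acc (m k : ℕ) (hk : 1 ≤ k) :
    Set.ncard {w : Fin (k*(m+1)) → Fin (m+1) | Function.Surjective w}
      ≤ k*(m+1) * Set.ncard {T : Fin (m+1) → Fin k → Fin (m+1) | Acc T 0} := by
  classical
  have hpos : 0 < k * (m + 1) := Nat.mul_pos (by omega) (by omega)
  haveI : NeZero (k * (m + 1)) := ⟨hpos.ne'⟩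
  choose! r hr using good_rotation m k hk
  refine le_trans ?_ (Nat.mul_le_mul_left _ (good_le_acc m k hk))
  have hinj : Set.InjOn (fun w : Fin (k*(m+1)) → Fin (m+1) => (r w, fun p => w (p + r w)))
      {w : Fin (k*(m+1)) → Fin (m+1) | Function.Surjective w} := by
    intro w _ w' _ h
    have h1 : r w = r w' := congrArg Prod.fst h
    have h2 : (fun p => w (p + r w)) = (fun p => w' (p + r w')) := congrArg Prod.snd h
    funext p
    have h3 := congrFun h2 (p - r w)
    simp only [← h1, sub_add_cancel] at h3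
    exact h3
  have hmaps : (fun w : Fin (k*(m+1)) → Fin (m+1) => (r w, fun p => w (p + r w))) ''
      {w : Fin (k*(m+1)) → Fin (m+1) | Function.Surjective w} ⊆
      (Set.univ : Set (Fin (k*(m+1)))) ×ˢ
        {w : Fin (k*(m+1)) → Fin (m+1) | GoodWord m k w ∧ Function.Surjective w} := by
    rintro _ ⟨w, hw, rfl⟩
    refine ⟨Set.mem_univ _, hr w hw, ?_⟩
    intro y
    obtain ⟨x, hx⟩ := hw y
    refine ⟨x - r w, ?_⟩
    show w (x - r w + r w) = y
    rw [sub_add_cancel, hx]
  rw [← Set.ncard_image_of_injOn hinj]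
  refine (Set.ncard_le_ncard hmaps (Set.toFinite _)).trans (le_of_eq ?_)
  rw [Set.ncard_prod, Set.ncard_univ, Nat.card_eq_fintype_card, Fintype.card_fin]


end J7581
alias surj_le_acc := J7581.surj_le_acc
end RA
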