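import Pool.Agent.Helper338.RA.Defs2
import Pool.Agent.Helper338.RA.J7574
import Pool.Agent.Helper338.RA.J7578
import Pool.Agent.Helper338.RA.J7581
set_option autoImplicit false
namespace RA
variable {V : Type} {k : ℕ}
namespace J7582






theorem surj_ncard_aux (t n : ℕ) :
    Set.ncard {w : Fin t → Fin n | Function.Surjective w}
      = n.factorial * Nat.stirlingSecond t n := by
  have h := ncard_image_card n t n
  rw [Nat.descFactorial_self] at h
  rw [← h]
  congr 1
  ext w
  simp only [Set.mem_ofPred_eq]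
  constructor
  · intro hw
    have : Finset.univ.image w = Finset.univ := by
      rw [Finset.eq_univ_iff_forall]
      intro x
      obtain ⟨y, hy⟩ := hw x
      exact Finset.mem_image.2 ⟨y, Finset.mem_univ _, hy⟩
    rw [this, Finset.card_univ, Fintype.card_fin]
  · intro hw
    have : Finset.univ.image w = Finset.univ := by
      apply Finset.eq_univ_of_card
      rw [hw, Fintype.card_fin]
    intro x
    have hx : x ∈ Finset.univ.image w := by rw [this]; exact Finset.mem_univ _
    obtain ⟨y, _, hy⟩ := Finset.mem_image.1 hx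
    exact ⟨y, hy⟩

theorem stirling_le_aux (t n : ℕ) : Nat.stirlingSecond t n ≤ n ^ t := by
  have h := surj_ncard_aux t n
  have h2 : Set.ncard {w : Fin t → Fin n | Function.Surjective w} ≤ n ^ t := by
    have := Set.ncard_le_ncard (Set.subset_univ {w : Fin t → Fin n | Function.Surjective w})
      (Set.toFinite _)
    rw [Set.ncard_univ, Nat.card_eq_fintype_card, Fintype.card_fun, Fintype.card_fin,
      Fintype.card_fin] at this
    exact this
  have h3 : 1 ≤ n.factorial := Nat.factorial_pos n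
  calc Nat.stirlingSecond t n = 1 * Nat.stirlingSecond t n := (one_mul _).symm
    _ ≤ n.factorial * Nat.stirlingSecond t n := Nat.mul_le_mul_right _ h3
    _ ≤ n ^ t := by rw [← h]; exact h2

-- TARGET
theorem transfer_exists (m k : ℕ) (hm : 1 ≤ m) (hk : 2 ≤ k) :
    ∃ m', m ≤ m' ∧ m' + 1 ≤ (m+1)^4 ∧
      (m'+1)^(k*(m'+1)) ≤ k*(m'+1)^2 * (m'.choose m *
        Set.ncard {T : Fin (m+1) → Fin k → Fin (m+1) | Acc T 0} * (m'+1)^(k*(m'-m))) := by
  set A := Set.ncard {T : Fin (m+1) → Fin k → Fin (m+1) | Acc T 0} with hA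
  obtain ⟨k', rfl⟩ : ∃ k', k = k' + 2 := ⟨k - 2, by omega⟩
  have ht : (m + 1) + 1 ≤ (k' + 2) * (m + 1) := by
    have : (k' + 2) * (m + 1) = k' * (m + 1) + 2 * (m + 1) := by ring
    rw [this]
    have : 0 ≤ k' * (m + 1) := Nat.zero_le _
    omega
  obtain ⟨N, hN, hmode⟩ := exists_mode ((k' + 2) * (m + 1)) (m + 1) (by omega) ht
  obtain ⟨m', rfl⟩ : ∃ m', N = m' + 1 := ⟨N - 1, by omega⟩
  refine ⟨m', by omega, ?_, ?_⟩
  · by_contra hcon
    push Not at hcon
    -- N > n^4
    have h1 : (m' + 1) ^ ((k' + 2) * (m + 1))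
        ≤ (m' + 1) ^ (m + 1 + 1) * (m + 1) ^ ((k' + 2) * (m + 1)) := by
      refine hmode.trans ?_
      have h2 : (m' + 1).descFactorial (m + 1) ≤ (m' + 1) ^ (m + 1) :=
        Nat.descFactorial_le_pow _ _
      have h3 := stirling_le_aux ((k' + 2) * (m + 1)) (m + 1)
      calc (m' + 1) * ((m' + 1).descFactorial (m + 1)
              * Nat.stirlingSecond ((k' + 2) * (m + 1)) (m + 1))
          ≤ (m' + 1) * ((m' + 1) ^ (m + 1) * (m + 1) ^ ((k' + 2) * (m + 1))) :=
            Nat.mul_le_mul_left _ (Nat.mul_le_mul h2 h3)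
        _ = (m' + 1) ^ (m + 1 + 1) * (m + 1) ^ ((k' + 2) * (m + 1)) := by ring
    obtain ⟨e, he⟩ : ∃ e, (k' + 2) * (m + 1) = (m + 1 + 1) + e := Nat.exists_eq_add_of_le ht
    have he1 : 1 ≤ e := by
      have h4 : (k' + 2) * (m + 1) = k' * (m + 1) + 2 * (m + 1) := by ring
      have : 0 ≤ k' * (m + 1) := Nat.zero_le _
      omega
    have he2 : (k' + 2) * (m + 1) ≤ 4 * e := by
      have h4 : (k' + 2) * (m + 1) = k' * (m + 1) + 2 * (m + 1) := by ring
      have : 0 ≤ k' * (m + 1) := Nat.zero_le _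
      omega
    have h5 : (m' + 1) ^ e ≤ (m + 1) ^ ((k' + 2) * (m + 1)) := by
      have h6 : (m' + 1) ^ (m + 1 + 1) * (m' + 1) ^ e
          ≤ (m' + 1) ^ (m + 1 + 1) * (m + 1) ^ ((k' + 2) * (m + 1)) := by
        rw [← pow_add, ← he]; exact h1
      exact Nat.le_of_mul_le_mul_left h6 (by positivity)
    have h7 : ((m + 1) ^ 4) ^ e < (m' + 1) ^ e := Nat.pow_lt_pow_left hcon (by omega)
    have h8 : (m + 1) ^ ((k' + 2) * (m + 1)) ≤ ((m + 1) ^ 4) ^ e := by
      rw [← pow_mul]
      exact Nat.pow_le_pow_right (by omega) he2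
    omega
  · have hsur := surj_le_acc m (k' + 2) (by omega)
    rw [surj_ncard_aux, ← hA] at hsur
    have hch : (m' + 1) * m'.choose m = (m' + 1).choose (m + 1) * (m + 1) :=
      Nat.add_one_mul_choose_eq m' m
    rw [Nat.descFactorial_eq_factorial_mul_choose] at hmode
    have h1 : (m' + 1) ^ ((k' + 2) * (m + 1)) ≤ (k' + 2) * (m' + 1) ^ 2 * (m'.choose m * A) := by
      calc (m' + 1) ^ ((k' + 2) * (m + 1))
          ≤ (m' + 1) * ((m + 1).factorial * (m' + 1).choose (m + 1)
              * Nat.stirlingSecond ((k' + 2) * (m + 1)) (m + 1)) := hmode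
        _ = (m' + 1) * (m' + 1).choose (m + 1) * ((m + 1).factorial
              * Nat.stirlingSecond ((k' + 2) * (m + 1)) (m + 1)) := by ring
        _ ≤ (m' + 1) * (m' + 1).choose (m + 1) * ((k' + 2) * (m + 1) * A) :=
            Nat.mul_le_mul_left _ hsur
        _ = (k' + 2) * (m' + 1) * ((m' + 1).choose (m + 1) * (m + 1)) * A := by ring
        _ = (k' + 2) * (m' + 1) ^ 2 * (m'.choose m * A) := by rw [← hch]; ring
    have hle : m ≤ m' := by omega
    have h2 : (k' + 2) * (m' + 1) = (k' + 2) * (m + 1) + (k' + 2) * (m' - m) := by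
      rw [← Nat.mul_add]
      congr 1
      omega
    rw [h2, pow_add]
    calc (m' + 1) ^ ((k' + 2) * (m + 1)) * (m' + 1) ^ ((k' + 2) * (m' - m))
        ≤ (k' + 2) * (m' + 1) ^ 2 * (m'.choose m * A) * (m' + 1) ^ ((k' + 2) * (m' - m)) :=
          Nat.mul_le_mul_right _ h1
      _ = _ := by ring


end J7582
alias transfer_exists := J7582.transfer_exists
end RA
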