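import Pool.Agent.Helper338.RA.Defs2
set_option autoImplicit false
namespace RA
variable {V : Type} {k : ℕ}
namespace J7583

section
variable {V : Type} [Fintype V] [DecidableEq V] {k : ℕ} [NeZero k]
theorem addOne_nodup_7583 (L : List (V × V)) (z z' : V) (hL : (L.map Prod.fst).Nodup) :
    ((addOne L z z').map Prod.fst).Nodup := by
  unfold addOne
  split_ifs with h
  · exact hL
  · rw [List.map_append, List.map_cons, List.map_nil, List.nodup_append]
    refine ⟨hL, List.nodup_singleton _, ?_⟩
    intro a ha b hb hab
    rw [List.mem_singleton] at hb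
    apply h
    have h3 : a = z := hab.trans hb
    rw [← h3]
    exact ha

theorem addPair_nodup_7583 (L : List (V × V)) (z z' : V) (hL : (L.map Prod.fst).Nodup) :
    ((addPair L z z').map Prod.fst).Nodup := by
  unfold addPair
  split_ifs with h
  · exact hL
  · exact addOne_nodup_7583 _ _ _ (addOne_nodup_7583 _ _ _ hL)

theorem expl_nodup_7583 (T : V → Fin k → V) (p q : V) (hpq : p ≠ q) (t : ℕ) :
    ((expl T p q t).map Prod.fst).Nodup := by
  induction t with
  | zero => simp [expl, hpq]
  | succ t ih =>
    rw [expl]
    split
    · exact ih
    · exact addPair_nodup_7583 _ _ _ ih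

theorem expl_self_7583 (T : V → Fin k → V) (p : V) (t : ℕ) :
    expl T p p t = [(p, p), (p, p)] := by
  induction t with
  | zero => rfl
  | succ t ih =>
    rw [expl]
    split
    · exact ih
    · rename_i u v h
      rw [ih] at h ⊢
      have h1 : (u, v) ∈ ([(p, p), (p, p)] : List (V × V)) := List.mem_of_getElem? h
      have h2 : (u, v) = (p, p) := by simpa using h1
      obtain ⟨rfl, rfl⟩ := Prod.mk.inj h2
      unfold addPair
      rw [if_pos rfl]

-- TARGET
theorem expl_stable (T : V → Fin k → V) (p q : V) (t : ℕ) (ht : k * Fintype.card V ≤ t) :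
    expl T p q t = expl T p q (k * Fintype.card V) := by
  by_cases hpq : p = q
  · subst hpq
    rw [expl_self_7583, expl_self_7583]
  · induction t, ht using Nat.le_induction with
    | base => rfl
    | succ t ht ih =>
      rw [← ih, expl]
      have h1 : ((expl T p q t).map Prod.fst).length ≤ Fintype.card V :=
        (expl_nodup_7583 T p q hpq t).length_le_card
      rw [List.length_map] at h1
      have hk : 0 < k := Nat.pos_of_ne_zero (NeZero.ne k)
      have h2 : Fintype.card V ≤ t / k := by
        rw [Nat.le_div_iff_mul_le hk, mul_comm]
        exact ht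
      have h3 : (expl T p q t)[t / k]? = none := by
        rw [List.getElem?_eq_none_iff]
        omega
      rw [h3]
end


end J7583
alias expl_stable := J7583.expl_stable
end RA
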