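import Pool.Agent.Helper338.RA.Defs2
import Pool.Agent.Helper338.RA.J7583
set_option autoImplicit false
namespace RA
variable {V : Type} {k : ℕ}
namespace J7584


section
variable {V : Type} [Fintype V] [DecidableEq V] {k : ℕ} [NeZero k]
theorem mem_addOne_of (L : List (V × V)) (z z' : V) (x : V × V) (h : x ∈ L) :
    x ∈ addOne L z z' := by
  unfold addOne
  split
  · exact h
  · exact List.mem_append_left _ h

theorem mem_addOne_cases (L : List (V × V)) (z z' : V) (x : V × V) (h : x ∈ addOne L z z') :
    x ∈ L ∨ x = (z, z') := by
  unfold addOne at h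
  split at h
  · exact Or.inl h
  · rcases List.mem_append.1 h with h | h
    · exact Or.inl h
    · exact Or.inr (List.mem_singleton.1 h)

theorem fst_mem_addOne (L : List (V × V)) (z z' : V) :
    z ∈ (addOne L z z').map Prod.fst := by
  unfold addOne
  split
  · assumption
  · simp

theorem mem_addPair_of (L : List (V × V)) (z z' : V) (x : V × V) (h : x ∈ L) :
    x ∈ addPair L z z' := by
  unfold addPair
  split
  · exact h
  · exact mem_addOne_of _ _ _ _ (mem_addOne_of _ _ _ _ h)

theorem addPair_inv (L : List (V × V)) (z z' : V)
    (h : ∀ x ∈ L, x.2 ∈ L.map Prod.fst) :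
    ∀ x ∈ addPair L z z', x.2 ∈ (addPair L z z').map Prod.fst := by
  intro x hx
  have hL : ∀ y, y ∈ L.map Prod.fst → y ∈ (addPair L z z').map Prod.fst := by
    intro y hy
    obtain ⟨w, hw, hwy⟩ := List.mem_map.1 hy
    exact List.mem_map.2 ⟨w, mem_addPair_of _ _ _ _ hw, hwy⟩
  by_cases hz : z = z'
  · have he : addPair L z z' = L := by unfold addPair; rw [if_pos hz]
    rw [he] at hx ⊢
    exact h x hx
  · have he : addPair L z z' = addOne (addOne L z z') z' z := by unfold addPair; rw [if_neg hz]
    have h1 : z' ∈ (addPair L z z').map Prod.fst := by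
      rw [he]; exact fst_mem_addOne _ _ _
    have h2 : z ∈ (addPair L z z').map Prod.fst := by
      rw [he]
      obtain ⟨w, hw, hwy⟩ := List.mem_map.1 (fst_mem_addOne L z z')
      exact List.mem_map.2 ⟨w, mem_addOne_of _ _ _ _ hw, hwy⟩
    rw [he] at hx
    rcases mem_addOne_cases _ _ _ _ hx with hx | hx
    · rcases mem_addOne_cases _ _ _ _ hx with hx | hx
      · exact hL _ (h x hx)
      · rw [hx]; exact h1
    · rw [hx]; exact h2

theorem expl_inv (T : V → Fin k → V) (p q : V) (t : ℕ) :
    ∀ x ∈ expl T p q t, x.2 ∈ (expl T p q t).map Prod.fst := by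
  induction t with
  | zero =>
    intro x hx
    simp only [expl, List.mem_cons, List.not_mem_nil, or_false] at hx
    rcases hx with rfl | rfl <;> simp [expl]
  | succ t ih =>
    simp only [expl]
    cases hc : (expl T p q t)[t / k]? with
    | none => exact ih
    | some e => exact addPair_inv _ _ _ ih

theorem expl_mono (T : V → Fin k → V) (p q : V) {s t : ℕ} (hst : s ≤ t) :
    ∀ x ∈ expl T p q s, x ∈ expl T p q t := by
  induction t, hst using Nat.le_induction with
  | base => exact fun x hx => hx
  | succ t _ ih =>
    intro x hx
    simp only [expl]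
    cases hc : (expl T p q t)[t / k]? with
    | none => exact ih x hx
    | some e => exact mem_addPair_of _ _ _ _ (ih x hx)

-- TARGET
theorem visited_local (p q : V) : Local (fun T : V → Fin k → V => visited T p q) := by
  intro T T' hT
  have hkey : ∀ t, t ≤ k * Fintype.card V → expl T' p q t = expl T p q t := by
    intro t
    induction t with
    | zero => intro _; rfl
    | succ t ih =>
      intro ht
      have ih' := ih (by omega)
      have hsub : ∀ x ∈ expl T p q t, x.1 ∈ visited T p q := by
        intro x hx
        have h1 := expl_mono T p q (show t ≤ k * Fintype.card V by omega) x hx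
        simp only [visited, List.mem_toFinset, List.mem_map]
        exact ⟨x, h1, rfl⟩
      simp only [expl]
      rw [ih']
      cases hc : (expl T p q t)[t / k]? with
      | none => rfl
      | some e =>
        obtain ⟨u, v⟩ := e
        have hmem : (u, v) ∈ expl T p q t := List.mem_of_getElem? hc
        have hu : u ∈ visited T p q := hsub _ hmem
        have hv : v ∈ visited T p q := by
          have h2 := expl_inv T p q t _ hmem
          obtain ⟨y, hy, hyv⟩ := List.mem_map.1 h2
          have h3 := hsub y hy
          rw [hyv] at h3
          exact h3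
        simp only
        rw [hT u hu, hT v hv]
  show visited T' p q = visited T p q
  unfold visited
  rw [hkey _ le_rfl]
end


end J7584
alias visited_local := J7584.visited_local
end RA
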