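import Pool.Agent.Helper338.RA.Defs2
import Pool.Agent.Helper338.RA.J7583
set_option autoImplicit false
namespace RA
variable {V : Type} {k : ℕ}
namespace J7607


section
variable {V : Type} [DecidableEq V] {k : ℕ}

theorem aux_addOne_prefix (L : List (V × V)) (z z' : V) : L <+: addOne L z z' := by
  unfold addOne
  split_ifs
  · exact List.prefix_rfl
  · exact List.prefix_append _ _

theorem aux_addOne_mem_fst (L : List (V × V)) (z z' : V) :
    z ∈ (addOne L z z').map Prod.fst := by
  unfold addOne
  split_ifs with h
  · exact h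
  · simp

theorem aux_addOne_mem (L : List (V × V)) (z z' : V) (e : V × V) (he : e ∈ addOne L z z') :
    e ∈ L ∨ e = (z, z') := by
  unfold addOne at he
  split_ifs at he with h
  · exact Or.inl he
  · simpa using he

theorem aux_addOne_nodup (L : List (V × V)) (z z' : V) (h : (L.map Prod.fst).Nodup) :
    ((addOne L z z').map Prod.fst).Nodup := by
  unfold addOne
  split_ifs with h'
  · exact h
  · rw [List.map_append, List.nodup_append]
    refine ⟨h, by simp, ?_⟩
    intro a ha b hb hab
    simp only [List.map_cons, List.map_nil, List.mem_singleton] at hb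
    subst hb
    subst hab
    exact h' ha

theorem aux_prefix_fst {L M : List (V × V)} (h : L <+: M) {z : V} (hz : z ∈ L.map Prod.fst) :
    z ∈ M.map Prod.fst :=
  (h.map Prod.fst).subset hz

theorem aux_addPair_prefix (L : List (V × V)) (z z' : V) : L <+: addPair L z z' := by
  unfold addPair
  split_ifs
  · exact List.prefix_rfl
  · exact (aux_addOne_prefix L z z').trans (aux_addOne_prefix _ z' z)

theorem aux_addPair_mem_fst (L : List (V × V)) (z z' : V) :
    z = z' ∨ (z ∈ (addPair L z z').map Prod.fst ∧ z' ∈ (addPair L z z').map Prod.fst) := by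
  unfold addPair
  split_ifs with h
  · exact Or.inl h
  · exact Or.inr ⟨aux_prefix_fst (aux_addOne_prefix _ z' z) (aux_addOne_mem_fst L z z'),
      aux_addOne_mem_fst _ z' z⟩

theorem aux_addPair_mem (L : List (V × V)) (z z' : V) (e : V × V) (he : e ∈ addPair L z z') :
    e ∈ L ∨ (z ≠ z' ∧ (e = (z, z') ∨ e = (z', z))) := by
  unfold addPair at he
  split_ifs at he with h
  · exact Or.inl he
  · rcases aux_addOne_mem _ _ _ _ he with h1 | h1
    · rcases aux_addOne_mem _ _ _ _ h1 with h2 | h2
      · exact Or.inl h2
      · exact Or.inr ⟨h, Or.inl h2⟩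
    · exact Or.inr ⟨h, Or.inr h1⟩

theorem aux_addPair_nodup (L : List (V × V)) (z z' : V) (h : (L.map Prod.fst).Nodup) :
    ((addPair L z z').map Prod.fst).Nodup := by
  unfold addPair
  split_ifs with h'
  · exact h
  · exact aux_addOne_nodup _ _ _ (aux_addOne_nodup _ _ _ h)

variable [NeZero k]

theorem aux_expl_none (T : V → Fin k → V) (p q : V) (t : ℕ) (h : (expl T p q t)[t / k]? = none) :
    expl T p q (t+1) = expl T p q t := by
  rw [expl]
  rw [h]

theorem aux_expl_some (T : V → Fin k → V) (p q : V) (t : ℕ) (u v : V)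
    (h : (expl T p q t)[t / k]? = some (u, v)) :
    expl T p q (t+1) =
      addPair (expl T p q t) (T u (Fin.ofNat k t)) (T v (Fin.ofNat k t)) := by
  rw [expl]
  rw [h]

theorem aux_expl_step (T : V → Fin k → V) (p q : V) (t : ℕ) :
    expl T p q t <+: expl T p q (t+1) := by
  rcases h : (expl T p q t)[t / k]? with _ | ⟨u, v⟩
  · rw [aux_expl_none T p q t h]
  · rw [aux_expl_some T p q t u v h]
    exact aux_addPair_prefix _ _ _

theorem aux_expl_mono (T : V → Fin k → V) (p q : V) {s t : ℕ} (hst : s ≤ t) :
    expl T p q s <+: expl T p q t := by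
  induction hst with
  | refl => exact List.prefix_rfl
  | step _ ih => exact ih.trans (aux_expl_step T p q _)

theorem aux_expl_inv (T : V → Fin k → V) (p q : V) (t : ℕ) :
    (∀ e ∈ expl T p q t, e.2 ∈ (expl T p q t).map Prod.fst) ∧
    (p ≠ q → ∀ e ∈ expl T p q t, e.2 ≠ e.1) ∧
    (p ≠ q → ((expl T p q t).map Prod.fst).Nodup) ∧
    (∀ z ∈ (expl T p q t).map Prod.fst, z = p ∨ z = q ∨
      ∃ u ∈ (expl T p q t).map Prod.fst, ∃ a, T u a = z) := by
  induction t with
  | zero =>
    refine ⟨?_, ?_, ?_, ?_⟩
    · intro e he
      simp only [expl, List.mem_cons, List.not_mem_nil, or_false] at he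
      rcases he with rfl | rfl <;> simp [expl]
    · intro hpq e he
      simp only [expl, List.mem_cons, List.not_mem_nil, or_false] at he
      rcases he with rfl | rfl
      · exact fun h => hpq h.symm
      · exact hpq
    · intro hpq
      simp [expl, hpq]
    · intro z hz
      simp only [expl, List.map_cons, List.map_nil, List.mem_cons, List.not_mem_nil, or_false] at hz
      rcases hz with rfl | rfl
      · exact Or.inl rfl
      · exact Or.inr (Or.inl rfl)
  | succ t ih =>
    obtain ⟨i1, i2, i3, i4⟩ := ih
    rcases h : (expl T p q t)[t / k]? with _ | ⟨u, v⟩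
    · rw [aux_expl_none T p q t h]
      exact ⟨i1, i2, i3, i4⟩
    · rw [aux_expl_some T p q t u v h]
      have huv : (u, v) ∈ expl T p q t := List.mem_of_getElem? h
      have hu : u ∈ (expl T p q t).map Prod.fst := List.mem_map.mpr ⟨(u, v), huv, rfl⟩
      have hv : v ∈ (expl T p q t).map Prod.fst := i1 (u, v) huv
      set a : Fin k := Fin.ofNat k t with ha
      have hpre := aux_addPair_prefix (expl T p q t) (T u a) (T v a)
      refine ⟨?_, ?_, ?_, ?_⟩
      · intro e he
        rcases aux_addPair_mem _ _ _ _ he with h1 | ⟨hne, h1⟩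
        · exact aux_prefix_fst hpre (i1 e h1)
        · rcases aux_addPair_mem_fst (expl T p q t) (T u a) (T v a) with h2 | ⟨h2, h3⟩
          · exact absurd h2 hne
          · rcases h1 with rfl | rfl
            · exact h3
            · exact h2
      · intro hpq e he
        rcases aux_addPair_mem _ _ _ _ he with h1 | ⟨hne, h1⟩
        · exact i2 hpq e h1
        · rcases h1 with rfl | rfl
          · exact fun hh => hne hh.symm
          · exact hne
      · intro hpq
        exact aux_addPair_nodup _ _ _ (i3 hpq)
      · intro z hz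
        obtain ⟨e, he, rfl⟩ := List.mem_map.mp hz
        rcases aux_addPair_mem _ _ _ _ he with h1 | ⟨hne, h1⟩
        · rcases i4 e.1 (List.mem_map.mpr ⟨e, h1, rfl⟩) with h2 | h2 | ⟨w, hw, b, hb⟩
          · exact Or.inl h2
          · exact Or.inr (Or.inl h2)
          · exact Or.inr (Or.inr ⟨w, aux_prefix_fst hpre hw, b, hb⟩)
        · rcases h1 with rfl | rfl
          · exact Or.inr (Or.inr ⟨u, aux_prefix_fst hpre hu, a, rfl⟩)
          · exact Or.inr (Or.inr ⟨v, aux_prefix_fst hpre hv, a, rfl⟩)

theorem aux_ofNat (i : ℕ) (a : Fin k) : Fin.ofNat k (k * i + a.1) = a := by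
  apply Fin.ext
  rw [Fin.val_ofNat, Nat.mul_add_mod, Nat.mod_eq_of_lt a.2]

theorem aux_div (i : ℕ) (a : Fin k) : (k * i + a.1) / k = i := by
  have hk : 0 < k := Nat.pos_of_ne_zero (NeZero.ne k)
  rw [Nat.mul_add_div hk, Nat.div_eq_of_lt a.2, Nat.add_zero]

/-- once the lookup fails the list never grows again -/
theorem aux_stuck (T : V → Fin k → V) (p q : V) (t : ℕ)
    (h : (expl T p q t)[t / k]? = none) (s : ℕ) (hs : t ≤ s) :
    expl T p q s = expl T p q t := by
  induction hs with
  | refl => rfl
  | step hle ih =>
    rename_i m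
    have h1 : (expl T p q m)[m / k]? = none := by
      rw [ih]
      rw [List.getElem?_eq_none_iff] at h ⊢
      exact h.trans (Nat.div_le_div_right hle)
    exact (aux_expl_none T p q m h1).trans ih

/-- a processed entry -/
theorem aux_processed (T : V → Fin k → V) (p q : V) (N i : ℕ) (u v : V) (a : Fin k)
    (hN : k * i + a.1 < N)
    (h : (expl T p q N)[i]? = some (u, v)) :
    T u a = T v a ∨ (T u a ∈ (expl T p q N).map Prod.fst ∧
      T v a ∈ (expl T p q N).map Prod.fst) := by
  have hdiv := aux_div i a
  have hof := aux_ofNat i a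
  have hget : (expl T p q (k * i + a.1))[(k * i + a.1) / k]? = some (u, v) := by
    rcases hh : (expl T p q (k * i + a.1))[(k * i + a.1) / k]? with _ | e
    · have := aux_stuck T p q _ hh N hN.le
      rw [this] at h
      rw [hdiv] at hh
      rw [hh] at h
      exact h
    · have hpre := aux_expl_mono T p q hN.le
      rw [hdiv] at hh
      obtain ⟨M, hM⟩ := hpre
      rw [← hM] at h
      have hlt : i < (expl T p q (k * i + a.1)).length := by
        by_contra hc
        rw [List.getElem?_eq_none_iff.mpr (not_lt.mp hc)] at hh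
        cases hh
      rw [List.getElem?_append_left hlt] at h
      rw [← hh]
      exact h
  have hstep := aux_expl_some T p q _ u v hget
  rw [hof] at hstep
  have hpre := aux_expl_mono T p q (Nat.succ_le_of_lt hN)
  rw [Nat.succ_eq_add_one, hstep] at hpre
  rcases aux_addPair_mem_fst (expl T p q (k * i + a.1)) (T u a) (T v a) with h1 | ⟨h1, h2⟩
  · exact Or.inl h1
  · exact Or.inr ⟨aux_prefix_fst hpre h1, aux_prefix_fst hpre h2⟩

end

section
variable {V : Type} [Fintype V] [DecidableEq V] {k : ℕ} [NeZero k]
-- TARGET
theorem visited_mem (T : V → Fin k → V) (p q : V) : p ∈ visited T p q ∧ q ∈ visited T p q := by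
  have hpre := aux_expl_mono T p q (Nat.zero_le (k * Fintype.card V))
  unfold visited
  rw [List.mem_toFinset, List.mem_toFinset]
  constructor
  · exact aux_prefix_fst hpre (by simp [expl])
  · exact aux_prefix_fst hpre (by simp [expl])
end

section
variable {V : Type} [Fintype V] [DecidableEq V] {k : ℕ} [NeZero k]
-- TARGET
theorem visited_pair (T : V → Fin k → V) (p q : V) (hpq : p ≠ q) (a : Fin k) :
    T p a = T q a ∨ (T p a ∈ visited T p q ∧ T q a ∈ visited T p q) := by
  unfold visited
  rw [List.mem_toFinset, List.mem_toFinset]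
  have hcard : 0 < Fintype.card V := Fintype.card_pos_iff.mpr ⟨p⟩
  have hN : k * 0 + a.1 < k * Fintype.card V := by
    have h1 : k ≤ k * Fintype.card V := Nat.le_mul_of_pos_right k hcard
    have := a.2
    omega
  refine aux_processed T p q (k * Fintype.card V) 0 p q a hN ?_
  obtain ⟨M, hM⟩ := aux_expl_mono T p q (Nat.zero_le (k * Fintype.card V))
  rw [← hM]
  simp [expl]
end

section
variable {V : Type} [Fintype V] [DecidableEq V] {k : ℕ} [NeZero k]
-- TARGET
theorem visited_closed (T : V → Fin k → V) (p q : V) (hpq : p ≠ q) :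
    Closed T (visited T p q) := by
  intro u hu
  unfold visited at hu
  rw [List.mem_toFinset] at hu
  obtain ⟨⟨u', v⟩, he, rfl⟩ := List.mem_map.mp hu
  obtain ⟨i1, i2, i3, i4⟩ := aux_expl_inv T p q (k * Fintype.card V)
  refine ⟨v, ?_, i2 hpq _ he, ?_⟩
  · unfold visited
    rw [List.mem_toFinset]
    exact i1 _ he
  · intro a
    unfold visited
    rw [List.mem_toFinset, List.mem_toFinset]
    obtain ⟨i, hi, hget⟩ := List.mem_iff_getElem.mp he
    have hlen : (expl T p q (k * Fintype.card V)).length ≤ Fintype.card V := by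
      have := (i3 hpq).length_le_card
      rwa [List.length_map] at this
    have hN : k * i + a.1 < k * Fintype.card V := by
      have h1 : i + 1 ≤ Fintype.card V := by omega
      have h2 : k * (i + 1) ≤ k * Fintype.card V := Nat.mul_le_mul_left k h1
      have h3 := a.2
      have h4 : k * (i + 1) = k * i + k := by ring
      omega
    refine aux_processed T p q (k * Fintype.card V) i u' v a hN ?_
    rw [List.getElem?_eq_getElem hi, hget]
end

section
variable {V : Type} [Fintype V] [DecidableEq V] {k : ℕ} [NeZero k]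
-- TARGET
theorem visited_hits (T : V → Fin k → V) (p q : V) : Hits T (visited T p q) p q := by
  intro z hz
  unfold visited at hz ⊢
  rw [List.mem_toFinset] at hz
  obtain ⟨i1, i2, i3, i4⟩ := aux_expl_inv T p q (k * Fintype.card V)
  rcases i4 z hz with h | h | ⟨u, hu, a, ha⟩
  · exact Or.inl h
  · exact Or.inr (Or.inl h)
  · exact Or.inr (Or.inr ⟨u, List.mem_toFinset.mpr hu, a, ha⟩)
end


end J7607
alias visited_mem := J7607.visited_mem
alias visited_pair := J7607.visited_pair
alias visited_closed := J7607.visited_closed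
alias visited_hits := J7607.visited_hits
end RA
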