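import Pool.Agent.Helper338.RA.Defs2
import Pool.Agent.Helper338.RA.J7584
import Pool.Agent.Helper338.RA.J7607
set_option autoImplicit false
namespace RA
variable {V : Type} {k : ℕ}
namespace J7609




section
variable {V : Type} [Fintype V] [DecidableEq V] {k : ℕ} [NeZero k]
-- auxiliary facts about the exploration

theorem x_addOne_prefix (L : List (V × V)) (z z' : V) : L <+: addOne L z z' := by
  unfold addOne
  split_ifs
  · exact List.prefix_rfl
  · exact List.prefix_append _ _

theorem x_addPair_prefix (L : List (V × V)) (z z' : V) : L <+: addPair L z z' := by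
  unfold addPair
  split_ifs
  · exact List.prefix_rfl
  · exact (x_addOne_prefix L z z').trans (x_addOne_prefix _ z' z)

theorem x_expl_succ_some (T : V → Fin k → V) (p q : V) (t : ℕ) (u v : V)
    (h : (expl T p q t)[t / k]? = some (u, v)) :
    expl T p q (t + 1) = addPair (expl T p q t) (T u (Fin.ofNat k t)) (T v (Fin.ofNat k t)) := by
  rw [expl, h]

theorem x_expl_succ_none (T : V → Fin k → V) (p q : V) (t : ℕ)
    (h : (expl T p q t)[t / k]? = none) : expl T p q (t + 1) = expl T p q t := by
  rw [expl, h]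

theorem x_expl_prefix_succ (T : V → Fin k → V) (p q : V) (t : ℕ) :
    expl T p q t <+: expl T p q (t + 1) := by
  rcases h : (expl T p q t)[t / k]? with _ | ⟨u, v⟩
  · rw [x_expl_succ_none T p q t h]
  · rw [x_expl_succ_some T p q t u v h]
    exact x_addPair_prefix _ _ _

theorem x_expl_prefix (T : V → Fin k → V) (p q : V) {s t : ℕ} (h : s ≤ t) :
    expl T p q s <+: expl T p q t := by
  induction t, h using Nat.le_induction with
  | base => exact List.prefix_rfl
  | succ t _ ih => exact ih.trans (x_expl_prefix_succ T p q t)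

theorem x_prefix_get {α : Type} {l₁ l₂ : List α} (h : l₁ <+: l₂) {i : ℕ} {e : α}
    (he : l₁[i]? = some e) : l₂[i]? = some e := by
  obtain ⟨r, rfl⟩ := h
  obtain ⟨hi, _⟩ := List.getElem?_eq_some_iff.1 he
  rw [List.getElem?_append_left hi, he]

theorem x_stall (T : V → Fin k → V) (p q : V) (t : ℕ) (h : (expl T p q t)[t / k]? = none)
    (s : ℕ) (hs : t ≤ s) : expl T p q s = expl T p q t := by
  induction s, hs using Nat.le_induction with
  | base => rfl
  | succ s hs ih =>
    have h1 : (expl T p q s)[s / k]? = none := by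
      rw [ih]
      rw [List.getElem?_eq_none_iff] at h ⊢
      exact h.trans (Nat.div_le_div_right hs)
    rw [x_expl_succ_none T p q s h1, ih]

theorem x_entry_at (T : V → Fin k → V) (p q : V) (t s : ℕ) (hts : t ≤ s) (e : V × V)
    (h : (expl T p q s)[t / k]? = some e) : (expl T p q t)[t / k]? = some e := by
  rcases h' : (expl T p q t)[t / k]? with _ | e'
  · rw [x_stall T p q t h' s hts, h'] at h
    exact absurd h (by simp)
  · rw [x_prefix_get (x_expl_prefix T p q hts) h'] at h
    exact h

theorem x_addOne_nodup (L : List (V × V)) (z z' : V) (h : (L.map Prod.fst).Nodup) :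
    ((addOne L z z').map Prod.fst).Nodup := by
  unfold addOne
  split_ifs with hz
  · exact h
  · rw [List.map_append, List.nodup_append]
    refine ⟨h, by simp, ?_⟩
    intro a ha b hb
    simp only [List.map_cons, List.map_nil, List.mem_singleton] at hb
    rw [hb]
    rintro rfl
    exact hz ha

theorem x_addPair_nodup (L : List (V × V)) (z z' : V) (h : (L.map Prod.fst).Nodup) :
    ((addPair L z z').map Prod.fst).Nodup := by
  unfold addPair
  split_ifs
  · exact h
  · exact x_addOne_nodup _ _ _ (x_addOne_nodup _ _ _ h)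

theorem x_expl_nodup (T : V → Fin k → V) (p q : V) (hpq : p ≠ q) (t : ℕ) :
    ((expl T p q t).map Prod.fst).Nodup := by
  induction t with
  | zero => simp [expl, hpq]
  | succ t ih =>
    rcases h : (expl T p q t)[t / k]? with _ | ⟨u, v⟩
    · rw [x_expl_succ_none T p q t h]; exact ih
    · rw [x_expl_succ_some T p q t u v h]; exact x_addPair_nodup _ _ _ ih

theorem x_length_le (T : V → Fin k → V) (p q : V) (hpq : p ≠ q) (t : ℕ) :
    (expl T p q t).length ≤ Fintype.card V := by
  have h := (x_expl_nodup T p q hpq t).length_le_card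
  rwa [List.length_map] at h

theorem x_addOne_mem (L : List (V × V)) (z z' : V) : z ∈ (addOne L z z').map Prod.fst := by
  unfold addOne
  split_ifs with hz
  · exact hz
  · simp

theorem x_fst_mono {L L' : List (V × V)} (h : L <+: L') {z : V} (hz : z ∈ L.map Prod.fst) :
    z ∈ L'.map Prod.fst := (List.IsPrefix.map Prod.fst h).subset hz

theorem x_addPair_mem (L : List (V × V)) (z z' : V) (h : z ≠ z') :
    z ∈ (addPair L z z').map Prod.fst ∧ z' ∈ (addPair L z z').map Prod.fst := by
  unfold addPair
  rw [if_neg h]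
  exact ⟨x_fst_mono (x_addOne_prefix _ _ _) (x_addOne_mem L z z'), x_addOne_mem _ z' z⟩

/-- entries have distinct components and the second component is visited -/
def x_Good (L : List (V × V)) : Prop :=
  ∀ e ∈ L, e.1 ≠ e.2 ∧ e.2 ∈ L.map Prod.fst

theorem x_mem_addOne {L : List (V × V)} {z z' : V} {e : V × V} (h : e ∈ addOne L z z') :
    e ∈ L ∨ e = (z, z') := by
  unfold addOne at h
  split_ifs at h
  · exact Or.inl h
  · simpa using h

theorem x_good_addPair (L : List (V × V)) (z z' : V) (h : x_Good L) : x_Good (addPair L z z') := by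
  by_cases hz : z = z'
  · unfold addPair; rw [if_pos hz]; exact h
  · intro e he
    have hm := x_addPair_mem L z z' hz
    have he' : e ∈ addOne (addOne L z z') z' z := by
      unfold addPair at he; rwa [if_neg hz] at he
    rcases x_mem_addOne he' with he1 | rfl
    · rcases x_mem_addOne he1 with he2 | rfl
      · exact ⟨(h e he2).1, x_fst_mono (x_addPair_prefix L z z') (h e he2).2⟩
      · exact ⟨hz, hm.2⟩
    · exact ⟨Ne.symm hz, hm.1⟩

theorem x_good_expl (T : V → Fin k → V) (p q : V) (hpq : p ≠ q) (t : ℕ) :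
    x_Good (expl T p q t) := by
  induction t with
  | zero =>
    intro e he
    simp only [expl, List.mem_cons, List.not_mem_nil, or_false] at he
    rcases he with rfl | rfl
    · simp [expl, hpq]
    · simp [expl, hpq.symm]
  | succ t ih =>
    rcases h : (expl T p q t)[t / k]? with _ | ⟨u, v⟩
    · rw [x_expl_succ_none T p q t h]; exact ih
    · rw [x_expl_succ_some T p q t u v h]; exact x_good_addPair _ _ _ ih

theorem x_mem_visited (T : V → Fin k → V) (p q : V) (z : V) :
    z ∈ visited T p q ↔ z ∈ (expl T p q (k * Fintype.card V)).map Prod.fst := by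
  unfold visited
  rw [List.mem_toFinset]

theorem x_closed_entry (T : V → Fin k → V) (p q : V) (t : ℕ) (ht : t < k * Fintype.card V)
    (u v : V) (h : (expl T p q (k * Fintype.card V))[t / k]? = some (u, v)) :
    T u (Fin.ofNat k t) = T v (Fin.ofNat k t) ∨
      (T u (Fin.ofNat k t) ∈ visited T p q ∧ T v (Fin.ofNat k t) ∈ visited T p q) := by
  by_cases he : T u (Fin.ofNat k t) = T v (Fin.ofNat k t)
  · exact Or.inl he
  · right
    have h1 := x_entry_at T p q t _ ht.le _ h
    have h2 := x_expl_succ_some T p q t u v h1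
    have h3 := x_addPair_mem (expl T p q t) _ _ he
    rw [← h2] at h3
    have h4 := x_expl_prefix T p q (show t + 1 ≤ k * Fintype.card V by omega)
    rw [x_mem_visited, x_mem_visited]
    exact ⟨x_fst_mono h4 h3.1, x_fst_mono h4 h3.2⟩

/-- `t` is an occurrence of the value `z` -/
def x_Occ (T : V → Fin k → V) (p q : V) (z : V) (t : ℕ) : Prop :=
  t < k * Fintype.card V ∧ ∃ u v, (expl T p q (k * Fintype.card V))[t / k]? = some (u, v) ∧
    T u (Fin.ofNat k t) = z

theorem x_time (i : ℕ) (a : Fin k) (hi : i < Fintype.card V) :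
    i * k + a < k * Fintype.card V ∧ (i * k + a) / k = i ∧ Fin.ofNat k (i * k + (a : ℕ)) = a := by
  have hk : 0 < k := Nat.pos_of_neZero k
  refine ⟨?_, ?_, ?_⟩
  · calc i * k + a < i * k + k := by have := a.2; omega
      _ = (i + 1) * k := by ring
      _ ≤ Fintype.card V * k := Nat.mul_le_mul_right k hi
      _ = k * Fintype.card V := by ring
  · rw [mul_comm, Nat.mul_add_div hk, Nat.div_eq_of_lt a.2, add_zero]
  · apply Fin.ext
    rw [Fin.val_ofNat, mul_comm, Nat.mul_add_mod, Nat.mod_eq_of_lt a.2]

/-- every visited state is the first component of an entry looked at for every letter -/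
theorem x_visit_time (T : V → Fin k → V) (p q : V) (hpq : p ≠ q) (u : V)
    (hu : u ∈ visited T p q) (a : Fin k) : ∃ t v, t < k * Fintype.card V ∧
      (expl T p q (k * Fintype.card V))[t / k]? = some (u, v) ∧ Fin.ofNat k t = a := by
  rw [x_mem_visited, List.mem_map] at hu
  obtain ⟨⟨u', v⟩, he, rfl⟩ := hu
  obtain ⟨i, hi, hi'⟩ := List.getElem_of_mem he
  have hiN : i < Fintype.card V := hi.trans_le (x_length_le T p q hpq _)
  obtain ⟨h1, h2, h3⟩ := x_time (V := V) i a hiN
  refine ⟨i * k + a, v, h1, ?_, h3⟩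
  rw [h2, List.getElem?_eq_getElem hi, hi']

theorem x_exit_occ (T : V → Fin k → V) (p q : V) (hpq : p ≠ q) (z : V)
    (hz : z ∈ exits T (visited T p q)) : ∃ t, x_Occ T p q z t := by
  unfold exits at hz
  simp only [Finset.mem_filter, Finset.mem_univ, true_and] at hz
  obtain ⟨_, u, hu, a, ha⟩ := hz
  obtain ⟨t, v, ht, he, hta⟩ := x_visit_time T p q hpq u hu a
  exact ⟨t, ht, u, v, he, by rw [hta]; exact ha⟩

/-- the first occurrence -/
noncomputable def x_tau (T : V → Fin k → V) (p q : V) (z : V) : ℕ := sInf {t | x_Occ T p q z t}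

theorem x_tau_occ (T : V → Fin k → V) (p q : V) (hpq : p ≠ q) (z : V)
    (hz : z ∈ exits T (visited T p q)) : x_Occ T p q z (x_tau T p q z) :=
  Nat.sInf_mem (x_exit_occ T p q hpq z hz)

theorem x_tau_le (T : V → Fin k → V) (p q : V) (z : V) (t : ℕ) (h : x_Occ T p q z t) :
    x_tau T p q z ≤ t := Nat.sInf_le h

/-- the second component of the entry looked at at time `t` -/
noncomputable def x_snd (T : V → Fin k → V) (p q : V) (t : ℕ) : V :=
  ((expl T p q (k * Fintype.card V))[t / k]?.getD (p, p)).2

theorem x_snd_eq (T : V → Fin k → V) (p q : V) (t : ℕ) (u v : V)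
    (h : (expl T p q (k * Fintype.card V))[t / k]? = some (u, v)) : x_snd T p q t = v := by
  unfold x_snd
  rw [h]; rfl

noncomputable def x_Y (T : V → Fin k → V) (p q : V) : Finset ℕ :=
  (exits T (visited T p q)).image (x_tau T p q)

noncomputable def x_W (T : V → Fin k → V) (p q : V) : Finset (V × Fin k) :=
  (exits T (visited T p q)).image
    (fun z => (x_snd T p q (x_tau T p q z), Fin.ofNat k (x_tau T p q z)))

theorem x_exit_not_visited {T : V → Fin k → V} {p q : V} {z : V}
    (hz : z ∈ exits T (visited T p q)) : z ∉ visited T p q := by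
  unfold exits at hz
  simp only [Finset.mem_filter, Finset.mem_univ, true_and] at hz
  exact hz.1

/-- at an occurrence of an exit value both components move to it -/
theorem x_occ_both (T : V → Fin k → V) (p q : V) (t : ℕ) (ht : t < k * Fintype.card V)
    (u v z : V) (h : (expl T p q (k * Fintype.card V))[t / k]? = some (u, v))
    (hz : z ∉ visited T p q) (h' : T u (Fin.ofNat k t) = z ∨ T v (Fin.ofNat k t) = z) :
    T u (Fin.ofNat k t) = z ∧ T v (Fin.ofNat k t) = z := by
  rcases x_closed_entry T p q t ht u v h with h1 | h1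
  · rcases h' with h' | h'
    · exact ⟨h', h1 ▸ h'⟩
    · exact ⟨h1.trans h', h'⟩
  · rcases h' with h' | h'
    · exact absurd (h' ▸ h1.1) hz
    · exact absurd (h' ▸ h1.2) hz

/-- elements of `W` -/
theorem x_W_spec (T : V → Fin k → V) (p q : V) (hpq : p ≠ q) (x : V) (a : Fin k)
    (h : (x, a) ∈ x_W T p q) : ∃ z ∈ exits T (visited T p q), ∃ u',
      (expl T p q (k * Fintype.card V))[(x_tau T p q z) / k]? = some (u', x) ∧
      Fin.ofNat k (x_tau T p q z) = a ∧ T u' a = z ∧ T x a = z ∧
      x_tau T p q z < k * Fintype.card V := by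
  unfold x_W at h
  rw [Finset.mem_image] at h
  obtain ⟨z, hz, hxa⟩ := h
  obtain ⟨h1, u, v, h2, h3⟩ := x_tau_occ T p q hpq z hz
  have h4 := x_snd_eq T p q _ u v h2
  rw [h4, Prod.mk.injEq] at hxa
  obtain ⟨rfl, rfl⟩ := hxa
  have h5 := x_occ_both T p q _ h1 u v z h2 (x_exit_not_visited hz) (Or.inl h3)
  exact ⟨z, hz, u, h2, rfl, h5.1, h5.2, h1⟩

theorem x_key (T : V → Fin k → V) (p q : V) (hpq : p ≠ q) (t : ℕ)
    (ht : t < k * Fintype.card V) (u v x : V)
    (h : (expl T p q (k * Fintype.card V))[t / k]? = some (u, v)) (htY : t ∉ x_Y T p q)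
    (hx : x = u ∨ x = v) (hW : (x, Fin.ofNat k t) ∈ x_W T p q) :
    ∃ s < t, ∃ u', (expl T p q (k * Fintype.card V))[s / k]? = some (u', x) ∧
      Fin.ofNat k s = Fin.ofNat k t := by
  obtain ⟨z, hz, u', h1, h2, h3, h4, h5⟩ := x_W_spec T p q hpq x _ hW
  have h6 : T u (Fin.ofNat k t) = z ∧ T v (Fin.ofNat k t) = z := by
    apply x_occ_both T p q t ht u v z h (x_exit_not_visited hz)
    rcases hx with rfl | rfl
    · exact Or.inl h4
    · exact Or.inr h4
  have h7 : x_tau T p q z ≤ t := x_tau_le T p q z t ⟨ht, u, v, h, h6.1⟩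
  have h8 : x_tau T p q z ≠ t := by
    intro h9
    apply htY
    unfold x_Y
    rw [Finset.mem_image]
    exact ⟨z, hz, h9⟩
  exact ⟨x_tau T p q z, lt_of_le_of_ne h7 h8, u', h1, h2⟩

theorem x_keyY (T : V → Fin k → V) (p q : V) (hpq : p ≠ q) (t : ℕ)
    (ht : t < k * Fintype.card V) (u v : V)
    (h : (expl T p q (k * Fintype.card V))[t / k]? = some (u, v)) (htY : t ∈ x_Y T p q) :
    (u, Fin.ofNat k t) ∉ x_W T p q ∧ T v (Fin.ofNat k t) = T u (Fin.ofNat k t) := by
  unfold x_Y at htY
  rw [Finset.mem_image] at htY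
  obtain ⟨z, hz, rfl⟩ := htY
  obtain ⟨_, u1, v1, h2, h3⟩ := x_tau_occ T p q hpq z hz
  rw [h, Option.some_inj, Prod.mk.injEq] at h2
  obtain ⟨rfl, rfl⟩ := h2
  have h5 := x_occ_both T p q _ ht u v z h (x_exit_not_visited hz) (Or.inl h3)
  refine ⟨?_, h5.2.trans h5.1.symm⟩
  intro hW
  obtain ⟨z', hz', u', h6, h7, h8, h9, h10⟩ := x_W_spec T p q hpq u _ hW
  have h11 : z' = z := h9.symm.trans h5.1
  subst h11
  rw [h, Option.some_inj, Prod.mk.injEq] at h6
  have h12 := (x_good_expl T p q hpq (k * Fintype.card V) (u, v)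
    (List.mem_of_getElem? h)).1
  exact h12 h6.2.symm

theorem x_Y_card (T : V → Fin k → V) (p q : V) (hpq : p ≠ q) :
    (x_Y T p q).card = (exits T (visited T p q)).card := by
  unfold x_Y
  apply Finset.card_image_of_injOn
  intro z hz z' hz' hzz
  obtain ⟨_, u, v, h2, h3⟩ := x_tau_occ T p q hpq z hz
  obtain ⟨_, u', v', h2', h3'⟩ := x_tau_occ T p q hpq z' hz'
  have hzz' : x_tau T p q z = x_tau T p q z' := hzz
  rw [← hzz', h2, Option.some_inj, Prod.mk.injEq] at h2'
  rw [← hzz', ← h2'.1, h3] at h3'
  exact h3'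

theorem x_W_card (T : V → Fin k → V) (p q : V) (hpq : p ≠ q) :
    (x_W T p q).card = (exits T (visited T p q)).card := by
  unfold x_W
  apply Finset.card_image_of_injOn
  intro z hz z' hz' hzz
  have key : ∀ z ∈ exits T (visited T p q),
      T (x_snd T p q (x_tau T p q z)) (Fin.ofNat k (x_tau T p q z)) = z := by
    intro z hz
    obtain ⟨h1, u, v, h2, h3⟩ := x_tau_occ T p q hpq z hz
    rw [x_snd_eq T p q _ u v h2]
    exact (x_occ_both T p q _ h1 u v z h2 (x_exit_not_visited hz) (Or.inl h3)).2
  have e1 := key z hz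
  have e2 := key z' hz'
  have hzz' := Prod.mk.injEq .. ▸ hzz
  simp only [Prod.mk.injEq] at hzz
  rw [hzz.1, hzz.2, e2] at e1
  exact e1.symm

theorem x_Y_sub (T : V → Fin k → V) (p q : V) (hpq : p ≠ q) :
    x_Y T p q ⊆ Finset.range (k * Fintype.card V) := by
  intro t ht
  unfold x_Y at ht
  rw [Finset.mem_image] at ht
  obtain ⟨z, hz, rfl⟩ := ht
  exact Finset.mem_range.2 (x_tau_occ T p q hpq z hz).1

/-- the transition function is determined by the markers and the overwritten table -/
theorem x_det (p q : V) (hpq : p ≠ q) (T₁ T₂ : V → Fin k → V) (R : V × Fin k → V)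
    (hY : x_Y T₁ p q = x_Y T₂ p q)
    (h1 : ∀ e ∉ x_W T₁ p q, R e = T₁ e.1 e.2) (h2 : ∀ e ∉ x_W T₂ p q, R e = T₂ e.1 e.2) :
    T₁ = T₂ := by
  have main : ∀ t ≤ k * Fintype.card V, expl T₁ p q t = expl T₂ p q t ∧
      ∀ s < t, ∀ u v, (expl T₁ p q t)[s / k]? = some (u, v) →
        T₁ u (Fin.ofNat k s) = T₂ u (Fin.ofNat k s) ∧
        T₁ v (Fin.ofNat k s) = T₂ v (Fin.ofNat k s) := by
    intro t
    induction t with
    | zero => intro _; exact ⟨rfl, fun s hs => absurd hs (Nat.not_lt_zero s)⟩
    | succ t ih =>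
      intro ht
      have htlt : t < k * Fintype.card V := ht
      obtain ⟨ihL, ihs⟩ := ih htlt.le
      rcases hent : (expl T₁ p q t)[t / k]? with _ | ⟨u, v⟩
      · have hent2 : (expl T₂ p q t)[t / k]? = none := by rw [← ihL]; exact hent
        rw [x_expl_succ_none T₁ p q t hent, x_expl_succ_none T₂ p q t hent2]
        refine ⟨ihL, ?_⟩
        intro s hs u v huv
        rcases Nat.lt_succ_iff_lt_or_eq.1 hs with h | rfl
        · exact ihs s h u v huv
        · rw [hent] at huv; exact absurd huv (by simp)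
      · have hent2 : (expl T₂ p q t)[t / k]? = some (u, v) := by rw [← ihL]; exact hent
        have hD1 := x_prefix_get (x_expl_prefix T₁ p q htlt.le) hent
        have hD2 := x_prefix_get (x_expl_prefix T₂ p q htlt.le) hent2
        have hlook : T₁ u (Fin.ofNat k t) = T₂ u (Fin.ofNat k t) ∧
            T₁ v (Fin.ofNat k t) = T₂ v (Fin.ofNat k t) := by
          by_cases htY : t ∈ x_Y T₁ p q
          · have htY2 : t ∈ x_Y T₂ p q := hY ▸ htY
            obtain ⟨a1, b1⟩ := x_keyY T₁ p q hpq t htlt u v hD1 htY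
            obtain ⟨a2, b2⟩ := x_keyY T₂ p q hpq t htlt u v hD2 htY2
            have e : T₁ u (Fin.ofNat k t) = T₂ u (Fin.ofNat k t) :=
              (h1 _ a1).symm.trans (h2 _ a2)
            exact ⟨e, by rw [b1, b2, e]⟩
          · have htY2 : t ∉ x_Y T₂ p q := hY ▸ htY
            have gen : ∀ x, x = u ∨ x = v →
                T₁ x (Fin.ofNat k t) = T₂ x (Fin.ofNat k t) := by
              intro x hx
              by_cases c1 : (x, Fin.ofNat k t) ∈ x_W T₁ p q
              · obtain ⟨s, hs, u', hs1, hs2⟩ := x_key T₁ p q hpq t htlt u v x hD1 htY hx c1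
                have hs3 := x_entry_at T₁ p q s _ (hs.trans htlt).le _ hs1
                have hs4 := x_prefix_get (x_expl_prefix T₁ p q hs.le) hs3
                have := (ihs s hs u' x hs4).2
                rwa [hs2] at this
              · by_cases c2 : (x, Fin.ofNat k t) ∈ x_W T₂ p q
                · obtain ⟨s, hs, u', hs1, hs2⟩ := x_key T₂ p q hpq t htlt u v x hD2 htY2 hx c2
                  have hs3 := x_entry_at T₂ p q s _ (hs.trans htlt).le _ hs1
                  have hs4 := x_prefix_get (x_expl_prefix T₂ p q hs.le) hs3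
                  rw [← ihL] at hs4
                  have := (ihs s hs u' x hs4).2
                  rwa [hs2] at this
                · exact (h1 _ c1).symm.trans (h2 _ c2)
            exact ⟨gen u (Or.inl rfl), gen v (Or.inr rfl)⟩
        have hpre := x_expl_prefix_succ T₁ p q t
        refine ⟨?_, ?_⟩
        · rw [x_expl_succ_some T₁ p q t u v hent, x_expl_succ_some T₂ p q t u v hent2, ihL,
            hlook.1, hlook.2]
        · intro s hs u' v' huv
          have hlen : s / k < (expl T₁ p q t).length := by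
            obtain ⟨hi, _⟩ := List.getElem?_eq_some_iff.1 hent
            exact (Nat.div_le_div_right (Nat.lt_succ_iff.1 hs)).trans_lt hi
          have hsome : (expl T₁ p q t)[s / k]? = some (u', v') := by
            have h3 := List.getElem?_eq_getElem hlen
            have h4 := x_prefix_get hpre h3
            rw [h4] at huv
            rw [h3, huv]
          rcases Nat.lt_succ_iff_lt_or_eq.1 hs with h | rfl
          · exact ihs s h u' v' hsome
          · rw [hent, Option.some_inj, Prod.mk.injEq] at hsome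
            obtain ⟨rfl, rfl⟩ := hsome
            exact hlook
  obtain ⟨hL, hs⟩ := main _ le_rfl
  funext u a
  by_cases hu : u ∈ visited T₁ p q
  · obtain ⟨t, v, ht, he, hta⟩ := x_visit_time T₁ p q hpq u hu a
    have := (hs t ht u v he).1
    rwa [hta] at this
  · have hu2 : u ∉ visited T₂ p q := by
      rw [x_mem_visited] at hu ⊢
      rwa [← hL]
    have w1 : (u, a) ∉ x_W T₁ p q := by
      intro hW
      obtain ⟨z, hz, u', g1, _⟩ := x_W_spec T₁ p q hpq u a hW
      apply hu
      rw [x_mem_visited]
      exact (x_good_expl T₁ p q hpq _ (u', u) (List.mem_of_getElem? g1)).2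
    have w2 : (u, a) ∉ x_W T₂ p q := by
      intro hW
      obtain ⟨z, hz, u', g1, _⟩ := x_W_spec T₂ p q hpq u a hW
      apply hu2
      rw [x_mem_visited]
      exact (x_good_expl T₂ p q hpq _ (u', u) (List.mem_of_getElem? g1)).2
    exact (h1 _ w1).symm.trans (h2 _ w2)

-- TARGET
theorem exit_count (p q : V) (hpq : p ≠ q) (g : ℕ) :
    Set.ncard {T : V → Fin k → V | (exits T (visited T p q)).card = g} * (Fintype.card V)^g
      ≤ (k * Fintype.card V).choose g * (Fintype.card V)^(k * Fintype.card V) := by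
  classical
  set A : Finset (V → Fin k → V) :=
    Finset.univ.filter (fun T => (exits T (visited T p q)).card = g) with hA
  have hAset : {T : V → Fin k → V | (exits T (visited T p q)).card = g} = (A : Set _) := by
    ext T; simp [hA]
  rw [hAset, Set.ncard_coe_finset]
  let Fib : (V → Fin k → V) → Finset (V × Fin k → V) := fun T =>
    Fintype.piFinset (fun e => if e ∈ x_W T p q then Finset.univ else {T e.1 e.2})
  have hFib : ∀ T ∈ A, (Fib T).card = (Fintype.card V) ^ g := by
    intro T hT
    have hTg : (exits T (visited T p q)).card = g := by simpa [hA] using hT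
    simp only [Fib, Fintype.card_piFinset]
    have : ∀ e : V × Fin k, (if e ∈ x_W T p q then (Finset.univ : Finset V)
        else {T e.1 e.2}).card = if e ∈ x_W T p q then Fintype.card V else 1 := by
      intro e; split_ifs
      · rfl
      · simp
    rw [Finset.prod_congr rfl (fun e _ => this e), Finset.prod_ite, Finset.prod_const,
      Finset.prod_const_one, mul_one]
    congr 1
    rw [← hTg, ← x_W_card T p q hpq]
    congr 1
    ext e; simp
  have hsum : (A.sigma Fib).card = A.card * (Fintype.card V) ^ g := by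
    rw [Finset.card_sigma, Finset.sum_congr rfl hFib, Finset.sum_const, smul_eq_mul]
  rw [← hsum]
  have hcod : ((Finset.powersetCard g (Finset.range (k * Fintype.card V))) ×ˢ
      (Finset.univ : Finset (V × Fin k → V))).card =
      (k * Fintype.card V).choose g * (Fintype.card V)^(k * Fintype.card V) := by
    rw [Finset.card_product, Finset.card_powersetCard, Finset.card_range, Finset.card_univ,
      Fintype.card_fun, Fintype.card_prod, Fintype.card_fin, mul_comm (Fintype.card V) k]
  rw [← hcod]
  apply Finset.card_le_card_of_injOn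
    (fun x : (_ : V → Fin k → V) × (V × Fin k → V) => (x_Y x.1 p q, x.2))
  · rintro ⟨T, R⟩ hx
    have hx' := Finset.mem_coe.1 hx
    rw [Finset.mem_sigma] at hx'
    have hTg : (exits T (visited T p q)).card = g := by simpa [hA] using hx'.1
    simp only [Finset.coe_product, Finset.coe_univ, Set.mem_prod, Finset.mem_coe,
      Finset.mem_powersetCard, Set.mem_univ, and_true]
    exact ⟨x_Y_sub T p q hpq, by rw [x_Y_card T p q hpq, hTg]⟩
  · rintro ⟨T₁, R₁⟩ hx₁ ⟨T₂, R₂⟩ hx₂ heq
    simp only [Prod.mk.injEq] at heq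
    obtain ⟨hY, rfl⟩ := heq
    have hx₁' := (Finset.mem_sigma.1 (Finset.mem_coe.1 hx₁)).2
    have hx₂' := (Finset.mem_sigma.1 (Finset.mem_coe.1 hx₂)).2
    simp only [Fib, Fintype.mem_piFinset] at hx₁' hx₂'
    have e1 : ∀ e ∉ x_W T₁ p q, R₁ e = T₁ e.1 e.2 := by
      intro e he
      have := hx₁' e
      rwa [if_neg he, Finset.mem_singleton] at this
    have e2 : ∀ e ∉ x_W T₂ p q, R₁ e = T₂ e.1 e.2 := by
      intro e he
      have := hx₂' e
      rwa [if_neg he, Finset.mem_singleton] at this
    rw [x_det p q hpq T₁ T₂ R₁ hY e1 e2]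
end


end J7609
alias exit_count := J7609.exit_count
end RA
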