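import Pool.Agent.Helper338.RA.Defs2
import Pool.Agent.Helper338.RA.J7609
set_option autoImplicit false
namespace RA
variable {V : Type} {k : ℕ}
namespace J7610


theorem geo_tail (L N : ℕ) : ∑ g ∈ Finset.Ioc L N, (1 / 2 : ℝ) ^ g ≤ (1 / 2 : ℝ) ^ L := by
  rcases le_total L N with h | h
  · have : ∑ g ∈ Finset.Ioc L N, (1 / 2 : ℝ) ^ g ≤ (1 / 2 : ℝ) ^ L - (1 / 2 : ℝ) ^ N := by
      induction N, h using Nat.le_induction with
      | base => simp
      | succ N hN ih =>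
        rw [Finset.sum_Ioc_succ_top (by omega)]
        have : (1 / 2 : ℝ) ^ (N + 1) = (1 / 2 : ℝ) ^ N / 2 := by rw [pow_succ]; ring
        rw [this]; linarith
    have h2 : (0 : ℝ) ≤ (1 / 2 : ℝ) ^ N := by positivity
    linarith
  · rw [Finset.Ioc_eq_empty (by omega)]
    simp

theorem fact_big (k : ℕ) : ∃ g0 : ℕ, ∀ g ≥ g0, (2 * k) ^ g ≤ g.factorial := by
  have h := FloorSemiring.tendsto_pow_div_factorial_atTop ((2 * k : ℕ) : ℝ)
  have h1 := (h.eventually (gt_mem_nhds (zero_lt_one (α := ℝ))))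
  obtain ⟨g0, hg0⟩ := Filter.eventually_atTop.1 h1
  refine ⟨g0, fun g hg => ?_⟩
  have h2 := hg0 g hg
  have h3 : (0 : ℝ) < (g.factorial : ℝ) := by exact_mod_cast g.factorial_pos
  rw [div_lt_one h3] at h2
  exact_mod_cast h2.le

-- TARGET
theorem exit_tail (k : ℕ) [NeZero k] : ∃ N0 : ℕ, ∀ (V : Type) [Fintype V] [DecidableEq V],
    N0 ≤ Fintype.card V → ∀ p q : V, p ≠ q →
    Set.ncard {T : V → Fin k → V |
        (Nat.log 2 (Fintype.card V))^2 < (exits T (visited T p q)).card} * (Fintype.card V)^8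
      ≤ (Fintype.card V)^(k * Fintype.card V) := by
  obtain ⟨g0, hg0⟩ := fact_big k
  refine ⟨2 ^ (max 10 g0), ?_⟩
  intro V _ _ hN p q hpq
  obtain ⟨N, hNdef⟩ : ∃ N, N = Fintype.card V := ⟨_, rfl⟩
  have hk : 0 < k := Nat.pos_of_ne_zero (NeZero.ne k)
  have ec := exit_count (V := V) (k := k) p q hpq
  rw [← hNdef] at hN ec ⊢
  have hNpos : 0 < N := lt_of_lt_of_le (by positivity) hN
  obtain ⟨l, hl⟩ : ∃ l, l = Nat.log 2 N := ⟨_, rfl⟩
  have hlmax : max 10 g0 ≤ l := by rw [hl]; exact (Nat.le_log_iff_pow_le (by norm_num) (by omega)).2 hN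
  have hl10 : 10 ≤ l := le_trans (le_max_left _ _) hlmax
  have hlg : g0 ≤ l := le_trans (le_max_right _ _) hlmax
  have hNl : N < 2 ^ (l + 1) := by rw [hl]; exact Nat.lt_pow_succ_log_self (by norm_num) N
  rw [← hl]
  have hE : ∀ g, l ^ 2 < g → ((Set.ncard {T : V → Fin k → V | (exits T (visited T p q)).card = g} : ℕ) : ℝ)
      ≤ (N : ℝ) ^ (k * N) * (1 / 2 : ℝ) ^ g := by
    intro g hg
    have hgg : g0 ≤ g := by nlinarith
    have h1 := ec g
    have h2 : (k * N).choose g * g.factorial ≤ (k * N) ^ g := by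
      have := Nat.descFactorial_le_pow (k * N) g
      rw [Nat.descFactorial_eq_factorial_mul_choose] at this
      rw [mul_comm]; exact this
    obtain ⟨E, hEd⟩ : ∃ E, E = Set.ncard {T : V → Fin k → V | (exits T (visited T p q)).card = g} := ⟨_, rfl⟩
    rw [← hEd] at h1 ⊢
    have h3 : (E * g.factorial) * N ^ g ≤ (k ^ g * N ^ (k * N)) * N ^ g := by
      calc (E * g.factorial) * N ^ g = (E * N ^ g) * g.factorial := by ring
        _ ≤ ((k * N).choose g * N ^ (k * N)) * g.factorial := Nat.mul_le_mul_right _ h1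
        _ = ((k * N).choose g * g.factorial) * N ^ (k * N) := by ring
        _ ≤ (k * N) ^ g * N ^ (k * N) := Nat.mul_le_mul_right _ h2
        _ = (k ^ g * N ^ (k * N)) * N ^ g := by rw [mul_pow]; ring
    have h4 : E * g.factorial ≤ k ^ g * N ^ (k * N) := Nat.le_of_mul_le_mul_right h3 (by positivity)
    have h5 : (E * 2 ^ g) * k ^ g ≤ N ^ (k * N) * k ^ g := by
      calc (E * 2 ^ g) * k ^ g = E * (2 * k) ^ g := by rw [mul_pow]; ring
        _ ≤ E * g.factorial := Nat.mul_le_mul_left _ (hg0 g hgg)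
        _ ≤ k ^ g * N ^ (k * N) := h4
        _ = _ := by ring
    have h6 : E * 2 ^ g ≤ N ^ (k * N) := Nat.le_of_mul_le_mul_right h5 (by positivity)
    have h7 : (E : ℝ) * 2 ^ g ≤ (N : ℝ) ^ (k * N) := by exact_mod_cast h6
    rw [one_div, inv_pow, ← div_eq_mul_inv, le_div_iff₀ (by positivity)]
    exact h7
  have hsub : {T : V → Fin k → V | l ^ 2 < (exits T (visited T p q)).card} ⊆
      ⋃ g ∈ Finset.Ioc (l ^ 2) N, {T : V → Fin k → V | (exits T (visited T p q)).card = g} := by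
    intro T hT
    simp only [Set.mem_iUnion, Finset.mem_Ioc, Set.mem_setOf_eq]
    refine ⟨(exits T (visited T p q)).card, ⟨hT, ?_⟩, rfl⟩
    rw [hNdef]
    exact Finset.card_le_univ _
  have h1 : (Set.ncard {T : V → Fin k → V | l ^ 2 < (exits T (visited T p q)).card} : ℝ) ≤
      (N : ℝ) ^ (k * N) * (1 / 2 : ℝ) ^ (l ^ 2) := by
    have h2 := (Set.ncard_le_ncard hsub (Set.toFinite _)).trans
      (Finset.set_ncard_biUnion_le (Finset.Ioc (l ^ 2) N)
        (fun g => {T : V → Fin k → V | (exits T (visited T p q)).card = g}))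
    have h3 : (Set.ncard {T : V → Fin k → V | l ^ 2 < (exits T (visited T p q)).card} : ℝ) ≤
        ∑ g ∈ Finset.Ioc (l ^ 2) N,
          ((Set.ncard {T : V → Fin k → V | (exits T (visited T p q)).card = g} : ℕ) : ℝ) := by
      exact_mod_cast h2
    refine h3.trans ?_
    calc _ ≤ ∑ g ∈ Finset.Ioc (l ^ 2) N, (N : ℝ) ^ (k * N) * (1 / 2 : ℝ) ^ g :=
          Finset.sum_le_sum fun g hg => hE g (Finset.mem_Ioc.1 hg).1
      _ = (N : ℝ) ^ (k * N) * ∑ g ∈ Finset.Ioc (l ^ 2) N, (1 / 2 : ℝ) ^ g := by rw [Finset.mul_sum]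
      _ ≤ _ := by gcongr; exact geo_tail _ _
  have h8 : (N : ℝ) ^ 8 ≤ 2 ^ (l ^ 2) := by
    have h9 : N ^ 8 ≤ 2 ^ (l ^ 2) := by
      calc N ^ 8 ≤ (2 ^ (l + 1)) ^ 8 := Nat.pow_le_pow_left hNl.le 8
        _ = 2 ^ ((l + 1) * 8) := by rw [← pow_mul]
        _ ≤ 2 ^ (l ^ 2) := Nat.pow_le_pow_right (by norm_num) (by nlinarith)
    exact_mod_cast h9
  have h10 : ((Set.ncard {T : V → Fin k → V | l ^ 2 < (exits T (visited T p q)).card} : ℕ) : ℝ) * (N : ℝ) ^ 8 ≤
      (N : ℝ) ^ (k * N) := by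
    calc _ ≤ ((N : ℝ) ^ (k * N) * (1 / 2 : ℝ) ^ (l ^ 2)) * 2 ^ (l ^ 2) := by gcongr
      _ = (N : ℝ) ^ (k * N) * ((1 / 2 : ℝ) * 2) ^ (l ^ 2) := by rw [mul_pow]; ring
      _ = (N : ℝ) ^ (k * N) := by norm_num
  exact_mod_cast h10


end J7610
alias exit_tail := J7610.exit_tail
end RA
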