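import Pool.Agent.Helper338.RA.Defs2
set_option autoImplicit false
namespace RA
variable {V : Type} {k : ℕ}
namespace J7611


/-- the box of transition functions: values in `W` on `X`, in `M` on the other edges of `M`. -/
def smBox [Fintype V] [DecidableEq V] (M : Finset V) (X : Finset (V × Fin k)) (W : Finset V) :
    Finset (V → Fin k → V) :=
  Fintype.piFinset (fun u => Fintype.piFinset (fun a =>
    if (u, a) ∈ X then W else if u ∈ M then M else Finset.univ))

theorem smBox_card [Fintype V] [DecidableEq V] (M : Finset V) (X : Finset (V × Fin k))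
    (W : Finset V) (hX : X ⊆ M ×ˢ Finset.univ) :
    (smBox M X W).card = W.card ^ X.card * M.card ^ (k * M.card - X.card) *
      (Fintype.card V) ^ (k * (Fintype.card V - M.card)) := by
  classical
  unfold smBox
  rw [Fintype.card_piFinset]
  simp_rw [Fintype.card_piFinset]
  rw [← Finset.prod_mul_prod_compl M]
  congr 1
  · rw [← Finset.prod_product' (s := M) (t := (Finset.univ : Finset (Fin k)))
      (f := fun u a => (if (u, a) ∈ X then W else if u ∈ M then M else Finset.univ).card)]
    rw [← Finset.prod_sdiff hX, mul_comm]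
    congr 1
    · rw [Finset.prod_congr rfl (g := fun _ => W.card)]
      · rw [Finset.prod_const]
      · intro x hx
        simp [hx]
    · rw [Finset.prod_congr rfl (g := fun _ => M.card)]
      · rw [Finset.prod_const, Finset.card_sdiff_of_subset hX, Finset.card_product,
          Finset.card_univ, Fintype.card_fin, mul_comm k]
      · intro x hx
        rw [Finset.mem_sdiff, Finset.mem_product] at hx
        simp [hx.1.1, hx.2]
  · rw [Finset.prod_congr rfl (g := fun _ => (Fintype.card V) ^ k)]
    · rw [Finset.prod_const, Finset.card_compl, ← pow_mul]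
    · intro u hu
      rw [Finset.mem_compl] at hu
      have : ∀ a : Fin k, (if (u, a) ∈ X then W else if u ∈ M then M else Finset.univ).card
          = Fintype.card V := by
        intro a
        have h1 : (u, a) ∉ X := fun h => hu (Finset.mem_product.1 (hX h)).1
        simp [h1, hu, Finset.card_univ]
      simp [this]

theorem sm_image_half [Fintype V] [DecidableEq V] (T : V → Fin k → V) (M : Finset V)
    (hC : Closed T M) :
    (((M ×ˢ (Finset.univ : Finset (Fin k))).filter (fun x => T x.1 x.2 ∉ M)).image
      (fun x => T x.1 x.2)).card ≤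
      ((M ×ˢ (Finset.univ : Finset (Fin k))).filter (fun x => T x.1 x.2 ∉ M)).card / 2 := by
  classical
  set X := (M ×ˢ (Finset.univ : Finset (Fin k))).filter (fun x => T x.1 x.2 ∉ M) with hX
  rw [Nat.le_div_iff_mul_le (by norm_num)]
  rw [Finset.card_eq_sum_card_image (fun x : V × Fin k => T x.1 x.2) X]
  have : ∀ z ∈ X.image (fun x => T x.1 x.2),
      2 ≤ (X.filter (fun x => T x.1 x.2 = z)).card := by
    intro z hz
    obtain ⟨x, hx, rfl⟩ := Finset.mem_image.1 hz
    obtain ⟨u, a⟩ := x
    rw [hX, Finset.mem_filter, Finset.mem_product] at hx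
    obtain ⟨⟨hu, -⟩, hn⟩ := hx
    obtain ⟨v, hv, hvu, h⟩ := hC u hu
    have h2 : T u a = T v a := by
      rcases h a with h | h
      · exact h
      · exact absurd h.1 hn
    apply Nat.succ_le_of_lt
    rw [Finset.one_lt_card]
    refine ⟨(u, a), ?_, (v, a), ?_, ?_⟩
    · simp only [Finset.mem_filter, hX, Finset.mem_product, Finset.mem_univ, and_true]
      exact ⟨hu, hn⟩
    · simp only [Finset.mem_filter, hX, Finset.mem_product, Finset.mem_univ, and_true]
      refine ⟨⟨hv, ?_⟩, h2.symm⟩
      rw [← h2]; exact hn
    · intro h3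
      exact hvu (Prod.ext_iff.1 h3).1.symm
  calc (X.image (fun x => T x.1 x.2)).card * 2
      = ∑ z ∈ X.image (fun x => T x.1 x.2), 2 := by rw [Finset.sum_const, smul_eq_mul]
    _ ≤ _ := Finset.sum_le_sum this

theorem sm_exit_le [Fintype V] [DecidableEq V] (T : V → Fin k → V) (M : Finset V) (p q : V)
    (hp : p ∈ M) (hq : q ∈ M) (hpq : p ≠ q) (hH : Hits T M p q) :
    ((M ×ˢ (Finset.univ : Finset (Fin k))).filter (fun x => T x.1 x.2 ∉ M)).card
      ≤ k * M.card - (M.card - 2) := by
  classical
  have h1 := Finset.card_filter_add_card_filter_not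
    (s := (M ×ˢ (Finset.univ : Finset (Fin k)))) (fun x => T x.1 x.2 ∉ M)
  rw [Finset.card_product, Finset.card_univ, Fintype.card_fin] at h1
  have h2 : M.card - 2 ≤ ((M ×ˢ (Finset.univ : Finset (Fin k))).filter
      (fun x => ¬ (T x.1 x.2 ∉ M))).card := by
    have h3 : (M.erase p).erase q ⊆ (((M ×ˢ (Finset.univ : Finset (Fin k))).filter
      (fun x => ¬ (T x.1 x.2 ∉ M))).image (fun x => T x.1 x.2)) := by
      intro z hz
      rw [Finset.mem_erase, Finset.mem_erase] at hz
      obtain ⟨hzq, hzp, hzM⟩ := hz
      rcases hH z hzM with h | h | ⟨u, hu, a, ha⟩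
      · exact absurd h hzp
      · exact absurd h hzq
      · rw [Finset.mem_image]
        refine ⟨(u, a), ?_, ha⟩
        simp only [Finset.mem_filter, Finset.mem_product, Finset.mem_univ, and_true, not_not]
        exact ⟨hu, by rw [ha]; exact hzM⟩
    have h4 := (Finset.card_le_card h3).trans Finset.card_image_le
    have h5 : ((M.erase p).erase q).card = M.card - 2 := by
      rw [Finset.card_erase_of_mem (Finset.mem_erase.2 ⟨hpq.symm, hq⟩),
        Finset.card_erase_of_mem hp]
      omega
    rw [h5] at h4
    exact h4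
  have h6 : M.card * k = k * M.card := mul_comm _ _
  omega

theorem sm_Ms_card [Fintype V] [DecidableEq V] (s : ℕ) (p q : V) (hpq : p ≠ q) :
    ((Finset.powersetCard s (Finset.univ : Finset V)).filter
      (fun M => p ∈ M ∧ q ∈ M)).card ≤ (Fintype.card V - 2).choose (s-2) := by
  classical
  have h1 : (Finset.powersetCard (s-2) (((Finset.univ : Finset V).erase p).erase q)).card
      = (Fintype.card V - 2).choose (s-2) := by
    rw [Finset.card_powersetCard, Finset.card_erase_of_mem
      (Finset.mem_erase.2 ⟨hpq.symm, Finset.mem_univ _⟩),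
      Finset.card_erase_of_mem (Finset.mem_univ _), Finset.card_univ, Nat.sub_sub]
  rw [← h1]
  apply Finset.card_le_card_of_injOn (fun M => (M.erase p).erase q)
  · intro M hM
    simp only [Finset.coe_filter, Set.mem_ofPred_eq, Finset.mem_powersetCard] at hM
    obtain ⟨⟨-, hc⟩, hp, hq⟩ := hM
    simp only [Finset.mem_coe, Finset.mem_powersetCard]
    refine ⟨?_, ?_⟩
    · exact Finset.erase_subset_erase _ (Finset.erase_subset_erase _ (Finset.subset_univ _))
    · rw [Finset.card_erase_of_mem (Finset.mem_erase.2 ⟨hpq.symm, hq⟩),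
        Finset.card_erase_of_mem hp, hc]
      omega
  · intro M hM M' hM' h
    simp only [Finset.coe_filter, Set.mem_ofPred_eq, Finset.mem_powersetCard] at hM hM'
    have e1 : insert p (insert q ((M.erase p).erase q)) = M := by
      rw [Finset.insert_erase (Finset.mem_erase.2 ⟨hpq.symm, hM.2.2⟩),
        Finset.insert_erase hM.2.1]
    have e2 : insert p (insert q ((M'.erase p).erase q)) = M' := by
      rw [Finset.insert_erase (Finset.mem_erase.2 ⟨hpq.symm, hM'.2.2⟩),
        Finset.insert_erase hM'.2.1]
    have h' : (M.erase p).erase q = (M'.erase p).erase q := h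
    rw [← e1, ← e2, h']

-- TARGET
theorem smallmed_count (V : Type) [Fintype V] [DecidableEq V] (k s : ℕ) (p q : V) (hpq : p ≠ q)
    (hs : 2 ≤ s) (hsN : k * s ≤ Fintype.card V) :
    Set.ncard {T : V → Fin k → V | ∃ M : Finset V, p ∈ M ∧ q ∈ M ∧ M.card = s ∧
        Closed T M ∧ Hits T M p q}
      ≤ (Fintype.card V - 2).choose (s-2) * (∑ e ∈ Finset.range (k*s-(s-2)+1),
          (k*s).choose e * s^(k*s-e) * ((Fintype.card V).choose (e/2) * (e/2)^e))
        * (Fintype.card V)^(k*(Fintype.card V - s)) := by
  classical
  let cov : Finset (V → Fin k → V) :=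
    ((Finset.powersetCard s (Finset.univ : Finset V)).filter (fun M => p ∈ M ∧ q ∈ M)).biUnion
      fun M => (Finset.range (k*s-(s-2)+1)).biUnion fun e =>
        (Finset.powersetCard e (M ×ˢ (Finset.univ : Finset (Fin k)))).biUnion fun X =>
          (Finset.powersetCard (e/2) (Finset.univ : Finset V)).biUnion fun W => smBox M X W
  have hsub : {T : V → Fin k → V | ∃ M : Finset V, p ∈ M ∧ q ∈ M ∧ M.card = s ∧
        Closed T M ∧ Hits T M p q} ⊆ (cov : Set (V → Fin k → V)) := by
    rintro T ⟨M, hp, hq, hc, hC, hH⟩
    have hhalf := sm_image_half T M hC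
    have hex := sm_exit_le T M p q hp hq hpq hH
    set X := (M ×ˢ (Finset.univ : Finset (Fin k))).filter (fun x => T x.1 x.2 ∉ M) with hX
    have hXs : X ⊆ M ×ˢ (Finset.univ : Finset (Fin k)) := Finset.filter_subset _ _
    have hXc : X.card / 2 ≤ (Finset.univ : Finset V).card := by
      rw [Finset.card_univ]
      have h1 := Finset.card_le_card hXs
      rw [Finset.card_product, Finset.card_univ, Fintype.card_fin, hc, mul_comm] at h1
      omega
    obtain ⟨W, hW1, -, hW2⟩ := Finset.exists_subsuperset_card_eq
      (Finset.subset_univ (X.image (fun x => T x.1 x.2))) hhalf hXc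
    simp only [cov, Finset.mem_coe, Finset.mem_biUnion]
    refine ⟨M, ?_, X.card, ?_, X, ?_, W, ?_, ?_⟩
    · simp only [Finset.mem_filter, Finset.mem_powersetCard, Finset.subset_univ, true_and]
      exact ⟨hc, hp, hq⟩
    · rw [Finset.mem_range, Nat.lt_succ_iff, ← hc]
      exact hex
    · rw [Finset.mem_powersetCard]
      exact ⟨hXs, rfl⟩
    · rw [Finset.mem_powersetCard]
      exact ⟨Finset.subset_univ _, hW2⟩
    · unfold smBox
      rw [Fintype.mem_piFinset]
      intro u
      rw [Fintype.mem_piFinset]
      intro a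
      by_cases h1 : (u, a) ∈ X
      · simp only [h1, if_true]
        exact hW1 (Finset.mem_image.2 ⟨(u, a), h1, rfl⟩)
      · simp only [h1, if_false]
        by_cases h2 : u ∈ M
        · simp only [h2, if_true]
          by_contra h3
          apply h1
          rw [hX, Finset.mem_filter, Finset.mem_product]
          exact ⟨⟨h2, Finset.mem_univ _⟩, h3⟩
        · simp [h2]
  have hcard : cov.card ≤ (Fintype.card V - 2).choose (s-2) *
      (∑ e ∈ Finset.range (k*s-(s-2)+1),
          (k*s).choose e * s^(k*s-e) * ((Fintype.card V).choose (e/2) * (e/2)^e))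
        * (Fintype.card V)^(k*(Fintype.card V - s)) := by
    refine Finset.card_biUnion_le.trans ?_
    have hM : ∀ M ∈ (Finset.powersetCard s (Finset.univ : Finset V)).filter
        (fun M => p ∈ M ∧ q ∈ M),
        ((Finset.range (k*s-(s-2)+1)).biUnion fun e =>
          (Finset.powersetCard e (M ×ˢ (Finset.univ : Finset (Fin k)))).biUnion fun X =>
          (Finset.powersetCard (e/2) (Finset.univ : Finset V)).biUnion fun W => smBox M X W).card
        ≤ (∑ e ∈ Finset.range (k*s-(s-2)+1),
          (k*s).choose e * s^(k*s-e) * ((Fintype.card V).choose (e/2) * (e/2)^e))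
        * (Fintype.card V)^(k*(Fintype.card V - s)) := by
      intro M hM
      simp only [Finset.mem_filter, Finset.mem_powersetCard, Finset.subset_univ, true_and] at hM
      obtain ⟨hc, -, -⟩ := hM
      refine Finset.card_biUnion_le.trans ?_
      rw [Finset.sum_mul]
      apply Finset.sum_le_sum
      intro e _
      refine Finset.card_biUnion_le.trans ?_
      have hX : ∀ X ∈ Finset.powersetCard e (M ×ˢ (Finset.univ : Finset (Fin k))),
          ((Finset.powersetCard (e/2) (Finset.univ : Finset V)).biUnion
            fun W => smBox M X W).card ≤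
          (Fintype.card V).choose (e/2) * ((e/2)^e * s^(k*s-e) *
            (Fintype.card V)^(k*(Fintype.card V - s))) := by
        intro X hX
        rw [Finset.mem_powersetCard] at hX
        refine Finset.card_biUnion_le.trans ?_
        refine (Finset.sum_le_card_nsmul _ _ ((e/2)^e * s^(k*s-e) *
            (Fintype.card V)^(k*(Fintype.card V - s))) ?_).trans ?_
        · intro W hW
          rw [Finset.mem_powersetCard] at hW
          rw [smBox_card M X W hX.1, hX.2, hW.2, hc]
        · rw [Finset.card_powersetCard, Finset.card_univ, smul_eq_mul]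
      refine (Finset.sum_le_card_nsmul _ _ _ hX).trans ?_
      rw [Finset.card_powersetCard, Finset.card_product, Finset.card_univ, Fintype.card_fin, hc,
        smul_eq_mul, mul_comm s k]
      apply le_of_eq
      ring
    refine (Finset.sum_le_card_nsmul _ _ _ hM).trans ?_
    rw [smul_eq_mul, mul_assoc]
    exact Nat.mul_le_mul_right _ (sm_Ms_card s p q hpq)
  calc Set.ncard {T : V → Fin k → V | ∃ M : Finset V, p ∈ M ∧ q ∈ M ∧ M.card = s ∧
        Closed T M ∧ Hits T M p q} ≤ Set.ncard (cov : Set (V → Fin k → V)) :=
        Set.ncard_le_ncard hsub (Finset.finite_toSet _)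
    _ = cov.card := Set.ncard_coe_finset _
    _ ≤ _ := hcard


end J7611
alias smallmed_count := J7611.smallmed_count
end RA
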