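import Pool.Agent.Helper338.RA.Defs2
import Pool.Agent.Helper338.RA.J7611
set_option autoImplicit false
namespace RA
variable {V : Type} {k : ℕ}
namespace J7612



theorem sm_hh (h : ℕ) : h ^ h ≤ 3 ^ h * h.factorial := by
  have h1 := Real.pow_div_factorial_le_exp (h : ℝ) (by positivity) h
  have h2 : Real.exp (h : ℝ) ≤ 3 ^ h := by
    have h3 : Real.exp (h : ℝ) = Real.exp 1 ^ h := by
      rw [← Real.exp_nat_mul, mul_one]
    rw [h3]
    exact pow_le_pow_left₀ (Real.exp_pos _).le Real.exp_one_lt_three.le _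
  have h4 : (0 : ℝ) < h.factorial := by exact_mod_cast h.factorial_pos
  have h5 : ((h : ℝ)) ^ h ≤ 3 ^ h * h.factorial := by
    have := h1.trans h2
    rwa [div_le_iff₀ h4] at this
  exact_mod_cast h5

theorem sm_choose (N h : ℕ) : N.choose h * h ^ h ≤ 3 ^ h * N ^ h := by
  calc N.choose h * h ^ h ≤ N.choose h * (3 ^ h * h.factorial) := Nat.mul_le_mul_left _ (sm_hh h)
    _ = 3 ^ h * (h.factorial * N.choose h) := by ring
    _ = 3 ^ h * N.descFactorial h := by rw [Nat.descFactorial_eq_factorial_mul_choose]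
    _ ≤ 3 ^ h * N ^ h := Nat.mul_le_mul_left _ (Nat.descFactorial_le_pow _ _)

theorem sm_term (N k s e : ℕ) (hk : 2 ≤ k) (hs : 2 ≤ s) (hsN : s ≤ N) (he : e ≤ k * s - (s - 2)) :
    (k * s).choose e * s ^ (k * s - e) * (N.choose (e / 2) * (e / 2) ^ e)
      ≤ (6 * k) ^ (k * s) * s ^ (s - 1 + (s + 1) / 2) * N ^ (k * s - (s - 1 + (s + 1) / 2)) := by
  have hK : 2 * s ≤ k * s := Nat.mul_le_mul_right _ hk
  have hKdef : k * s = k * s := rfl
  generalize hKe : k * s = K at *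
  set h := e / 2 with hh
  set m := s - 1 + (s + 1) / 2 with hm
  have h1 : h ≤ K - m := by omega
  have h2 : m ≤ K := by omega
  have h3 : h ≤ e := by omega
  have h4 : e ≤ K := by omega
  have hc : K.choose e ≤ 2 ^ K := Nat.choose_le_two_pow _ _
  have hd : N.choose h * h ^ e ≤ 3 ^ K * N ^ h * (k ^ K * s ^ (e - h)) := by
    have e1 : h ^ e = h ^ h * h ^ (e - h) := by rw [← pow_add]; congr 1; omega
    rw [e1]
    calc N.choose h * (h ^ h * h ^ (e - h)) = (N.choose h * h ^ h) * h ^ (e - h) := by ring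
      _ ≤ (3 ^ h * N ^ h) * K ^ (e - h) :=
          Nat.mul_le_mul (sm_choose N h) (Nat.pow_le_pow_left (by omega) _)
      _ ≤ (3 ^ K * N ^ h) * (k ^ K * s ^ (e - h)) := by
          apply Nat.mul_le_mul
          · exact Nat.mul_le_mul_right _ (Nat.pow_le_pow_right (by norm_num) (by omega))
          · rw [← hKe, mul_pow]
            rw [hKe]
            exact Nat.mul_le_mul_right _ (Nat.pow_le_pow_right (by omega) (by omega))
  have e2 : s ^ (K - h) = s ^ (K - e) * s ^ (e - h) := by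
    rw [← pow_add]; congr 1; omega
  have e3 : s ^ (K - h) = s ^ m * s ^ (K - m - h) := by
    rw [← pow_add]; congr 1; omega
  have e4 : N ^ (K - m) = N ^ (K - m - h) * N ^ h := by
    rw [← pow_add]; congr 1; omega
  calc K.choose e * s ^ (K - e) * (N.choose h * h ^ e)
      ≤ 2 ^ K * s ^ (K - e) * (3 ^ K * N ^ h * (k ^ K * s ^ (e - h))) :=
        Nat.mul_le_mul (Nat.mul_le_mul_right _ hc) hd
    _ = (2 * 3 * k) ^ K * (s ^ (K - e) * s ^ (e - h)) * N ^ h := by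
        rw [mul_pow, mul_pow]; ring
    _ = (6 * k) ^ K * s ^ m * (s ^ (K - m - h) * N ^ h) := by
        rw [← e2, e3]; ring
    _ ≤ (6 * k) ^ K * s ^ m * (N ^ (K - m - h) * N ^ h) := by
        apply Nat.mul_le_mul_left
        exact Nat.mul_le_mul_right _ (Nat.pow_le_pow_left hsN _)
    _ = (6 * k) ^ K * s ^ m * N ^ (K - m) := by rw [e4]

theorem sm_sum (N k s : ℕ) (hk : 2 ≤ k) (hs : 2 ≤ s) (hsN : s ≤ N) :
    ∑ e ∈ Finset.range (k * s - (s - 2) + 1),
      (k * s).choose e * s ^ (k * s - e) * (N.choose (e / 2) * (e / 2) ^ e)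
      ≤ (12 * k) ^ (k * s) * s ^ (s - 1 + (s + 1) / 2) *
        N ^ (k * s - (s - 1 + (s + 1) / 2)) := by
  calc _ ≤ ∑ e ∈ Finset.range (k * s - (s - 2) + 1),
        (6 * k) ^ (k * s) * s ^ (s - 1 + (s + 1) / 2) *
          N ^ (k * s - (s - 1 + (s + 1) / 2)) := by
        apply Finset.sum_le_sum
        intro e he
        rw [Finset.mem_range] at he
        exact sm_term N k s e hk hs hsN (by omega)
    _ = (k * s - (s - 2) + 1) * ((6 * k) ^ (k * s) * s ^ (s - 1 + (s + 1) / 2) *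
          N ^ (k * s - (s - 1 + (s + 1) / 2))) := by
        rw [Finset.sum_const, Finset.card_range, smul_eq_mul]
    _ ≤ 2 ^ (k * s) * ((6 * k) ^ (k * s) * s ^ (s - 1 + (s + 1) / 2) *
          N ^ (k * s - (s - 1 + (s + 1) / 2))) := by
        apply Nat.mul_le_mul_right
        have h1 : k * s < 2 ^ (k * s) := Nat.lt_two_pow_self
        omega
    _ = (2 * (6 * k)) ^ (k * s) * s ^ (s - 1 + (s + 1) / 2) *
          N ^ (k * s - (s - 1 + (s + 1) / 2)) := by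
        rw [mul_pow 2 (6 * k)]; ring
    _ = _ := by
        congr 3; ring

theorem sm_bin (N s : ℕ) (hs : 4 ≤ s) :
    (N - 2).choose (s - 2) * s ^ (s - 2) ≤ 6 ^ (s - 2) * N ^ (s - 2) := by
  calc (N - 2).choose (s - 2) * s ^ (s - 2)
      ≤ (N - 2).choose (s - 2) * (2 * (s - 2)) ^ (s - 2) :=
        Nat.mul_le_mul_left _ (Nat.pow_le_pow_left (by omega) _)
    _ = 2 ^ (s - 2) * ((N - 2).choose (s - 2) * (s - 2) ^ (s - 2)) := by
        rw [mul_pow]; ring
    _ ≤ 2 ^ (s - 2) * (3 ^ (s - 2) * (N - 2) ^ (s - 2)) :=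
        Nat.mul_le_mul_left _ (sm_choose _ _)
    _ ≤ 2 ^ (s - 2) * (3 ^ (s - 2) * N ^ (s - 2)) :=
        Nat.mul_le_mul_left _ (Nat.mul_le_mul_left _ (Nat.pow_le_pow_left (by omega) _))
    _ = (2 * 3) ^ (s - 2) * N ^ (s - 2) := by rw [mul_pow]; ring
    _ = _ := by norm_num

/-- the bound for one size, in the form `bound * N^(q+1) ≤ A^s s^(q+1) N^(kN)` -/
theorem sm_one (N k s : ℕ) (hk : 2 ≤ k) (hs : 4 ≤ s) (hsN : k * s ≤ N) :
    (N - 2).choose (s - 2) * (∑ e ∈ Finset.range (k * s - (s - 2) + 1),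
          (k * s).choose e * s ^ (k * s - e) * (N.choose (e / 2) * (e / 2) ^ e))
        * N ^ (k * (N - s)) * N ^ ((s + 1) / 2 + 1)
      ≤ (6 * (12 * k) ^ k) ^ s * s ^ ((s + 1) / 2 + 1) * N ^ (k * N) := by
  have hK : 2 * s ≤ k * s := Nat.mul_le_mul_right _ hk
  have hsN' : s ≤ N := by omega
  have h1 := sm_sum N k s hk (by omega) hsN'
  have h2 := sm_bin N s hs
  have hspos : 0 < s ^ (s - 2) := by positivity
  set S := ∑ e ∈ Finset.range (k * s - (s - 2) + 1),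
          (k * s).choose e * s ^ (k * s - e) * (N.choose (e / 2) * (e / 2) ^ e) with hS
  set q := (s + 1) / 2 with hq
  have h3 : s ^ (s - 1 + q) = s ^ (s - 2) * s ^ (q + 1) := by
    rw [← pow_add]; congr 1; omega
  have h4 : N ^ (k * N) = N ^ (s - 2) * N ^ (k * s - (s - 1 + q)) * N ^ (k * (N - s)) * N ^ (q + 1) := by
    rw [← pow_add, ← pow_add, ← pow_add]
    congr 1
    have e1 : k * N = k * s + k * (N - s) := by
      rw [← Nat.mul_add]; congr 1; omega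
    omega
  have h5 : (6 * (12 * k) ^ k) ^ s = 6 ^ s * (12 * k) ^ (k * s) := by
    rw [mul_pow, ← pow_mul]
  have h6 : 6 ^ (s - 2) ≤ 6 ^ s := Nat.pow_le_pow_right (by norm_num) (by omega)
  have key : s ^ (s - 2) * ((N - 2).choose (s - 2) * S * N ^ (k * (N - s)) * N ^ (q + 1))
      ≤ s ^ (s - 2) * ((6 * (12 * k) ^ k) ^ s * s ^ (q + 1) * N ^ (k * N)) := by
    calc s ^ (s - 2) * ((N - 2).choose (s - 2) * S * N ^ (k * (N - s)) * N ^ (q + 1))
        = ((N - 2).choose (s - 2) * s ^ (s - 2)) * S * (N ^ (k * (N - s)) * N ^ (q + 1)) := by ring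
      _ ≤ (6 ^ (s - 2) * N ^ (s - 2)) * ((12 * k) ^ (k * s) * s ^ (s - 1 + q) *
            N ^ (k * s - (s - 1 + q))) * (N ^ (k * (N - s)) * N ^ (q + 1)) :=
          Nat.mul_le_mul_right _ (Nat.mul_le_mul h2 h1)
      _ = s ^ (s - 2) * (6 ^ (s - 2) * (12 * k) ^ (k * s) * s ^ (q + 1) *
            (N ^ (s - 2) * N ^ (k * s - (s - 1 + q)) * N ^ (k * (N - s)) * N ^ (q + 1))) := by
          rw [h3]; ring
      _ = s ^ (s - 2) * (6 ^ (s - 2) * (12 * k) ^ (k * s) * s ^ (q + 1) * N ^ (k * N)) := by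
          rw [h4]
      _ ≤ s ^ (s - 2) * (6 ^ s * (12 * k) ^ (k * s) * s ^ (q + 1) * N ^ (k * N)) := by
          apply Nat.mul_le_mul_left
          apply Nat.mul_le_mul_right
          apply Nat.mul_le_mul_right
          exact Nat.mul_le_mul_right _ h6
      _ = _ := by rw [h5]
  exact Nat.le_of_mul_le_mul_left key hspos

theorem sm_two_pow (s : ℕ) (hs : 128 ≤ s) : s ^ 18 ≤ 2 ^ s := by
  induction s, hs using Nat.le_induction with
  | base => norm_num
  | succ s hs ih =>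
    have h1 : 128 * (s + 1) ≤ 129 * s := by omega
    have h2 : (128 * (s + 1)) ^ 18 ≤ (129 * s) ^ 18 := Nat.pow_le_pow_left h1 _
    rw [mul_pow, mul_pow] at h2
    have h3 : 129 ^ 18 ≤ 2 * 128 ^ 18 := by norm_num
    have h4 : 128 ^ 18 * (s + 1) ^ 18 ≤ 128 ^ 18 * 2 ^ (s + 1) := by
      calc 128 ^ 18 * (s + 1) ^ 18 ≤ 129 ^ 18 * s ^ 18 := h2
        _ ≤ (2 * 128 ^ 18) * 2 ^ s := Nat.mul_le_mul h3 ih
        _ = 128 ^ 18 * 2 ^ (s + 1) := by ring
    exact Nat.le_of_mul_le_mul_left h4 (by norm_num)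

theorem sm_claim (A N s : ℕ) (hA : 1 ≤ A) (hs : 128 ≤ s) (hd : 4 * A ^ 2 * s ≤ N)
    (hN : A ^ 8 ≤ N) :
    A ^ s * s ^ ((s + 1) / 2 + 1) * N ^ 9 ≤ N ^ ((s + 1) / 2 + 1) := by
  set q := (s + 1) / 2 with hq
  have hq1 : s ≤ 2 * q := by omega
  have hq2 : 64 ≤ q := by omega
  have hA2 : A ^ s ≤ A ^ (2 * q) := Nat.pow_le_pow_right hA hq1
  have hN1 : 1 ≤ N := le_trans (Nat.one_le_pow _ _ hA) hN
  by_cases hc : s ^ 2 ≤ N
  · have h1 : (A ^ s * s ^ (q + 1) * N ^ 9) ^ 4 ≤ (N ^ (q + 1)) ^ 4 := by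
      calc (A ^ s * s ^ (q + 1) * N ^ 9) ^ 4 ≤ (A ^ (2 * q) * s ^ (q + 1) * N ^ 9) ^ 4 := by
            apply Nat.pow_le_pow_left
            exact Nat.mul_le_mul_right _ (Nat.mul_le_mul_right _ hA2)
        _ = (A ^ 8) ^ q * (s ^ 2) ^ (2 * (q + 1)) * N ^ 36 := by
            rw [mul_pow, mul_pow, ← pow_mul, ← pow_mul, ← pow_mul, ← pow_mul, ← pow_mul]
            congr 2
            · congr 1; ring
            · congr 1; ring
        _ ≤ N ^ q * N ^ (2 * (q + 1)) * N ^ 36 := by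
            apply Nat.mul_le_mul_right
            exact Nat.mul_le_mul (Nat.pow_le_pow_left hN _) (Nat.pow_le_pow_left hc _)
        _ = N ^ (q + 2 * (q + 1) + 36) := by rw [← pow_add, ← pow_add]
        _ ≤ N ^ ((q + 1) * 4) := Nat.pow_le_pow_right hN1 (by omega)
        _ = (N ^ (q + 1)) ^ 4 := by rw [← pow_mul]
    exact le_of_pow_le_pow_left₀ (by norm_num) (Nat.zero_le _) h1
  · push Not at hc
    have h1 : N ^ 9 ≤ 4 ^ (q + 1) := by
      calc N ^ 9 ≤ (s ^ 2) ^ 9 := Nat.pow_le_pow_left hc.le _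
        _ = s ^ 18 := by rw [← pow_mul]
        _ ≤ 2 ^ s := sm_two_pow s hs
        _ ≤ 2 ^ (2 * (q + 1)) := Nat.pow_le_pow_right (by norm_num) (by omega)
        _ = 4 ^ (q + 1) := by rw [pow_mul]; norm_num
    have h2 : A ^ s ≤ (A ^ 2) ^ (q + 1) := by
      rw [← pow_mul]
      exact Nat.pow_le_pow_right hA (by omega)
    calc A ^ s * s ^ (q + 1) * N ^ 9 ≤ (A ^ 2) ^ (q + 1) * s ^ (q + 1) * 4 ^ (q + 1) :=
          Nat.mul_le_mul (Nat.mul_le_mul_right _ h2) h1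
      _ = (4 * A ^ 2 * s) ^ (q + 1) := by
          rw [mul_pow, mul_pow 4]; ring
      _ ≤ N ^ (q + 1) := Nat.pow_le_pow_left hd _

-- TARGET
theorem smallmed (k : ℕ) (hk : 2 ≤ k) : ∃ (s0 d N0 : ℕ), 0 < d ∧
    ∀ (V : Type) [Fintype V] [DecidableEq V], N0 ≤ Fintype.card V → ∀ p q : V, p ≠ q →
    Set.ncard {T : V → Fin k → V | ∃ M : Finset V, p ∈ M ∧ q ∈ M ∧ s0 < M.card ∧
        d * M.card ≤ Fintype.card V ∧ Closed T M ∧ Hits T M p q} * (Fintype.card V)^8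
      ≤ (Fintype.card V)^(k * Fintype.card V) := by
  set A := 6 * (12 * k) ^ k with hA
  have hA1 : 1 ≤ A := by
    have : 0 < (12 * k) ^ k := by positivity
    omega
  have hAk : k ≤ 4 * A ^ 2 := by
    have h1 : k ≤ (12 * k) ^ k := by
      calc k ≤ 12 * k := by omega
        _ = (12 * k) ^ 1 := (pow_one _).symm
        _ ≤ (12 * k) ^ k := Nat.pow_le_pow_right (by omega) (by omega)
    have h2 : A ≤ A ^ 2 := by nlinarith
    omega
  refine ⟨127, 4 * A ^ 2, A ^ 8, by positivity, ?_⟩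
  intro V _ _ hN0 p q hpq
  set N := Fintype.card V with hN
  have hN1 : 1 ≤ N := le_trans (Nat.one_le_pow _ _ hA1) hN0
  let Z : ℕ → Set (V → Fin k → V) := fun s => {T : V → Fin k → V | ∃ M : Finset V,
    p ∈ M ∧ q ∈ M ∧ M.card = s ∧ Closed T M ∧ Hits T M p q}
  let I : Finset ℕ := (Finset.Icc 1 N).filter (fun s => 128 ≤ s ∧ 4 * A ^ 2 * s ≤ N)
  have hI : I.card ≤ N := by
    calc I.card ≤ (Finset.Icc 1 N).card := Finset.card_filter_le _ _
      _ = N := by simp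
  have hZ : ∀ s ∈ I, (Z s).ncard * N ^ 9 ≤ N ^ (k * N) := by
    intro s hs
    rw [Finset.mem_filter] at hs
    obtain ⟨-, hs1, hs2⟩ := hs
    have hks : k * s ≤ N := le_trans (Nat.mul_le_mul_right _ hAk) hs2
    have h1 := smallmed_count V k s p q hpq (by omega) hks
    have h2 := sm_one N k s hk (by omega) hks
    have h3 := sm_claim A N s hA1 hs1 hs2 hN0
    have hpos : 0 < N ^ ((s + 1) / 2 + 1) := by positivity
    have key : N ^ ((s + 1) / 2 + 1) * ((Z s).ncard * N ^ 9)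
        ≤ N ^ ((s + 1) / 2 + 1) * N ^ (k * N) := by
      calc N ^ ((s + 1) / 2 + 1) * ((Z s).ncard * N ^ 9)
          = ((Z s).ncard * N ^ ((s + 1) / 2 + 1)) * N ^ 9 := by ring
        _ ≤ (A ^ s * s ^ ((s + 1) / 2 + 1) * N ^ (k * N)) * N ^ 9 := by
            apply Nat.mul_le_mul_right
            exact (Nat.mul_le_mul_right _ h1).trans h2
        _ = (A ^ s * s ^ ((s + 1) / 2 + 1) * N ^ 9) * N ^ (k * N) := by ring
        _ ≤ N ^ ((s + 1) / 2 + 1) * N ^ (k * N) := Nat.mul_le_mul_right _ h3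
    exact Nat.le_of_mul_le_mul_left key hpos
  have hsub : {T : V → Fin k → V | ∃ M : Finset V, p ∈ M ∧ q ∈ M ∧ 127 < M.card ∧
      4 * A ^ 2 * M.card ≤ N ∧ Closed T M ∧ Hits T M p q} ⊆ ⋃ s ∈ I, Z s := by
    rintro T ⟨M, h1, h2, h3, h4, h5, h6⟩
    refine Set.mem_biUnion (x := M.card) ?_ ⟨M, h1, h2, rfl, h5, h6⟩
    show M.card ∈ I
    rw [Finset.mem_filter, Finset.mem_Icc]
    refine ⟨⟨by omega, ?_⟩, by omega, h4⟩
    exact Finset.card_le_univ M
  have hcard : Set.ncard {T : V → Fin k → V | ∃ M : Finset V, p ∈ M ∧ q ∈ M ∧ 127 < M.card ∧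
      4 * A ^ 2 * M.card ≤ N ∧ Closed T M ∧ Hits T M p q} ≤ ∑ s ∈ I, (Z s).ncard :=
    (Set.ncard_le_ncard hsub (Set.toFinite _)).trans (I.set_ncard_biUnion_le Z)
  have hfin : N * (Set.ncard {T : V → Fin k → V | ∃ M : Finset V, p ∈ M ∧ q ∈ M ∧ 127 < M.card ∧
      4 * A ^ 2 * M.card ≤ N ∧ Closed T M ∧ Hits T M p q} * N ^ 8) ≤ N * N ^ (k * N) := by
    calc N * (Set.ncard {T : V → Fin k → V | ∃ M : Finset V, p ∈ M ∧ q ∈ M ∧ 127 < M.card ∧
      4 * A ^ 2 * M.card ≤ N ∧ Closed T M ∧ Hits T M p q} * N ^ 8)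
        ≤ N * ((∑ s ∈ I, (Z s).ncard) * N ^ 8) :=
          Nat.mul_le_mul_left _ (Nat.mul_le_mul_right _ hcard)
      _ = ∑ s ∈ I, (Z s).ncard * N ^ 9 := by
          rw [← Finset.sum_mul]; ring
      _ ≤ ∑ s ∈ I, N ^ (k * N) := Finset.sum_le_sum hZ
      _ = I.card * N ^ (k * N) := by rw [Finset.sum_const, smul_eq_mul]
      _ ≤ N * N ^ (k * N) := Nat.mul_le_mul_right _ hI
  exact Nat.le_of_mul_le_mul_left hfin hN1


end J7612
alias smallmed := J7612.smallmed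
end RA
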