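import Pool.Agent.Helper338.RA.Defs2
set_option autoImplicit false
namespace RA
variable {V : Type} {k : ℕ}
namespace J7674

theorem mem_exits' {V : Type} [Fintype V] {k : ℕ} (T : V → Fin k → V) (M : Finset V) (z : V) :
    z ∈ exits T M ↔ (z ∉ M ∧ ∃ u ∈ M, ∃ a, T u a = z) := by
  unfold exits
  simp

open Finset in
/-- number of functions with prescribed rows -/
theorem card_rows {V : Type} [Fintype V] [DecidableEq V] {k : ℕ} (M : Finset V)
    (T₀ : V → Fin k → V) :
    (univ.filter (fun T : V → Fin k → V => ∀ u ∈ M, T u = T₀ u)).card =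
      ((Fintype.card V) ^ k) ^ (Fintype.card V - M.card) := by
  have e : (univ.filter (fun T : V → Fin k → V => ∀ u ∈ M, T u = T₀ u)) =
      Fintype.piFinset (fun u => if u ∈ M then ({T₀ u} : Finset (Fin k → V)) else univ) := by
    ext T
    simp only [mem_filter, mem_univ, true_and, Fintype.mem_piFinset]
    constructor
    · intro h u
      by_cases hu : u ∈ M
      · rw [if_pos hu, h u hu]; exact mem_singleton_self _
      · rw [if_neg hu]; exact mem_univ _
    · intro h u hu
      have := h u
      rw [if_pos hu] at this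
      exact mem_singleton.1 this
  rw [e, Fintype.card_piFinset]
  have h1 : ∀ u : V, (if u ∈ M then ({T₀ u} : Finset (Fin k → V)) else univ).card =
      if u ∈ M then 1 else (Fintype.card V) ^ k := by
    intro u
    by_cases hu : u ∈ M
    · rw [if_pos hu, if_pos hu, card_singleton]
    · rw [if_neg hu, if_neg hu, card_univ, Fintype.card_fun, Fintype.card_fin]
  rw [prod_congr rfl (fun u _ => h1 u), prod_ite, prod_const_one, one_mul, prod_const]
  congr 1
  rw [filter_not, card_sdiff_of_subset (filter_subset _ _)]
  rw [card_univ]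
  congr 2
  ext u
  simp

open Finset in
/-- number of functions into the complement of `S` with prescribed rows -/
theorem card_rows' {V : Type} [Fintype V] [DecidableEq V] {k : ℕ} (M S : Finset V)
    (T₀ : V → Fin k → V) (hT : ∀ u ∈ M, ∀ a, T₀ u a ∉ S) :
    ((Fintype.card V - S.card) ^ k) ^ (Fintype.card V - M.card) ≤
    (univ.filter (fun T : V → Fin k → {x : V // x ∉ S} =>
      ∀ u ∈ M, (fun a => ((T u a : {x : V // x ∉ S}) : V)) = T₀ u)).card := by
  have hW : Fintype.card {x : V // x ∉ S} = Fintype.card V - S.card := by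
    rw [Fintype.card_subtype_compl]
    simp
  have e : (univ.filter (fun T : V → Fin k → {x : V // x ∉ S} =>
      ∀ u ∈ M, (fun a => ((T u a : {x : V // x ∉ S}) : V)) = T₀ u)) =
      Fintype.piFinset (fun u => if u ∈ M then
        (univ.filter (fun row : Fin k → {x : V // x ∉ S} =>
          (fun a => ((row a : {x : V // x ∉ S}) : V)) = T₀ u)) else univ) := by
    ext T
    simp only [mem_filter, mem_univ, true_and, Fintype.mem_piFinset]
    constructor
    · intro h u
      by_cases hu : u ∈ M
      · rw [if_pos hu]; exact mem_filter.2 ⟨mem_univ _, h u hu⟩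
      · rw [if_neg hu]; exact mem_univ _
    · intro h u hu
      have := h u
      rw [if_pos hu] at this
      exact (mem_filter.1 this).2
  rw [e, Fintype.card_piFinset]
  have h1 : ∀ u ∈ (univ : Finset V), (if u ∈ M then 1 else (Fintype.card V - S.card) ^ k) ≤
      (if u ∈ M then (univ.filter (fun row : Fin k → {x : V // x ∉ S} =>
          (fun a => ((row a : {x : V // x ∉ S}) : V)) = T₀ u)) else univ).card := by
    intro u _
    by_cases hu : u ∈ M
    · rw [if_pos hu, if_pos hu, Nat.one_le_iff_ne_zero, ← Nat.pos_iff_ne_zero, card_pos]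
      refine ⟨fun a => ⟨T₀ u a, hT u hu a⟩, ?_⟩
      simp
    · rw [if_neg hu, if_neg hu, card_univ, Fintype.card_fun, Fintype.card_fin, hW]
  refine le_trans (le_of_eq ?_) (prod_le_prod' h1)
  rw [prod_ite, prod_const_one, one_mul, prod_const]
  congr 1
  rw [filter_not, card_sdiff_of_subset (filter_subset _ _), card_univ]
  congr 2
  ext u
  simp

open Finset in
/-- the count for a fixed forbidden set -/
theorem count_S {V : Type} [Fintype V] [DecidableEq V] {k : ℕ}
    (Mf : (V → Fin k → V) → Finset V) (hloc : Local Mf) (s g : ℕ) (hs : s ≤ Fintype.card V)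
    (S : Finset V) (hr : 0 < Fintype.card V - S.card) :
    (univ.filter (fun T : V → Fin k → V => ((Mf T).card = s ∧ (exits T (Mf T)).card ≤ g) ∧
      Disjoint S (Mf T ∪ exits T (Mf T)))).card * (Fintype.card V) ^ (k * s) ≤
      (Fintype.card V - S.card) ^ (k * s) * (Fintype.card V) ^ (k * Fintype.card V) := by
  classical
  set N := Fintype.card V with hN
  set 𝒯 := (univ.filter (fun T : V → Fin k → V => ((Mf T).card = s ∧ (exits T (Mf T)).card ≤ g) ∧
      Disjoint S (Mf T ∪ exits T (Mf T)))) with h𝒯
  let R : (V → Fin k → V) → (V → Fin k → {x : V // x ∉ S}) → Prop :=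
    fun T T' => ∀ u ∈ Mf T, (fun a => ((T' u a : {x : V // x ∉ S}) : V)) = T u
  have hdc := Finset.sum_card_bipartiteAbove_eq_sum_card_bipartiteBelow (s := 𝒯)
    (t := (univ : Finset (V → Fin k → {x : V // x ∉ S}))) R
  have hW : Fintype.card {x : V // x ∉ S} = N - S.card := by
    rw [Fintype.card_subtype_compl]
    simp [hN]
  have hlow : 𝒯.card * ((N - S.card) ^ k) ^ (N - s) ≤
      ∑ T ∈ 𝒯, (bipartiteAbove R (univ : Finset (V → Fin k → {x : V // x ∉ S})) T).card := by
    rw [← smul_eq_mul, ← sum_const]
    apply sum_le_sum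
    intro T hT
    rw [h𝒯, mem_filter] at hT
    obtain ⟨_, ⟨h1, h2⟩, h3⟩ := hT
    have h4 := card_rows' (Mf T) S T (by
      intro u hu a hmem
      have h5 : T u a ∈ Mf T ∪ exits T (Mf T) := by
        by_cases h6 : T u a ∈ Mf T
        · exact mem_union_left _ h6
        · apply mem_union_right
          exact (mem_exits' _ _ _).2 ⟨h6, u, hu, a, rfl⟩
      exact (disjoint_left.1 h3 hmem) h5)
    rw [h1] at h4
    refine h4.trans (le_of_eq ?_)
    congr 1
  have hup : ∑ T' ∈ (univ : Finset (V → Fin k → {x : V // x ∉ S})),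
      (bipartiteBelow R 𝒯 T').card ≤ ((N - S.card) ^ k) ^ N * (N ^ k) ^ (N - s) := by
    have hc : (univ : Finset (V → Fin k → {x : V // x ∉ S})).card = ((N - S.card) ^ k) ^ N := by
      rw [card_univ, Fintype.card_fun, Fintype.card_fun, Fintype.card_fin, hW]
    rw [← hc, ← smul_eq_mul, ← sum_const]
    apply sum_le_sum
    intro T' _
    by_cases hne : (bipartiteBelow R 𝒯 T').Nonempty
    · obtain ⟨T₁, hT₁⟩ := hne
      have hkey : ∀ T ∈ bipartiteBelow R 𝒯 T',
          Mf (fun u a => ((T' u a : {x : V // x ∉ S}) : V)) = Mf T := by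
        intro T hT
        rw [mem_bipartiteBelow] at hT
        exact hloc T _ hT.2
      have hM := hkey T₁ hT₁
      have hs1 : (Mf (fun u a => ((T' u a : {x : V // x ∉ S}) : V))).card = s := by
        rw [hM]
        rw [mem_bipartiteBelow, h𝒯, mem_filter] at hT₁
        exact hT₁.1.2.1.1
      have hcr := card_rows (Mf (fun u a => ((T' u a : {x : V // x ∉ S}) : V)))
        (fun u a => ((T' u a : {x : V // x ∉ S}) : V))
      rw [hs1] at hcr
      rw [← hN] at hcr
      rw [← hcr]
      apply card_le_card
      intro T hT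
      rw [mem_filter]
      refine ⟨mem_univ _, ?_⟩
      intro u hu
      have h5 := hkey T hT
      rw [mem_bipartiteBelow] at hT
      rw [h5] at hu
      exact (hT.2 u hu).symm
    · rw [not_nonempty_iff_eq_empty] at hne
      rw [hne]
      simp
  have h6 : 𝒯.card * ((N - S.card) ^ k) ^ (N - s) ≤ ((N - S.card) ^ k) ^ N * (N ^ k) ^ (N - s) := by
    refine hlow.trans ?_
    rw [hdc]
    exact hup
  have h7 : ((N - S.card) ^ k) ^ N = ((N - S.card) ^ k) ^ (N - s) * ((N - S.card) ^ k) ^ s := by
    rw [← pow_add]
    congr 1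
    omega
  rw [h7] at h6
  have h8 : 𝒯.card ≤ ((N - S.card) ^ k) ^ s * (N ^ k) ^ (N - s) := by
    have hpos : 0 < ((N - S.card) ^ k) ^ (N - s) := by positivity
    apply Nat.le_of_mul_le_mul_right _ hpos
    calc 𝒯.card * ((N - S.card) ^ k) ^ (N - s) ≤ _ := h6
      _ = _ := by ring
  calc 𝒯.card * N ^ (k * s) ≤ (((N - S.card) ^ k) ^ s * (N ^ k) ^ (N - s)) * N ^ (k * s) :=
        Nat.mul_le_mul_right _ h8
    _ = (N - S.card) ^ (k * s) * ((N ^ k) ^ (N - s) * (N ^ k) ^ s) := by
        rw [← pow_mul, ← pow_mul, ← pow_mul]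
        ring
    _ = (N - S.card) ^ (k * s) * N ^ (k * N) := by
        rw [← pow_add, ← pow_mul]
        congr 3
        omega

-- TARGET
theorem lt_count (V : Type) [Fintype V] [DecidableEq V] (k : ℕ)
    (Mf : (V → Fin k → V) → Finset V) (hloc : Local Mf) (s g r : ℕ) :
    Set.ncard {T : V → Fin k → V | (Mf T).card = s ∧ (exits T (Mf T)).card ≤ g}
        * (Fintype.card V - s - g).choose r * (Fintype.card V)^(k*s)
      ≤ (Fintype.card V).choose r * (Fintype.card V - r)^(k*s)
        * (Fintype.card V)^(k * Fintype.card V) := by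
  classical
  set N := Fintype.card V with hN
  have hset : {T : V → Fin k → V | (Mf T).card = s ∧ (exits T (Mf T)).card ≤ g} =
      ((Finset.univ.filter (fun T : V → Fin k → V => (Mf T).card = s ∧
        (exits T (Mf T)).card ≤ g) : Finset (V → Fin k → V)) : Set (V → Fin k → V)) := by
    ext T; simp
  rw [hset, Set.ncard_coe_finset]
  set 𝒯 := (Finset.univ.filter (fun T : V → Fin k → V => (Mf T).card = s ∧
        (exits T (Mf T)).card ≤ g)) with h𝒯
  by_cases hs : s ≤ N
  · by_cases hr : 0 < N - r
    · -- main case
      have hdc := Finset.sum_card_bipartiteAbove_eq_sum_card_bipartiteBelow (s := 𝒯)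
        (t := Finset.powersetCard r (Finset.univ : Finset V))
        (fun T S => Disjoint S (Mf T ∪ exits T (Mf T)))
      have hlow : 𝒯.card * (N - s - g).choose r ≤ ∑ T ∈ 𝒯, (Finset.bipartiteAbove
          (fun T S => Disjoint S (Mf T ∪ exits T (Mf T)))
          (Finset.powersetCard r (Finset.univ : Finset V)) T).card := by
        rw [← smul_eq_mul, ← Finset.sum_const]
        apply Finset.sum_le_sum
        intro T hT
        rw [h𝒯, Finset.mem_filter] at hT
        obtain ⟨_, h1, h2⟩ := hT
        have e : Finset.bipartiteAbove (fun T S => Disjoint S (Mf T ∪ exits T (Mf T)))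
          (Finset.powersetCard r (Finset.univ : Finset V)) T =
            Finset.powersetCard r (Mf T ∪ exits T (Mf T))ᶜ := by
          ext S
          rw [Finset.mem_bipartiteAbove, Finset.mem_powersetCard, Finset.mem_powersetCard,
            Finset.subset_compl_iff_disjoint_right]
          constructor
          · rintro ⟨⟨_, a⟩, b⟩
            exact ⟨b, a⟩
          · rintro ⟨b, a⟩
            exact ⟨⟨Finset.subset_univ _, a⟩, b⟩
        rw [e, Finset.card_powersetCard, Finset.card_compl]
        apply Nat.choose_le_choose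
        have h3 := Finset.card_union_le (Mf T) (exits T (Mf T))
        omega
      have hup : (∑ S ∈ Finset.powersetCard r (Finset.univ : Finset V), (Finset.bipartiteBelow
          (fun T S => Disjoint S (Mf T ∪ exits T (Mf T))) 𝒯 S).card) * N ^ (k * s) ≤
          N.choose r * ((N - r) ^ (k * s) * N ^ (k * N)) := by
        rw [Finset.sum_mul]
        have hc : (Finset.powersetCard r (Finset.univ : Finset V)).card = N.choose r := by
          rw [Finset.card_powersetCard, Finset.card_univ]
        rw [← hc, ← smul_eq_mul (Finset.card _), ← Finset.sum_const]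
        apply Finset.sum_le_sum
        intro S hS
        rw [Finset.mem_powersetCard] at hS
        have h4 := count_S Mf hloc s g hs S (by rw [hS.2]; exact hr)
        rw [hS.2] at h4
        have e : Finset.bipartiteBelow (fun T S => Disjoint S (Mf T ∪ exits T (Mf T))) 𝒯 S =
            (Finset.univ.filter (fun T : V → Fin k → V => ((Mf T).card = s ∧
              (exits T (Mf T)).card ≤ g) ∧ Disjoint S (Mf T ∪ exits T (Mf T)))) := by
          ext T
          rw [Finset.mem_bipartiteBelow, h𝒯, Finset.mem_filter, Finset.mem_filter]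
          constructor
          · rintro ⟨⟨a, b⟩, c⟩
            exact ⟨a, b, c⟩
          · rintro ⟨a, b, c⟩
            exact ⟨⟨a, b⟩, c⟩
        rw [e]
        exact h4
      calc 𝒯.card * (N - s - g).choose r * N ^ (k * s)
          ≤ (∑ T ∈ 𝒯, (Finset.bipartiteAbove
          (fun T S => Disjoint S (Mf T ∪ exits T (Mf T)))
          (Finset.powersetCard r (Finset.univ : Finset V)) T).card) * N ^ (k * s) :=
            Nat.mul_le_mul_right _ hlow
        _ ≤ N.choose r * ((N - r) ^ (k * s) * N ^ (k * N)) := by
            rw [hdc]; exact hup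
        _ = _ := by ring
    · have hNr : N - r = 0 := by omega
      rcases Nat.eq_zero_or_pos s with h0 | h0
      · subst h0
        simp only [mul_zero, pow_zero, mul_one]
        have h1 : 𝒯.card ≤ N ^ (k * N) := by
          refine (Finset.card_le_univ _).trans (le_of_eq ?_)
          rw [Fintype.card_fun, Fintype.card_fun, Fintype.card_fin, ← pow_mul]
        have h2 : (N - 0 - g).choose r ≤ N.choose r := Nat.choose_le_choose _ (by omega)
        calc 𝒯.card * (N - 0 - g).choose r ≤ N ^ (k * N) * N.choose r := Nat.mul_le_mul h1 h2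
          _ = _ := by ring
      · rcases Nat.eq_zero_or_pos N with hN0 | hN0
        · omega
        · have : (N - s - g).choose r = 0 := Nat.choose_eq_zero_of_lt (by omega)
          rw [this]
          simp
  · have hempty : 𝒯 = ∅ := by
      rw [h𝒯, Finset.filter_eq_empty_iff]
      rintro T _ ⟨h1, _⟩
      have := Finset.card_le_univ (Mf T)
      omega
    rw [hempty]
    simp


end J7674
alias lt_count := J7674.lt_count
end RA
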