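import Pool.Agent.Helper338.RA.Defs2
set_option autoImplicit false
namespace RA
variable {V : Type} {k : ℕ}
namespace J7675


theorem q_bound : 2 * Real.exp (-0.7625) ≤ 0.9353 := by
  have h1 := Real.log_two_lt_d9
  have h2 : (2 : ℝ) = Real.exp (Real.log 2) := (Real.exp_log two_pos).symm
  have h3 : (2 : ℝ) * Real.exp (-0.7625) = Real.exp (Real.log 2 - 0.7625) := by
    rw [sub_eq_add_neg, Real.exp_add, Real.exp_log two_pos]
  rw [h3]
  have h4 : Real.exp (Real.log 2 - 0.7625) ≤ Real.exp (-0.0693) :=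
    Real.exp_le_exp.2 (by linarith)
  have h5 : (1.0693 : ℝ) ≤ Real.exp 0.0693 := by
    have := Real.add_one_le_exp (0.0693 : ℝ)
    linarith
  have h6 : Real.exp (-0.0693) ≤ 0.9353 := by
    rw [Real.exp_neg]
    rw [inv_le_comm₀ (Real.exp_pos _) (by norm_num)]
    refine le_trans ?_ h5
    norm_num
  linarith

theorem h_theta (k : ℕ) (hk : 2 ≤ k) :
    Real.exp (-(k * (1 - 0.95/2^k))) < 0.95 / 2^k := by
  have h2k : (4 : ℝ) ≤ 2 ^ k := by
    have : (2 : ℝ) ^ 2 ≤ 2 ^ k := pow_le_pow_right₀ (by norm_num) hk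
    linarith
  have hth : (0.7625 : ℝ) ≤ 1 - 0.95/2^k := by
    have : (0.95 : ℝ) / 2 ^ k ≤ 0.95 / 4 := div_le_div_of_nonneg_left (by norm_num) (by norm_num) h2k
    linarith
  rw [lt_div_iff₀ (by positivity)]
  have h1 : Real.exp (-(k * (1 - 0.95/2^k))) ≤ Real.exp (-0.7625) ^ k := by
    rw [← Real.exp_nat_mul]
    refine Real.exp_le_exp.2 ?_
    have : (0 : ℝ) ≤ k := Nat.cast_nonneg k
    nlinarith
  have h2 : Real.exp (-0.7625) ^ k * 2 ^ k ≤ 0.9353 ^ k := by
    rw [← mul_pow, mul_comm]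
    exact pow_le_pow_left₀ (by positivity) q_bound k
  have h3 : (0.9353 : ℝ) ^ k ≤ 0.9353 ^ 2 := pow_le_pow_of_le_one (by norm_num) (by norm_num) hk
  calc Real.exp (-(k * (1 - 0.95/2^k))) * 2 ^ k ≤ Real.exp (-0.7625) ^ k * 2 ^ k :=
        mul_le_mul_of_nonneg_right h1 (by positivity)
    _ ≤ 0.9353 ^ 2 := h2.trans h3
    _ < 0.95 := by norm_num

theorem h_lower (k : ℕ) (θ x : ℝ) (hθ : 0 < θ) (hx : 0 ≤ x) (hxθ : x ≤ θ) :
    (x / θ) * (1 - θ - Real.exp (-(k * θ))) ≤ 1 - x - Real.exp (-(k * x)) := by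
  have hb : 0 ≤ x / θ := div_nonneg hx hθ.le
  have hb1 : x / θ ≤ 1 := (div_le_one hθ).2 hxθ
  have hc := convexOn_exp.2 (Set.mem_univ (0 : ℝ)) (Set.mem_univ (-(k * θ)))
    (sub_nonneg.2 hb1) hb (by ring)
  simp only [smul_eq_mul, mul_zero, zero_add, Real.exp_zero, mul_one] at hc
  have e1 : x / θ * -(k * θ) = -(k * x) := by field_simp
  rw [e1] at hc
  have e2 : x / θ * θ = x := div_mul_cancel₀ x hθ.ne'
  nlinarith

theorem ev_log (η : ℝ) (hη : 0 < η) :
    ∀ᶠ N : ℕ in Filter.atTop, (((Nat.log 2 N) ^ 2 : ℕ) : ℝ) ≤ η * N := by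
  have h1 : (fun x : ℝ => Real.log x ^ 2) =o[Filter.atTop] id := Real.isLittleO_pow_log_id_atTop
  have h2 := h1.bound (c := η * (Real.log 2) ^ 2)
    (mul_pos hη (pow_pos (Real.log_pos one_lt_two) 2))
  have h3 := tendsto_natCast_atTop_atTop (R := ℝ) |>.eventually h2
  filter_upwards [h3, Filter.eventually_ge_atTop 1] with N hN hN1
  have hNr : (1 : ℝ) ≤ N := by exact_mod_cast hN1
  simp only [id] at hN
  rw [Real.norm_of_nonneg (sq_nonneg _), Real.norm_of_nonneg (by linarith)] at hN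
  have hl2 : 0 < Real.log 2 := Real.log_pos one_lt_two
  have h5 : ((Nat.log 2 N : ℕ) : ℝ) ≤ Real.log N / Real.log 2 := by
    rw [le_div_iff₀ hl2, ← Real.log_pow]
    apply Real.log_le_log (by positivity)
    exact_mod_cast Nat.pow_log_le_self 2 (by omega)
  have h6 : ((Nat.log 2 N : ℕ) : ℝ) ^ 2 ≤ (Real.log N / Real.log 2) ^ 2 :=
    pow_le_pow_left₀ (Nat.cast_nonneg _) h5 2
  rw [div_pow] at h6
  have h7 : Real.log N ^ 2 / Real.log 2 ^ 2 ≤ η * N := by
    rw [div_le_iff₀ (by positivity)]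
    nlinarith
  push_cast
  linarith

theorem ev_pow (η c : ℝ) (hη : 0 < η) (hc : 0 < c) :
    ∀ᶠ N : ℕ in Filter.atTop, (N : ℝ) ^ 10 ≤ (1 + c) ^ ⌊η * N⌋₊ := by
  have hl : 0 < Real.log (1 + c) := Real.log_pos (by linarith)
  have h1 : (fun x : ℝ => Real.log x ^ 1) =o[Filter.atTop] id := Real.isLittleO_pow_log_id_atTop
  have h2 := h1.bound (c := η * Real.log (1 + c) / 20) (by positivity)
  have h3 := tendsto_natCast_atTop_atTop (R := ℝ) |>.eventually h2
  have h4 : ∀ᶠ N : ℕ in Filter.atTop, 2 / η ≤ (N : ℝ) :=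
    tendsto_natCast_atTop_atTop.eventually (Filter.eventually_ge_atTop _)
  filter_upwards [h3, Filter.eventually_ge_atTop 1, h4] with N hN hN1 hN2
  have hNr : (1 : ℝ) ≤ N := by exact_mod_cast hN1
  simp only [id, pow_one] at hN
  rw [Real.norm_of_nonneg (Real.log_nonneg hNr), Real.norm_of_nonneg (by linarith)] at hN
  have hfl : η * N / 2 ≤ (⌊η * N⌋₊ : ℝ) := by
    have := (Nat.lt_floor_add_one (η * N)).le
    have h5 : 2 ≤ η * N := by
      rw [div_le_iff₀ hη] at hN2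
      linarith
    linarith
  have hpos : (0 : ℝ) < (N : ℝ) ^ 10 := by positivity
  have hpos2 : (0 : ℝ) < (1 + c) ^ ⌊η * N⌋₊ := by positivity
  rw [← Real.log_le_log_iff hpos hpos2, Real.log_pow, Real.log_pow]
  push_cast
  have : η * N / 2 * Real.log (1 + c) ≤ (⌊η * N⌋₊ : ℝ) * Real.log (1 + c) :=
    mul_le_mul_of_nonneg_right hfl hl.le
  linarith

-- TARGET
theorem medium_analysis (k d : ℕ) (hk : 2 ≤ k) (hd : 0 < d) : ∃ N0 : ℕ, ∀ N s : ℕ, N0 ≤ N →
    N < d * s → (s : ℝ) ≤ (1 - 0.95/2^k) * N →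
    ∃ r, 0 < (N - s - (Nat.log 2 N)^2).choose r ∧
      N^10 * (N.choose r * (N - r)^(k*s)) ≤ (N - s - (Nat.log 2 N)^2).choose r * N^(k*s) := by
  set θ : ℝ := 1 - 0.95/2^k with hθdef
  have h2k : (4 : ℝ) ≤ 2 ^ k := by
    have : (2 : ℝ) ^ 2 ≤ 2 ^ k := pow_le_pow_right₀ (by norm_num) hk
    linarith
  have hdp : (0.95 : ℝ) / 2 ^ k ≤ 0.95 / 4 :=
    div_le_div_of_nonneg_left (by norm_num) (by norm_num) h2k
  have hdp0 : (0 : ℝ) < 0.95 / 2 ^ k := by positivity
  have hθ : 0 < θ := by rw [hθdef]; linarith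
  have hθ1 : θ < 1 := by rw [hθdef]; linarith
  set H : ℝ := 1 - θ - Real.exp (-(k * θ)) with hHdef
  have hH : 0 < H := by
    have := h_theta k hk
    rw [← hθdef] at this
    rw [hHdef]
    have e : 1 - θ = 0.95 / 2 ^ k := by rw [hθdef]; ring
    rw [e]
    linarith
  have hdr : (1 : ℝ) ≤ d := by exact_mod_cast hd
  set c0 : ℝ := H / d with hc0
  have hc0p : 0 < c0 := by positivity
  set η : ℝ := c0 / 4 with hηdef
  have hη : 0 < η := by positivity
  obtain ⟨N1, hN1⟩ := Filter.eventually_atTop.1 (ev_log η hη)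
  obtain ⟨N2, hN2⟩ := Filter.eventually_atTop.1 (ev_pow η (c0 / 2) hη (by positivity))
  refine ⟨max (max N1 N2) 1, fun N s hN hNs hsθ => ?_⟩
  have hNN1 : N1 ≤ N := (le_max_left _ _).trans ((le_max_left _ _).trans hN)
  have hNN2 : N2 ≤ N := (le_max_right _ _).trans ((le_max_left _ _).trans hN)
  have hNp : 1 ≤ N := (le_max_right _ _).trans hN
  have hNr : (1 : ℝ) ≤ N := by exact_mod_cast hNp
  have hN0 : (0 : ℝ) < N := by linarith
  have hg := hN1 N hNN1
  have hpow := hN2 N hNN2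
  set g : ℕ := (Nat.log 2 N) ^ 2 with hgdef
  set r : ℕ := ⌊η * N⌋₊ with hrdef
  have hrle : (r : ℝ) ≤ η * N := Nat.floor_le (by positivity)
  -- x
  set x : ℝ := s / N with hx
  have hx0 : 0 ≤ x := by positivity
  have hsx : (s : ℝ) = x * N := by rw [hx]; field_simp
  have hxθ : x ≤ θ := by
    rw [hx, div_le_iff₀ hN0]
    exact hsθ
  have hdx : 1 / (d : ℝ) ≤ x := by
    rw [hx, div_le_div_iff₀ (by linarith) hN0]
    have : (N : ℝ) < d * s := by exact_mod_cast hNs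
    linarith
  have hhx : c0 ≤ 1 - x - Real.exp (-(k * x)) := by
    refine le_trans ?_ (h_lower k θ x hθ hx0 hxθ)
    rw [← hHdef]
    have h1 : x ≤ x / θ := by
      rw [le_div_iff₀ hθ]
      nlinarith
    have h2 : 1 / (d : ℝ) * H ≤ x / θ * H := mul_le_mul_of_nonneg_right (hdx.trans h1) hH.le
    have h3 : c0 = 1 / (d : ℝ) * H := by rw [hc0]; ring
    linarith
  have hexp0 : 0 < Real.exp (-(k * x)) := Real.exp_pos _
  have hexp1 : Real.exp (-(k * x)) ≤ 1 := by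
    rw [Real.exp_le_one_iff]
    have : (0 : ℝ) ≤ k := Nat.cast_nonneg k
    nlinarith
  have hkey : Real.exp (-(k * x)) * (1 + c0 / 2) ≤ 1 - x - 2 * η := by
    rw [hηdef]
    nlinarith
  have hpos1 : 0 < 1 - x - 2 * η := lt_of_lt_of_le (by positivity) hkey
  -- naturals
  have hsum : (s : ℝ) + g + r < N := by
    have : (s : ℝ) + g + r ≤ x * N + η * N + η * N := by rw [← hsx]; linarith
    have h2 : 0 < (1 - x - 2 * η) * N := mul_pos hpos1 hN0
    nlinarith
  have hsumN : s + g + r < N := by exact_mod_cast hsum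
  set M : ℕ := N - s - g with hM
  have hMc : (M : ℝ) = N - s - g := by
    rw [hM, Nat.sub_sub, Nat.cast_sub (by omega)]
    push_cast
    ring
  have hrM : r ≤ M := by omega
  refine ⟨r, Nat.choose_pos hrM, ?_⟩
  have hfac : 0 < r.factorial := Nat.factorial_pos r
  -- compare
  have hA : N.choose r * r.factorial ≤ N ^ r := by
    rw [mul_comm, ← Nat.descFactorial_eq_factorial_mul_choose]
    exact Nat.descFactorial_le_pow N r
  have hB : (M - r) ^ r ≤ M.choose r * r.factorial := by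
    rw [mul_comm, ← Nat.descFactorial_eq_factorial_mul_choose]
    refine le_trans ?_ (Nat.pow_sub_le_descFactorial M r)
    exact Nat.pow_le_pow_left (by omega) r
  have hrN : r ≤ N := by omega
  have hMr : ((M - r : ℕ) : ℝ) = M - r := Nat.cast_sub hrM
  have hMr2 : (1 - x - 2 * η) * N ≤ ((M - r : ℕ) : ℝ) := by
    rw [hMr, hMc]
    have : (1 - x - 2 * η) * N = N - x * N - η * N - η * N := by ring
    rw [this, ← hsx]
    linarith
  -- main real inequality
  have hC : (N : ℝ) ^ 10 * ((N : ℝ) ^ r * ((N - r : ℕ) : ℝ) ^ (k * s)) ≤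
      ((M - r : ℕ) : ℝ) ^ r * (N : ℝ) ^ (k * s) := by
    have h1 : ((N - r : ℕ) : ℝ) ≤ N * Real.exp (-(r / N)) := by
      rw [Nat.cast_sub hrN]
      have h3 := Real.add_one_le_exp (-((r : ℝ) / N))
      have h4 : N * (-((r : ℝ) / N) + 1) ≤ N * Real.exp (-(r / N)) :=
        mul_le_mul_of_nonneg_left h3 hN0.le
      have h5 : N * (-((r : ℝ) / N) + 1) = N - r := by field_simp; ring
      linarith
    have h2 : ((N - r : ℕ) : ℝ) ^ (k * s) ≤ (N : ℝ) ^ (k * s) * Real.exp (-(k * x)) ^ r := by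
      refine (pow_le_pow_left₀ (Nat.cast_nonneg _) h1 (k * s)).trans ?_
      rw [mul_pow]
      refine mul_le_mul_of_nonneg_left ?_ (by positivity)
      rw [← Real.exp_nat_mul, ← Real.exp_nat_mul]
      refine le_of_eq (congrArg Real.exp ?_)
      push_cast
      rw [hx]
      field_simp
    have h3 : (N : ℝ) ^ r * ((1 + c0 / 2) ^ r * Real.exp (-(k * x)) ^ r) ≤ ((M - r : ℕ) : ℝ) ^ r := by
      rw [← mul_pow, ← mul_pow]
      refine pow_le_pow_left₀ (by positivity) ?_ r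
      refine le_trans ?_ hMr2
      rw [mul_comm (N : ℝ)]
      refine mul_le_mul_of_nonneg_right ?_ hN0.le
      rw [mul_comm]
      exact hkey
    calc (N : ℝ) ^ 10 * ((N : ℝ) ^ r * ((N - r : ℕ) : ℝ) ^ (k * s))
        ≤ (1 + c0 / 2) ^ r * ((N : ℝ) ^ r * ((N : ℝ) ^ (k * s) * Real.exp (-(k * x)) ^ r)) := by
          refine mul_le_mul hpow ?_ (by positivity) (by positivity)
          exact mul_le_mul_of_nonneg_left h2 (by positivity)
      _ = ((N : ℝ) ^ r * ((1 + c0 / 2) ^ r * Real.exp (-(k * x)) ^ r)) * (N : ℝ) ^ (k * s) := by ring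
      _ ≤ ((M - r : ℕ) : ℝ) ^ r * (N : ℝ) ^ (k * s) :=
          mul_le_mul_of_nonneg_right h3 (by positivity)
  have hCN : N ^ 10 * (N ^ r * (N - r) ^ (k * s)) ≤ (M - r) ^ r * N ^ (k * s) := by
    exact_mod_cast hC
  refine Nat.le_of_mul_le_mul_right ?_ hfac
  calc N ^ 10 * (N.choose r * (N - r) ^ (k * s)) * r.factorial
      = N ^ 10 * ((N.choose r * r.factorial) * (N - r) ^ (k * s)) := by ring
    _ ≤ N ^ 10 * (N ^ r * (N - r) ^ (k * s)) :=
        Nat.mul_le_mul_left _ (Nat.mul_le_mul_right _ hA)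
    _ ≤ (M - r) ^ r * N ^ (k * s) := hCN
    _ ≤ (M.choose r * r.factorial) * N ^ (k * s) := Nat.mul_le_mul_right _ hB
    _ = M.choose r * N ^ (k * s) * r.factorial := by ring


end J7675
alias medium_analysis := J7675.medium_analysis
end RA
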