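import Pool.Agent.Helper338.RA.Defs2
import Pool.Agent.Helper338.RA.J7674
import Pool.Agent.Helper338.RA.J7675
set_option autoImplicit false
namespace RA
variable {V : Type} {k : ℕ}
namespace J7676



-- TARGET
theorem medium (k d : ℕ) (hk : 2 ≤ k) (hd : 0 < d) : ∃ N0 : ℕ,
    ∀ (V : Type) [Fintype V] [DecidableEq V] (Mf : (V → Fin k → V) → Finset V), Local Mf →
    N0 ≤ Fintype.card V →
    Set.ncard {T : V → Fin k → V | Fintype.card V < d * (Mf T).card ∧
        ((Mf T).card : ℝ) ≤ (1 - 0.95/2^k) * Fintype.card V ∧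
        (exits T (Mf T)).card ≤ (Nat.log 2 (Fintype.card V))^2} * (Fintype.card V)^8
      ≤ (Fintype.card V)^(k * Fintype.card V) := by
  classical
  obtain ⟨N0, hN0⟩ := medium_analysis k d hk hd
  refine ⟨max N0 2, ?_⟩
  intro V _ _ Mf hloc hN
  set N := Fintype.card V with hNdef
  have hN1 : N0 ≤ N := (le_max_left _ _).trans hN
  have hN2 : 2 ≤ N := (le_max_right _ _).trans hN
  set F : Finset (V → Fin k → V) := Finset.univ.filter (fun T => N < d * (Mf T).card ∧
        ((Mf T).card : ℝ) ≤ (1 - 0.95/2^k) * N ∧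
        (exits T (Mf T)).card ≤ (Nat.log 2 N)^2) with hF
  have hcard : Set.ncard {T : V → Fin k → V | N < d * (Mf T).card ∧
        ((Mf T).card : ℝ) ≤ (1 - 0.95/2^k) * N ∧
        (exits T (Mf T)).card ≤ (Nat.log 2 N)^2} = F.card := by
    rw [← Set.ncard_coe_finset]
    congr 1
    ext T
    simp [hF]
  rw [hcard]
  have hfib : F.card = ∑ s ∈ Finset.range (N + 1), (F.filter (fun T => (Mf T).card = s)).card := by
    apply Finset.card_eq_sum_card_fiberwise
    intro T _
    simp only [Finset.coe_range, Set.mem_Iio]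
    exact Nat.lt_succ_of_le (Finset.card_le_univ _)
  have hterm : ∀ s ∈ Finset.range (N + 1),
      (F.filter (fun T => (Mf T).card = s)).card * N ^ 10 ≤ N ^ (k * N) := by
    intro s _
    by_cases hne : (F.filter (fun T => (Mf T).card = s)).Nonempty
    · obtain ⟨T0, hT0⟩ := hne
      rw [Finset.mem_filter, hF, Finset.mem_filter] at hT0
      obtain ⟨⟨_, h1, h2, _⟩, h4⟩ := hT0
      rw [h4] at h1 h2
      obtain ⟨r, hr1, hr2⟩ := hN0 N s hN1 h1 h2
      have hle : (F.filter (fun T => (Mf T).card = s)).card ≤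
          Set.ncard {T : V → Fin k → V | (Mf T).card = s ∧
            (exits T (Mf T)).card ≤ (Nat.log 2 N)^2} := by
        rw [← Set.ncard_coe_finset]
        apply Set.ncard_le_ncard _ (Set.toFinite _)
        intro T hT
        rw [Finset.mem_coe, Finset.mem_filter, hF, Finset.mem_filter] at hT
        exact ⟨hT.2, hT.1.2.2.2⟩
      have hlt := lt_count V k Mf hloc s ((Nat.log 2 N)^2) r
      rw [← hNdef] at hlt
      set a := Set.ncard {T : V → Fin k → V | (Mf T).card = s ∧
            (exits T (Mf T)).card ≤ (Nat.log 2 N)^2}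
      set Cc := (N - s - (Nat.log 2 N)^2).choose r
      have hpos : 0 < Cc * N ^ (k * s) := Nat.mul_pos hr1 (Nat.pow_pos (by omega))
      have h5 : (Cc * N ^ (k * s)) * (a * N ^ 10) ≤ (Cc * N ^ (k * s)) * N ^ (k * N) := by
        calc (Cc * N ^ (k * s)) * (a * N ^ 10) = (a * Cc * N ^ (k * s)) * N ^ 10 := by ring
          _ ≤ (N.choose r * (N - r) ^ (k * s) * N ^ (k * N)) * N ^ 10 :=
            Nat.mul_le_mul_right _ hlt
          _ = (N ^ 10 * (N.choose r * (N - r) ^ (k * s))) * N ^ (k * N) := by ring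
          _ ≤ (Cc * N ^ (k * s)) * N ^ (k * N) := Nat.mul_le_mul_right _ hr2
      have h6 := Nat.le_of_mul_le_mul_left h5 hpos
      exact (Nat.mul_le_mul_right _ hle).trans h6
    · rw [Finset.not_nonempty_iff_eq_empty] at hne
      rw [hne]
      simp
  have hsum : F.card * N ^ 10 ≤ (N + 1) * N ^ (k * N) := by
    rw [hfib, Finset.sum_mul]
    refine (Finset.sum_le_sum hterm).trans ?_
    rw [Finset.sum_const, Finset.card_range, smul_eq_mul]
  have hN3 : N + 1 ≤ N ^ 2 := by nlinarith
  have h7 : N ^ 2 * (F.card * N ^ 8) ≤ N ^ 2 * N ^ (k * N) := by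
    calc N ^ 2 * (F.card * N ^ 8) = F.card * N ^ 10 := by ring
      _ ≤ (N + 1) * N ^ (k * N) := hsum
      _ ≤ N ^ 2 * N ^ (k * N) := Nat.mul_le_mul_right _ hN3
  exact Nat.le_of_mul_le_mul_left h7 (Nat.pow_pos (by omega))


end J7676
alias medium := J7676.medium
end RA
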