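import Pool.Agent.Helper338.RA.Defs2
set_option autoImplicit false
namespace RA
variable {V : Type} {k : ℕ}
namespace J7677



/-- the exchange map -/
noncomputable def mixSwap {V : Type} {k : ℕ} (Mf : (V → Fin k → V) → Finset V)
    (x : (V → Fin k → V) × (V → Fin k → V)) : (V → Fin k → V) × (V → Fin k → V) :=
  (mix (Mf x.1) x.1 x.2, mix (Mf x.1) x.2 x.1)

theorem mixSwap_invol {V : Type} {k : ℕ} (Mf : (V → Fin k → V) → Finset V) (hloc : Local Mf) :
    Function.Involutive (mixSwap Mf) := by
  rintro ⟨T, T'⟩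
  have h1 : Mf (mix (Mf T) T T') = Mf T := by
    apply hloc
    intro u hu
    simp [mix, hu]
  unfold mixSwap
  simp only [h1]
  refine Prod.ext ?_ ?_
  · funext v
    by_cases hv : v ∈ Mf T <;> simp [mix, hv]
  · funext v
    by_cases hv : v ∈ Mf T <;> simp [mix, hv]

-- TARGET
theorem resample (V : Type) [Fintype V] [DecidableEq V] (k : ℕ)
    (Mf : (V → Fin k → V) → Finset V) (hloc : Local Mf) (P : (V → Fin k → V) → Prop) :
    Set.ncard {T : V → Fin k → V | P T} * (Fintype.card V)^(k * Fintype.card V)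
      = Set.ncard {x : (V → Fin k → V) × (V → Fin k → V) | P (mix (Mf x.1) x.1 x.2)} := by
  classical
  have hinv := mixSwap_invol Mf hloc
  have h1 : {x : (V → Fin k → V) × (V → Fin k → V) | P (mix (Mf x.1) x.1 x.2)} =
      mixSwap Mf '' {x | P x.1} := by
    ext x
    constructor
    · intro hx
      exact ⟨mixSwap Mf x, hx, hinv x⟩
    · rintro ⟨y, hy, rfl⟩
      have h2 : mixSwap Mf (mixSwap Mf y) = y := hinv y
      have h3 : (mixSwap Mf (mixSwap Mf y)).1 = y.1 := by rw [h2]
      have h4 : P (mixSwap Mf (mixSwap Mf y)).1 := by rw [h3]; exact hy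
      exact h4
  rw [h1, Set.ncard_image_of_injective _ hinv.injective]
  have h5 : {x : (V → Fin k → V) × (V → Fin k → V) | P x.1} =
      {T : V → Fin k → V | P T} ×ˢ (Set.univ : Set (V → Fin k → V)) := by
    ext x
    simp
  rw [h5, Set.ncard_prod, Set.ncard_univ]
  congr 1
  rw [Nat.card_eq_fintype_card]
  simp [pow_mul]



end J7677
alias resample := J7677.resample
end RA
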