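import Pool.Agent.Helper338.RA.Defs2
set_option autoImplicit false
namespace RA
variable {V : Type} {k : ℕ}
namespace J7678



lemma ncard_le_sum_aux {α ι : Type*} [Finite α] (S : Set α) (s : Finset ι) (A : ι → Set α)
    (h : ∀ x ∈ S, ∃ i ∈ s, x ∈ A i) : S.ncard ≤ ∑ i ∈ s, (A i).ncard := by
  classical
  have h1 : S ⊆ ⋃ i ∈ s, A i := by
    intro x hx
    obtain ⟨i, hi, hxi⟩ := h x hx
    simp only [Set.mem_iUnion]
    exact ⟨i, hi, hxi⟩
  refine (Set.ncard_le_ncard h1 (Set.toFinite _)).trans ?_
  clear h h1
  induction s using Finset.induction_on with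
  | empty => simp
  | insert i s his ih =>
    rw [Finset.sum_insert his, Finset.set_biUnion_insert]
    exact (Set.ncard_union_le _ _).trans (Nat.add_le_add_left ih _)

lemma constrained_card (V : Type) [Fintype V] [DecidableEq V] (k : ℕ) (J' : Finset V)
    (e : J' → V × Fin k) (he : Function.Injective e) :
    Set.ncard {T' : V → Fin k → V | ∀ z : J', T' (e z).1 (e z).2 = z}
      ≤ (Fintype.card V)^(k * Fintype.card V - J'.card) := by
  classical
  let R : Finset (V × Fin k) := Finset.univ.image e
  have hR : R.card = J'.card := by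
    rw [Finset.card_image_of_injective _ he, Finset.card_univ, Fintype.card_coe]
  have hcardc : Fintype.card {x : V × Fin k // x ∉ R} = k * Fintype.card V - J'.card := by
    rw [Fintype.card_subtype_compl, Fintype.card_prod, Fintype.card_fin, Fintype.card_coe, hR,
      Nat.mul_comm]
  have hfun : Fintype.card ({x : V × Fin k // x ∉ R} → V)
      = (Fintype.card V)^(k * Fintype.card V - J'.card) := by
    rw [Fintype.card_fun, hcardc]
  rw [← hfun, ← Nat.card_eq_fintype_card, ← Set.ncard_univ]
  apply Set.ncard_le_ncard_of_injOn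
    (fun (T' : V → Fin k → V) => (fun (x : {x : V × Fin k // x ∉ R}) => T' x.1.1 x.1.2))
  · intro T' _
    exact Set.mem_univ _
  · intro T1 h1 T2 h2 h12
    funext v a
    by_cases hx : (v, a) ∈ R
    · obtain ⟨z, _, hz⟩ := Finset.mem_image.mp hx
      have a1 := h1 z
      have a2 := h2 z
      rw [hz] at a1 a2
      simp only at a1 a2
      rw [a1, a2]
    · exact congrFun h12 ⟨(v, a), hx⟩

lemma step_of_reach {V : Type} [Fintype V] [DecidableEq V] {k : ℕ} (o : V) (T T' : V → Fin k → V)
    (M : Finset V) (z : V) (hz : z ∈ reachSet (mix M T T') o \ M) (hzo : z ≠ o)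
    (hzZ : z ∉ exits T M) :
    ∃ u ∈ reachSet (mix M T T') o \ M, ∃ a, T' u a = z := by
  classical
  rw [Finset.mem_sdiff] at hz
  obtain ⟨hz1, hzM⟩ := hz
  simp only [reachSet, Finset.mem_filter, Finset.mem_univ, true_and] at hz1
  obtain ⟨w, hw⟩ := hz1
  rcases List.eq_nil_or_concat w with h0 | ⟨w', a, h0⟩
  · subst h0
    exact absurd hw.symm hzo
  · subst h0
    have hw2 : mix M T T' (run (mix M T T') o w') a = z := by
      rw [← hw]
      simp [run]
    set u := run (mix M T T') o w' with hu
    have huM : u ∉ M := by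
      intro huM
      apply hzZ
      simp only [exits, Finset.mem_filter, Finset.mem_univ, true_and]
      refine ⟨hzM, u, huM, a, ?_⟩
      rw [← hw2]
      simp [mix, huM]
    refine ⟨u, ?_, a, ?_⟩
    · rw [Finset.mem_sdiff]
      refine ⟨?_, huM⟩
      simp only [reachSet, Finset.mem_filter, Finset.mem_univ, true_and]
      exact ⟨w', rfl⟩
    · rw [← hw2]
      simp [mix, huM]

-- TARGET
theorem outer_fixed (V : Type) [Fintype V] [DecidableEq V] (k : ℕ) (o : V) (T : V → Fin k → V)
    (M : Finset V) (G j : ℕ) (hG : (exits T M).card ≤ G) :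
    Set.ncard {T' : V → Fin k → V | (reachSet (mix M T T') o \ M).card = j}
      ≤ 2^(G+1) * ∑ r ∈ Finset.range (G+2), (Fintype.card V - M.card).choose (j-r)
          * (k*j).descFactorial (j-r) * (Fintype.card V)^(k * Fintype.card V - (j-r)) := by
  classical
  set N := Fintype.card V with hN
  set Z := insert o (exits T M) with hZ
  have hZcard : Z.card ≤ G + 1 := (Finset.card_insert_le _ _).trans (Nat.add_le_add_right hG 1)
  let F : ℕ → ℕ := fun r => (N - M.card).choose (j-r) * (k*j).descFactorial (j-r) * N^(k * N - (j-r))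
  let A : Finset V → Set (V → Fin k → V) := fun Ro =>
    {T' | ∃ J' ∈ Finset.powersetCard (j - Ro.card) Mᶜ, ∃ e : J' ↪ ((Ro ∪ J' : Finset V) × Fin k),
      ∀ z : J', T' (e z).1 (e z).2 = z}
  have hcover : ∀ T' ∈ {T' : V → Fin k → V | (reachSet (mix M T T') o \ M).card = j},
      ∃ Ro ∈ Z.powerset, T' ∈ A Ro := by
    intro T' hT'
    simp only [Set.mem_setOf_eq] at hT'
    set J := reachSet (mix M T T') o \ M with hJ
    have hdisj : J ∩ Z ∪ J \ Z = J := by
      ext x
      simp only [Finset.mem_union, Finset.mem_inter, Finset.mem_sdiff]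
      tauto
    refine ⟨J ∩ Z, Finset.mem_powerset.mpr Finset.inter_subset_right, J \ Z, ?_, ?_⟩
    · rw [Finset.mem_powersetCard]
      constructor
      · intro x hx
        rw [Finset.mem_sdiff] at hx
        rw [Finset.mem_compl]
        exact (Finset.mem_sdiff.mp hx.1).2
      · have := Finset.card_sdiff_add_card_inter J Z
        omega
    · have hex : ∀ z : (J \ Z : Finset V), ∃ p : ((J ∩ Z ∪ J \ Z : Finset V) × Fin k), T' p.1 p.2 = z := by
        rintro ⟨z, hz⟩
        rw [Finset.mem_sdiff] at hz
        obtain ⟨hzJ, hzZ⟩ := hz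
        have h1 : z ≠ o := fun h => hzZ (by rw [h]; exact Finset.mem_insert_self _ _)
        have h2 : z ∉ exits T M := fun h => hzZ (Finset.mem_insert_of_mem h)
        obtain ⟨u, hu, a, ha⟩ := step_of_reach o T T' M z hzJ h1 h2
        exact ⟨(⟨u, by rw [hdisj]; exact hu⟩, a), ha⟩
      choose e he using hex
      refine ⟨⟨e, ?_⟩, he⟩
      intro z1 z2 h12
      have a1 := he z1
      have a2 := he z2
      rw [h12] at a1
      exact Subtype.ext (a1.symm.trans a2)
  have hA : ∀ Ro ∈ Z.powerset, (A Ro).ncard ≤ ∑ r ∈ Finset.range (G+2), F r := by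
    intro Ro hRo
    have hr : Ro.card ≤ G + 1 := (Finset.card_le_card (Finset.mem_powerset.mp hRo)).trans hZcard
    have h1 : (A Ro).ncard ≤ F Ro.card := by
      have h2 : (A Ro).ncard ≤ ∑ J' ∈ Finset.powersetCard (j - Ro.card) Mᶜ,
          {T' : V → Fin k → V | ∃ e : J' ↪ ((Ro ∪ J' : Finset V) × Fin k),
            ∀ z : J', T' (e z).1 (e z).2 = z}.ncard := by
        apply ncard_le_sum_aux
        rintro T' ⟨J', hJ', e, he⟩
        exact ⟨J', hJ', e, he⟩
      refine h2.trans ?_
      have h3 : ∀ J' ∈ Finset.powersetCard (j - Ro.card) Mᶜ,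
          {T' : V → Fin k → V | ∃ e : J' ↪ ((Ro ∪ J' : Finset V) × Fin k),
            ∀ z : J', T' (e z).1 (e z).2 = z}.ncard
          ≤ (k*j).descFactorial (j-Ro.card) * N^(k * N - (j-Ro.card)) := by
        intro J' hJ'
        rw [Finset.mem_powersetCard] at hJ'
        have h4 : {T' : V → Fin k → V | ∃ e : J' ↪ ((Ro ∪ J' : Finset V) × Fin k),
            ∀ z : J', T' (e z).1 (e z).2 = z}.ncard
            ≤ ∑ e ∈ (Finset.univ : Finset (J' ↪ ((Ro ∪ J' : Finset V) × Fin k))),
              {T' : V → Fin k → V | ∀ z : J', T' (e z).1 (e z).2 = z}.ncard := by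
          apply ncard_le_sum_aux
          rintro T' ⟨e, he⟩
          exact ⟨e, Finset.mem_univ _, he⟩
        refine h4.trans ?_
        have h5 : ∀ e ∈ (Finset.univ : Finset (J' ↪ ((Ro ∪ J' : Finset V) × Fin k))),
            {T' : V → Fin k → V | ∀ z : J', T' (e z).1 (e z).2 = z}.ncard ≤ N^(k * N - (j-Ro.card)) := by
          intro e _
          have h6 := constrained_card V k J' (fun z => ((e z).1.1, (e z).2)) (by
            intro z1 z2 h12
            simp only [Prod.mk.injEq] at h12
            apply e.injective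
            exact Prod.ext (Subtype.ext h12.1) h12.2)
          rw [hJ'.2] at h6
          exact h6
        refine (Finset.sum_le_card_nsmul _ _ _ h5).trans ?_
        rw [smul_eq_mul, Finset.card_univ, Fintype.card_embedding_eq, Fintype.card_coe,
          Fintype.card_prod, Fintype.card_fin, Fintype.card_coe, hJ'.2]
        apply Nat.mul_le_mul_right
        by_cases hrj : Ro.card ≤ j
        · apply Nat.descFactorial_le
          have h7 : (Ro ∪ J').card ≤ j := (Finset.card_union_le _ _).trans (by rw [hJ'.2]; omega)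
          calc (Ro ∪ J').card * k ≤ j * k := Nat.mul_le_mul_right _ h7
            _ = k * j := Nat.mul_comm _ _
        · have h0 : j - Ro.card = 0 := by omega
          rw [h0]
          simp
      refine (Finset.sum_le_card_nsmul _ _ _ h3).trans ?_
      rw [smul_eq_mul, Finset.card_powersetCard, Finset.card_compl, ← hN]
      simp only [F]
      rw [Nat.mul_assoc]
    refine h1.trans ?_
    exact Finset.single_le_sum (f := F) (fun _ _ => Nat.zero_le _) (Finset.mem_range.mpr (by omega))
  refine (ncard_le_sum_aux _ Z.powerset A hcover).trans ?_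
  refine (Finset.sum_le_card_nsmul _ _ _ hA).trans ?_
  rw [smul_eq_mul, Finset.card_powerset]
  apply Nat.mul_le_mul_right
  exact Nat.pow_le_pow_right (by norm_num) hZcard


end J7678
alias outer_fixed := J7678.outer_fixed
end RA
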