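import Pool.Agent.Helper338.RA.Defs2
import Pool.Agent.Helper338.RA.J7677
import Pool.Agent.Helper338.RA.J7678
set_option autoImplicit false
namespace RA
variable {V : Type} {k : ℕ}
namespace J7679





open Classical in
theorem ncard_sum {A : Type} [Fintype A] (S : Set A) : S.ncard = ∑ x, if x ∈ S then 1 else 0 := by
  rw [Set.ncard_eq_toFinset_card', Finset.sum_boole, Nat.cast_id]
  congr 1
  ext x
  simp

theorem ncard_prod {A B : Type} [Fintype A] [Fintype B] (Q : A → B → Prop) :
    Set.ncard {x : A × B | Q x.1 x.2} = ∑ a, Set.ncard {b | Q a b} := by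
  classical
  rw [ncard_sum, Fintype.sum_prod_type]
  apply Finset.sum_congr rfl
  intro a _
  rw [ncard_sum]
  rfl

theorem mix_mem {V : Type} {k : ℕ} (M : Finset V) (T T' : V → Fin k → V) {u : V} (hu : u ∈ M) :
    mix M T T' u = T u := by
  unfold mix
  rw [if_pos hu]

theorem exits_mix {V : Type} [Fintype V] {k : ℕ} (M : Finset V) (T T' : V → Fin k → V) :
    exits (mix M T T') M = exits T M := by
  unfold exits
  ext z
  simp only [Finset.mem_filter, Finset.mem_univ, true_and]
  constructor
  · rintro ⟨h1, u, hu, a, ha⟩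
    rw [mix_mem M T T' hu] at ha
    exact ⟨h1, u, hu, a, ha⟩
  · rintro ⟨h1, u, hu, a, ha⟩
    refine ⟨h1, u, hu, a, ?_⟩
    rw [mix_mem M T T' hu]
    exact ha

-- TARGET
theorem outer_count (V : Type) [Fintype V] [DecidableEq V] (k : ℕ) (o : V)
    (Mf : (V → Fin k → V) → Finset V) (hloc : Local Mf) (s G j : ℕ) :
    Set.ncard {T : V → Fin k → V | (Mf T).card = s ∧ (exits T (Mf T)).card ≤ G ∧
        (reachSet T o \ Mf T).card = j}
      ≤ 2^(G+1) * ∑ r ∈ Finset.range (G+2), (Fintype.card V - s).choose (j-r)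
          * (k*j).descFactorial (j-r) * (Fintype.card V)^(k * Fintype.card V - (j-r)) := by
  classical
  set D : ℕ := (Fintype.card V) ^ (k * Fintype.card V) with hD
  set Bd : ℕ := 2^(G+1) * ∑ r ∈ Finset.range (G+2), (Fintype.card V - s).choose (j-r)
          * (k*j).descFactorial (j-r) * (Fintype.card V)^(k * Fintype.card V - (j-r)) with hBd
  have hN : 0 < Fintype.card V := Fintype.card_pos_iff.2 ⟨o⟩
  have hDpos : 0 < D := pow_pos hN _
  have h1 := resample V k Mf hloc (fun T => (Mf T).card = s ∧ (exits T (Mf T)).card ≤ G ∧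
        (reachSet T o \ Mf T).card = j)
  have hM : ∀ T T' : V → Fin k → V, Mf (mix (Mf T) T T') = Mf T := by
    intro T T'
    exact hloc T _ (fun u hu => mix_mem _ T T' hu)
  rw [ncard_prod (fun T T' : V → Fin k → V => (Mf (mix (Mf T) T T')).card = s ∧
    (exits (mix (Mf T) T T') (Mf (mix (Mf T) T T'))).card ≤ G ∧
        (reachSet (mix (Mf T) T T') o \ Mf (mix (Mf T) T T')).card = j)] at h1
  have h2 : ∀ T : V → Fin k → V, Set.ncard {T' : V → Fin k → V | (Mf (mix (Mf T) T T')).card = s ∧
      (exits (mix (Mf T) T T') (Mf (mix (Mf T) T T'))).card ≤ G ∧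
        (reachSet (mix (Mf T) T T') o \ Mf (mix (Mf T) T T')).card = j} ≤ Bd := by
    intro T
    by_cases hc : (Mf T).card = s ∧ (exits T (Mf T)).card ≤ G
    · obtain ⟨hs, hG⟩ := hc
      have h3 := outer_fixed V k o T (Mf T) G j hG
      rw [hs] at h3
      refine le_trans (Set.ncard_le_ncard ?_ (Set.toFinite _)) h3
      rintro T' ⟨-, -, h4⟩
      rw [hM] at h4
      exact h4
    · have h3 : {T' : V → Fin k → V | (Mf (mix (Mf T) T T')).card = s ∧
      (exits (mix (Mf T) T T') (Mf (mix (Mf T) T T'))).card ≤ G ∧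
        (reachSet (mix (Mf T) T T') o \ Mf (mix (Mf T) T T')).card = j} = ∅ := by
        rw [Set.eq_empty_iff_forall_notMem]
        rintro T' ⟨h4, h5, -⟩
        rw [hM] at h4 h5
        rw [exits_mix] at h5
        exact hc ⟨h4, h5⟩
      rw [h3, Set.ncard_empty]
      exact Nat.zero_le _
  have h3 := Finset.sum_le_sum (s := Finset.univ) (fun T (_ : T ∈ Finset.univ) => h2 T)
  rw [← h1, Finset.sum_const, smul_eq_mul, Finset.card_univ] at h3
  have h4 : Fintype.card (V → Fin k → V) = D := by
    rw [Fintype.card_fun, Fintype.card_fun, Fintype.card_fin, hD, ← pow_mul]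
  rw [h4, mul_comm D Bd] at h3
  exact Nat.le_of_mul_le_mul_right h3 hDpos


end J7679
alias outer_count := J7679.outer_count
end RA
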