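import Pool.Agent.Helper338.RA.Defs2
set_option autoImplicit false
namespace RA
variable {V : Type} {k : ℕ}
namespace J7680

theorem outer_term833 (k N s j r L : ℕ) (hk : 2 ≤ k) (hs : s ≤ N)
    (hs2 : ((1 - 0.95/2^k) * N : ℝ) < s) (hrL : r ≤ L + 1) (hrj : r ≤ j) (hjN : j ≤ N) :
    (((N - s).choose (j-r) * (k*j).descFactorial (j-r) * N^(k * N - (j-r)) : ℕ) : ℝ) ≤
      2 ^ ((k + 1) * (L + 1)) * (0.95 : ℝ) ^ j * (N : ℝ) ^ (k * N) := by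
  obtain ⟨a, ha⟩ : ∃ a, a = j - r := ⟨_, rfl⟩
  have hj : j = a + r := by omega
  rw [← ha]
  have hN0 : (0 : ℝ) ≤ N := Nat.cast_nonneg _
  have h1 : (N - s).choose a * (k*j).descFactorial a ≤ (N - s) ^ a * 2 ^ (k * j) := by
    rw [Nat.descFactorial_eq_factorial_mul_choose]
    have e : (N - s).choose a * (a.factorial * (k * j).choose a)
        = (a.factorial * (N - s).choose a) * (k * j).choose a := by ring
    rw [e, ← Nat.descFactorial_eq_factorial_mul_choose]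
    exact Nat.mul_le_mul (Nat.descFactorial_le_pow _ _) (Nat.choose_le_two_pow _ _)
  have h2 : (((N - s : ℕ) : ℝ)) ≤ (0.95 / 2 ^ k) * N := by
    rw [Nat.cast_sub hs]
    nlinarith
  have h3 : (((N - s : ℕ) : ℝ)) ^ a ≤ ((0.95 / 2 ^ k) * N) ^ a :=
    pow_le_pow_left₀ (Nat.cast_nonneg _) h2 a
  have h4 : a ≤ k * N := by nlinarith
  have h5 : (N : ℝ) ^ a * (N : ℝ) ^ (k * N - a) = (N : ℝ) ^ (k * N) := by
    rw [← pow_add]; congr 1; omega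
  have h6 : (0.95 / 2 ^ k : ℝ) ^ a * 2 ^ (k * j) = (0.95 : ℝ) ^ a * 2 ^ (k * r) := by
    have : (2 : ℝ) ^ (k * j) = (2 ^ k) ^ a * 2 ^ (k * r) := by
      rw [hj, mul_add, pow_add, pow_mul]
    rw [this, div_pow]
    have h7 : ((2 : ℝ) ^ k) ^ a ≠ 0 := by positivity
    field_simp
  have h8 : (1 : ℝ) ≤ (0.95 : ℝ) ^ r * 2 ^ r := by
    rw [← mul_pow]
    exact one_le_pow₀ (by norm_num)
  calc (((N - s).choose a * (k*j).descFactorial a * N^(k * N - a) : ℕ) : ℝ)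
      ≤ (((N - s) ^ a * 2 ^ (k * j) * N^(k * N - a) : ℕ) : ℝ) := by
        exact_mod_cast Nat.mul_le_mul_right _ h1
    _ = ((N - s : ℕ) : ℝ) ^ a * 2 ^ (k * j) * (N : ℝ) ^ (k * N - a) := by push_cast; ring
    _ ≤ ((0.95 / 2 ^ k) * N) ^ a * 2 ^ (k * j) * (N : ℝ) ^ (k * N - a) := by gcongr
    _ = ((0.95 / 2 ^ k : ℝ) ^ a * 2 ^ (k * j)) * ((N : ℝ) ^ a * (N : ℝ) ^ (k * N - a)) := by
        rw [mul_pow]; ring
    _ = ((0.95 : ℝ) ^ a * 2 ^ (k * r)) * (N : ℝ) ^ (k * N) := by rw [h5, h6]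
    _ ≤ ((0.95 : ℝ) ^ a * 2 ^ (k * r) * ((0.95 : ℝ) ^ r * 2 ^ r)) * (N : ℝ) ^ (k * N) := by
        have h9 : (0.95 : ℝ) ^ a * 2 ^ (k * r) ≤ (0.95 : ℝ) ^ a * 2 ^ (k * r) *
            ((0.95 : ℝ) ^ r * 2 ^ r) := le_mul_of_one_le_right (by positivity) h8
        exact mul_le_mul_of_nonneg_right h9 (by positivity)
    _ = (2 : ℝ) ^ ((k + 1) * r) * (0.95 : ℝ) ^ j * (N : ℝ) ^ (k * N) := by
        have e1 : (2 : ℝ) ^ ((k + 1) * r) = 2 ^ (k * r) * 2 ^ r := by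
          rw [← pow_add]; congr 1; ring
        have e2 : (0.95 : ℝ) ^ j = 0.95 ^ a * 0.95 ^ r := by rw [hj, pow_add]
        rw [e1, e2]; ring
    _ ≤ 2 ^ ((k + 1) * (L + 1)) * (0.95 : ℝ) ^ j * (N : ℝ) ^ (k * N) := by
        have : (2 : ℝ) ^ ((k + 1) * r) ≤ 2 ^ ((k + 1) * (L + 1)) :=
          pow_le_pow_right₀ (by norm_num) (Nat.mul_le_mul_left _ hrL)
        gcongr

-- TARGET
theorem outer_analysis (k : ℕ) (hk : 2 ≤ k) : ∃ C N0 : ℕ, ∀ N s j : ℕ, N0 ≤ N → s ≤ N →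
    ((1 - 0.95/2^k) * N : ℝ) < s → C * (Nat.log 2 N)^2 < j → j ≤ N →
    N^10 * (2^((Nat.log 2 N)^2+1) * ∑ r ∈ Finset.range ((Nat.log 2 N)^2+2), (N - s).choose (j-r)
          * (k*j).descFactorial (j-r) * N^(k * N - (j-r))) ≤ N^(k*N) := by
  refine ⟨14 * (2 * k + 26), 2, fun N s j hN hsN hs hCj hjN => ?_⟩
  obtain ⟨l, hl⟩ : ∃ l, l = Nat.log 2 N := ⟨_, rfl⟩
  rw [← hl] at hCj ⊢
  obtain ⟨L, hL⟩ : ∃ L, L = l ^ 2 := ⟨_, rfl⟩
  rw [← hL] at hCj ⊢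
  have hl1 : 1 ≤ l := by
    rw [hl]
    exact Nat.log_pos (by norm_num) hN
  have hL1 : 1 ≤ L := by rw [hL]; exact Nat.one_le_pow _ _ hl1
  have hlL : l ≤ L := by rw [hL]; nlinarith
  have hN2 : N < 2 ^ (l + 1) := by rw [hl]; exact Nat.lt_pow_succ_log_self (by norm_num) N
  have hNr : (N : ℝ) ≤ 2 ^ (l + 1) := by exact_mod_cast hN2.le
  have hN10 : (N : ℝ) ^ 10 ≤ 2 ^ (20 * L) := by
    calc (N : ℝ) ^ 10 ≤ (2 ^ (l + 1)) ^ 10 := pow_le_pow_left₀ (Nat.cast_nonneg _) hNr 10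
      _ = 2 ^ ((l + 1) * 10) := by rw [← pow_mul]
      _ ≤ 2 ^ (20 * L) := pow_le_pow_right₀ (by norm_num) (by omega)
  have hLp : ((L : ℝ) + 2) ≤ 2 ^ (L + 1) := by
    have : L + 1 < 2 ^ (L + 1) := Nat.lt_two_pow_self
    have h2 : L + 2 ≤ 2 ^ (L + 1) := this
    exact_mod_cast h2
  have hsum : (∑ r ∈ Finset.range (L + 2), (((N - s).choose (j-r)
          * (k*j).descFactorial (j-r) * N^(k * N - (j-r)) : ℕ) : ℝ)) ≤
      ((L : ℝ) + 2) * (2 ^ ((k + 1) * (L + 1)) * (0.95 : ℝ) ^ j * (N : ℝ) ^ (k * N)) := by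
    have h1 := Finset.sum_le_card_nsmul (Finset.range (L + 2)) (fun r => (((N - s).choose (j-r)
          * (k*j).descFactorial (j-r) * N^(k * N - (j-r)) : ℕ) : ℝ))
      (2 ^ ((k + 1) * (L + 1)) * (0.95 : ℝ) ^ j * (N : ℝ) ^ (k * N)) (fun r hr => by
        rw [Finset.mem_range] at hr
        refine outer_term833 k N s j r L hk hsN hs (by omega) ?_ hjN
        have : 2 * L ≤ 14 * (2 * k + 26) * L := Nat.mul_le_mul_right _ (by omega)
        omega)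
    rw [Finset.card_range, nsmul_eq_mul] at h1
    push_cast at h1 ⊢
    exact h1
  have hpow : (2 : ℝ) ^ (20 * L) * (2 ^ (L + 1) * (2 ^ (L + 1) * 2 ^ ((k + 1) * (L + 1)))) * (0.95 : ℝ) ^ j
      ≤ 1 := by
    have e1 : (2 : ℝ) ^ (20 * L) * (2 ^ (L + 1) * (2 ^ (L + 1) * 2 ^ ((k + 1) * (L + 1))))
        = 2 ^ (20 * L + (k + 3) * (L + 1)) := by
      rw [← pow_add, ← pow_add, ← pow_add]; congr 1; ring
    have e2 : (2 : ℝ) ^ (20 * L + (k + 3) * (L + 1)) ≤ 2 ^ ((2 * k + 26) * L) := by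
      refine pow_le_pow_right₀ (by norm_num) ?_
      nlinarith
    have e3 : (0.95 : ℝ) ^ j ≤ (1 / 2) ^ ((2 * k + 26) * L) := by
      calc (0.95 : ℝ) ^ j ≤ 0.95 ^ (14 * (2 * k + 26) * L) :=
            pow_le_pow_of_le_one (by norm_num) (by norm_num) hCj.le
        _ = (0.95 ^ 14) ^ ((2 * k + 26) * L) := by rw [← pow_mul]; congr 1; ring
        _ ≤ (1 / 2) ^ ((2 * k + 26) * L) := pow_le_pow_left₀ (by norm_num) (by norm_num) _
    rw [e1]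
    calc (2 : ℝ) ^ (20 * L + (k + 3) * (L + 1)) * (0.95 : ℝ) ^ j
        ≤ 2 ^ ((2 * k + 26) * L) * (1 / 2) ^ ((2 * k + 26) * L) :=
          mul_le_mul e2 e3 (by positivity) (by positivity)
      _ = 1 := by rw [← mul_pow]; norm_num
  have hfin : (N : ℝ) ^ 10 * (2 ^ (L + 1) * ∑ r ∈ Finset.range (L + 2), (((N - s).choose (j-r)
          * (k*j).descFactorial (j-r) * N^(k * N - (j-r)) : ℕ) : ℝ)) ≤ (N : ℝ) ^ (k * N) := by
    have hNk : (0 : ℝ) ≤ (N : ℝ) ^ (k * N) := by positivity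
    calc (N : ℝ) ^ 10 * (2 ^ (L + 1) * ∑ r ∈ Finset.range (L + 2), (((N - s).choose (j-r)
          * (k*j).descFactorial (j-r) * N^(k * N - (j-r)) : ℕ) : ℝ))
        ≤ 2 ^ (20 * L) * (2 ^ (L + 1) * (2 ^ (L + 1) * (2 ^ ((k + 1) * (L + 1)) * (0.95 : ℝ) ^ j
          * (N : ℝ) ^ (k * N)))) := by
          refine mul_le_mul hN10 ?_ (by positivity) (by positivity)
          refine mul_le_mul_of_nonneg_left ?_ (by positivity)
          exact hsum.trans (mul_le_mul_of_nonneg_right hLp (by positivity))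
      _ = (2 ^ (20 * L) * (2 ^ (L + 1) * (2 ^ (L + 1) * 2 ^ ((k + 1) * (L + 1)))) * (0.95 : ℝ) ^ j)
          * (N : ℝ) ^ (k * N) := by ring
      _ ≤ 1 * (N : ℝ) ^ (k * N) := mul_le_mul_of_nonneg_right hpow hNk
      _ = (N : ℝ) ^ (k * N) := one_mul _
  exact_mod_cast hfin


end J7680
alias outer_analysis := J7680.outer_analysis
end RA
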