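import Pool.Agent.Helper338.RA.Defs2
import Pool.Agent.Helper338.RA.J7679
import Pool.Agent.Helper338.RA.J7680
set_option autoImplicit false
namespace RA
variable {V : Type} {k : ℕ}
namespace J7681





-- TARGET
theorem outer (k : ℕ) (hk : 2 ≤ k) : ∃ C N0 : ℕ, ∀ (V : Type) [Fintype V] [DecidableEq V] (o : V)
    (Mf : (V → Fin k → V) → Finset V), Local Mf → N0 ≤ Fintype.card V →
    Set.ncard {T : V → Fin k → V |
        ((1 - 0.95/2^k) * Fintype.card V : ℝ) < (Mf T).card ∧
        (exits T (Mf T)).card ≤ (Nat.log 2 (Fintype.card V))^2 ∧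
        C * (Nat.log 2 (Fintype.card V))^2 < (reachSet T o \ Mf T).card} * (Fintype.card V)^8
      ≤ (Fintype.card V)^(k * Fintype.card V) := by
  classical
  obtain ⟨C, N0, h⟩ := outer_analysis k hk
  refine ⟨C, N0, ?_⟩
  intro V _ _ o Mf hloc hN
  have hpos : 0 < Fintype.card V := Fintype.card_pos_iff.mpr ⟨o⟩
  set N := Fintype.card V with hNdef
  set G := (Nat.log 2 N)^2 with hG
  set S : Finset (V → Fin k → V) := Finset.univ.filter (fun T =>
        ((1 - 0.95/2^k) * N : ℝ) < (Mf T).card ∧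
        (exits T (Mf T)).card ≤ G ∧
        C * G < (reachSet T o \ Mf T).card) with hS
  have e1 : {T : V → Fin k → V | ((1 - 0.95/2^k) * N : ℝ) < (Mf T).card ∧
        (exits T (Mf T)).card ≤ G ∧ C * G < (reachSet T o \ Mf T).card} = (S : Set (V → Fin k → V)) := by
    ext T
    simp [hS]
  rw [e1, Set.ncard_coe_finset]
  set P : Finset (ℕ × ℕ) := (Finset.Icc 1 N ×ˢ Finset.Icc 1 N).filter
    (fun b => ((1 - 0.95/2^k) * N : ℝ) < b.1 ∧ C * G < b.2) with hP
  have hPc : P.card ≤ N * N := by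
    refine (Finset.card_filter_le _ _).trans ?_
    rw [Finset.card_product, Nat.card_Icc]
    simp
  have hmaps : ∀ T ∈ S, ((Mf T).card, (reachSet T o \ Mf T).card) ∈ P := by
    intro T hT
    rw [hS, Finset.mem_filter] at hT
    obtain ⟨-, h1, h2, h3⟩ := hT
    rw [hP, Finset.mem_filter, Finset.mem_product, Finset.mem_Icc, Finset.mem_Icc]
    refine ⟨⟨⟨?_, Finset.card_le_univ _⟩, ⟨by dsimp only; omega, Finset.card_le_univ _⟩⟩, h1, h3⟩
    have h4 : (0:ℝ) ≤ (1 - 0.95/2^k) * N := by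
      apply mul_nonneg _ (Nat.cast_nonneg _)
      have h5 : (1:ℝ) ≤ 2^k := one_le_pow₀ (by norm_num)
      have h6 : (0.95:ℝ)/2^k ≤ 1 := by
        rw [div_le_one (by positivity)]
        linarith
      linarith
    have h7 : (0:ℝ) < (Mf T).card := lt_of_le_of_lt h4 h1
    have h8 : 0 < (Mf T).card := by exact_mod_cast h7
    exact h8
  have hfib := Finset.card_eq_sum_card_fiberwise hmaps
  have hb : ∀ b ∈ P, (S.filter (fun T => ((Mf T).card, (reachSet T o \ Mf T).card) = b)).card * N^10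
      ≤ N^(k*N) := by
    intro b hb
    rw [hP, Finset.mem_filter, Finset.mem_product, Finset.mem_Icc, Finset.mem_Icc] at hb
    obtain ⟨⟨⟨-, h1⟩, ⟨-, h2⟩⟩, h3, h4⟩ := hb
    have h5 := outer_count V k o Mf hloc b.1 G b.2
    have h6 := h N b.1 b.2 hN h1 h3 h4 h2
    have h7 : (S.filter (fun T => ((Mf T).card, (reachSet T o \ Mf T).card) = b)).card ≤
        Set.ncard {T : V → Fin k → V | (Mf T).card = b.1 ∧ (exits T (Mf T)).card ≤ G ∧
        (reachSet T o \ Mf T).card = b.2} := by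
      rw [← Set.ncard_coe_finset]
      apply Set.ncard_le_ncard _ (Set.toFinite _)
      intro T hT
      rw [Finset.mem_coe, Finset.mem_filter, hS, Finset.mem_filter] at hT
      obtain ⟨⟨-, -, h8, -⟩, h9⟩ := hT
      refine ⟨congrArg Prod.fst h9, h8, congrArg Prod.snd h9⟩
    calc _ ≤ (2^(G+1) * ∑ r ∈ Finset.range (G+2), (N - b.1).choose (b.2-r)
          * (k*b.2).descFactorial (b.2-r) * N^(k * N - (b.2-r))) * N^10 :=
          Nat.mul_le_mul_right _ (h7.trans h5)
      _ = N^10 * (2^(G+1) * ∑ r ∈ Finset.range (G+2), (N - b.1).choose (b.2-r)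
          * (k*b.2).descFactorial (b.2-r) * N^(k * N - (b.2-r))) := mul_comm _ _
      _ ≤ N^(k*N) := h6
  have htot : S.card * N^10 ≤ (N * N) * N^(k*N) := by
    rw [hfib, Finset.sum_mul]
    calc _ ≤ ∑ b ∈ P, N^(k*N) := Finset.sum_le_sum hb
      _ = P.card * N^(k*N) := by rw [Finset.sum_const, smul_eq_mul]
      _ ≤ (N * N) * N^(k*N) := Nat.mul_le_mul_right _ hPc
  have h9 : (N * N) * (S.card * N^8) ≤ (N * N) * N^(k*N) := by
    calc (N * N) * (S.card * N^8) = S.card * N^10 := by ring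
      _ ≤ _ := htot
  exact Nat.le_of_mul_le_mul_left h9 (Nat.mul_pos hpos hpos)


end J7681
alias outer := J7681.outer
end RA
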