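import Pool.Agent.Helper338.RA.Defs2
import Pool.Agent.Helper338.RA.J7584
import Pool.Agent.Helper338.RA.J7607
import Pool.Agent.Helper338.RA.J7610
import Pool.Agent.Helper338.RA.J7612
import Pool.Agent.Helper338.RA.J7676
import Pool.Agent.Helper338.RA.J7681
set_option autoImplicit false
namespace RA
variable {V : Type} {k : ℕ}
namespace J7682











-- TARGET
theorem uniform_bad (k : ℕ) [NeZero k] (hk : 2 ≤ k) : ∃ s0 C N0 : ℕ,
    ∀ (V : Type) [Fintype V] [DecidableEq V] (o : V), N0 ≤ Fintype.card V →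
    Set.ncard {T : V → Fin k → V | ∃ p q, p ≠ q ∧ s0 < (visited T p q).card ∧
        C * (Nat.log 2 (Fintype.card V))^2 < (reachSet T o \ visited T p q).card}
        * (Fintype.card V)^5
      ≤ (Fintype.card V)^(k * Fintype.card V) := by
  classical
  obtain ⟨s0, d, N1, hd, h1⟩ := smallmed k hk
  obtain ⟨N2, h2⟩ := exit_tail k
  obtain ⟨N3, h3⟩ := medium k d hk hd
  obtain ⟨C, N4, h4⟩ := outer k hk
  refine ⟨s0, C, N1 + N2 + N3 + N4 + 4, ?_⟩
  intro V _ _ o hN
  set N := Fintype.card V with hNdef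
  have hN1 : N1 ≤ N := by omega
  have hN2 : N2 ≤ N := by omega
  have hN3 : N3 ≤ N := by omega
  have hN4 : N4 ≤ N := by omega
  have h4N : 4 ≤ N := by omega
  set E : V × V → Set (V → Fin k → V) := fun pq => {T | pq.1 ≠ pq.2 ∧
    s0 < (visited T pq.1 pq.2).card ∧
    C * (Nat.log 2 N) ^ 2 < (reachSet T o \ visited T pq.1 pq.2).card} with hE
  have hbound : ∀ pq, (E pq).ncard * N ^ 8 ≤ 4 * N ^ (k * N) := by
    rintro ⟨p, q⟩
    by_cases hpq : p = q
    · have : E (p, q) = ∅ := by
        ext T; simp [hE, hpq]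
      rw [this]; simp
    · have b1 := h1 V hN1 p q hpq
      have b2 := h2 V hN2 p q hpq
      have b3 := h3 V (fun T => visited T p q) (visited_local p q) hN3
      have b4 := h4 V o (fun T => visited T p q) (visited_local p q) hN4
      simp only [← hNdef] at b1 b2 b3 b4
      set E1 : Set (V → Fin k → V) := {T : V → Fin k → V | ∃ M : Finset V, p ∈ M ∧ q ∈ M ∧
        s0 < M.card ∧ d * M.card ≤ N ∧ Closed T M ∧ Hits T M p q} with hE1
      set E2 : Set (V → Fin k → V) := {T : V → Fin k → V |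
        (Nat.log 2 N)^2 < (exits T (visited T p q)).card} with hE2
      set E3 : Set (V → Fin k → V) := {T : V → Fin k → V | N < d * (visited T p q).card ∧
        ((visited T p q).card : ℝ) ≤ (1 - 0.95/2^k) * N ∧
        (exits T (visited T p q)).card ≤ (Nat.log 2 N)^2} with hE3
      set E4 : Set (V → Fin k → V) := {T : V → Fin k → V |
        ((1 - 0.95/2^k) * N : ℝ) < (visited T p q).card ∧
        (exits T (visited T p q)).card ≤ (Nat.log 2 N)^2 ∧
        C * (Nat.log 2 N)^2 < (reachSet T o \ visited T p q).card} with hE4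
      have hsub : E (p, q) ⊆ (E1 ∪ E2) ∪ (E3 ∪ E4) := by
        rintro T ⟨_, hs, hr⟩
        simp only at hs hr
        by_cases c1 : d * (visited T p q).card ≤ N
        · exact Or.inl (Or.inl ⟨visited T p q, (visited_mem T p q).1, (visited_mem T p q).2, hs, c1,
            visited_closed T p q hpq, visited_hits T p q⟩)
        by_cases c2 : (Nat.log 2 N)^2 < (exits T (visited T p q)).card
        · exact Or.inl (Or.inr c2)
        by_cases c3 : ((visited T p q).card : ℝ) ≤ (1 - 0.95/2^k) * N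
        · exact Or.inr (Or.inl ⟨not_le.mp c1, c3, not_lt.mp c2⟩)
        · exact Or.inr (Or.inr ⟨not_le.mp c3, not_lt.mp c2, hr⟩)
      have hcard : (E (p, q)).ncard ≤ (E1.ncard + E2.ncard) + (E3.ncard + E4.ncard) := by
        refine (Set.ncard_le_ncard hsub (Set.toFinite _)).trans ?_
        refine (Set.ncard_union_le _ _).trans ?_
        exact add_le_add (Set.ncard_union_le _ _) (Set.ncard_union_le _ _)
      calc (E (p, q)).ncard * N ^ 8 ≤ ((E1.ncard + E2.ncard) + (E3.ncard + E4.ncard)) * N ^ 8 :=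
            Nat.mul_le_mul_right _ hcard
        _ = E1.ncard * N ^ 8 + E2.ncard * N ^ 8 + (E3.ncard * N ^ 8 + E4.ncard * N ^ 8) := by ring
        _ ≤ 4 * N ^ (k * N) := by omega
  have hsub : {T : V → Fin k → V | ∃ p q, p ≠ q ∧ s0 < (visited T p q).card ∧
        C * (Nat.log 2 N)^2 < (reachSet T o \ visited T p q).card} ⊆
      ⋃ pq ∈ (Finset.univ : Finset (V × V)), E pq := by
    rintro T ⟨p, q, hpq, hs, hr⟩
    simp only [Set.mem_iUnion]
    exact ⟨(p, q), Finset.mem_univ _, hpq, hs, hr⟩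
  have hc1 : {T : V → Fin k → V | ∃ p q, p ≠ q ∧ s0 < (visited T p q).card ∧
        C * (Nat.log 2 N)^2 < (reachSet T o \ visited T p q).card}.ncard ≤
      ∑ pq ∈ (Finset.univ : Finset (V × V)), (E pq).ncard :=
    (Set.ncard_le_ncard hsub (Set.toFinite _)).trans (Finset.set_ncard_biUnion_le _ _)
  have hNpos : 0 < N ^ 3 := by positivity
  apply Nat.le_of_mul_le_mul_right _ hNpos
  calc _ = {T : V → Fin k → V | ∃ p q, p ≠ q ∧ s0 < (visited T p q).card ∧
        C * (Nat.log 2 N)^2 < (reachSet T o \ visited T p q).card}.ncard * N ^ 8 := by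
          rw [mul_assoc, ← pow_add]
    _ ≤ (∑ pq ∈ (Finset.univ : Finset (V × V)), (E pq).ncard) * N ^ 8 :=
        Nat.mul_le_mul_right _ hc1
    _ = ∑ pq ∈ (Finset.univ : Finset (V × V)), (E pq).ncard * N ^ 8 := Finset.sum_mul _ _ _
    _ ≤ ∑ _pq ∈ (Finset.univ : Finset (V × V)), 4 * N ^ (k * N) :=
        Finset.sum_le_sum fun pq _ => hbound pq
    _ = N * N * (4 * N ^ (k * N)) := by
        rw [Finset.sum_const, Finset.card_univ, Fintype.card_prod, smul_eq_mul]
    _ = 4 * (N ^ 2 * N ^ (k * N)) := by ring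
    _ ≤ N * (N ^ 2 * N ^ (k * N)) := Nat.mul_le_mul_right _ h4N
    _ = N ^ (k * N) * N ^ 3 := by ring


end J7682
alias uniform_bad := J7682.uniform_bad
end RA
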