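import Pool.Agent.Helper338.RA.Defs2
import Pool.Agent.Helper338.RA.J7583
set_option autoImplicit false
namespace RA
variable {V : Type} {k : ℕ}
namespace J7683


theorem j4a_addOne {V W : Type} [DecidableEq V] [DecidableEq W] (ι : V ↪ W) (L : List (V × V))
    (z z' : V) : addOne (L.map (Prod.map ι ι)) (ι z) (ι z') =
      (addOne L z z').map (Prod.map ι ι) := by
  unfold addOne
  have hiff : ι z ∈ (L.map (Prod.map ι ι)).map Prod.fst ↔ z ∈ L.map Prod.fst := by
    simp only [List.mem_map]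
    constructor
    · rintro ⟨x, ⟨y, hy, rfl⟩, hx⟩
      exact ⟨y, hy, ι.injective hx⟩
    · rintro ⟨y, hy, rfl⟩
      exact ⟨Prod.map ι ι y, ⟨y, hy, rfl⟩, rfl⟩
  by_cases hz : z ∈ L.map Prod.fst
  · rw [if_pos hz, if_pos (hiff.2 hz)]
  · rw [if_neg hz, if_neg (fun h => hz (hiff.1 h)), List.map_append]
    rfl

theorem j4a_addPair {V W : Type} [DecidableEq V] [DecidableEq W] (ι : V ↪ W) (L : List (V × V))
    (z z' : V) : addPair (L.map (Prod.map ι ι)) (ι z) (ι z') =
      (addPair L z z').map (Prod.map ι ι) := by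
  unfold addPair
  by_cases hz : z = z'
  · rw [if_pos hz, if_pos (congrArg ι hz)]
  · rw [if_neg hz, if_neg (fun h => hz (ι.injective h)), j4a_addOne, j4a_addOne]

theorem j4a_expl {V W : Type} [DecidableEq V] [DecidableEq W] {k : ℕ} [NeZero k] (ι : V ↪ W)
    (T : V → Fin k → V) (T' : W → Fin k → W) (h : ∀ v a, T' (ι v) a = ι (T v a)) (p q : V)
    (t : ℕ) : expl T' (ι p) (ι q) t = (expl T p q t).map (Prod.map ι ι) := by
  induction t with
  | zero => rfl
  | succ t ih =>
    unfold expl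
    rw [ih, List.getElem?_map]
    cases hc : (expl T p q t)[t / k]? with
    | none => rfl
    | some uv =>
      obtain ⟨u, v⟩ := uv
      show addPair ((expl T p q t).map (Prod.map ι ι)) (T' (ι u) (Fin.ofNat k t))
        (T' (ι v) (Fin.ofNat k t)) = _
      rw [h, h, j4a_addPair]

-- TARGET
theorem visited_map (V W : Type) [Fintype V] [DecidableEq V] [Fintype W] [DecidableEq W] (k : ℕ)
    [NeZero k] (ι : V ↪ W) (T : V → Fin k → V) (T' : W → Fin k → W)
    (h : ∀ v a, T' (ι v) a = ι (T v a)) (p q : V) :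
    visited T' (ι p) (ι q) = (visited T p q).map ι := by
  have hcard : Fintype.card V ≤ Fintype.card W := Fintype.card_le_of_embedding ι
  unfold visited
  rw [j4a_expl ι T T' h, expl_stable T p q _ (Nat.mul_le_mul_left k hcard)]
  ext w
  simp only [List.mem_toFinset, List.mem_map, Finset.mem_map]
  constructor
  · rintro ⟨x, ⟨y, hy, rfl⟩, rfl⟩
    exact ⟨y.1, ⟨y, hy, rfl⟩, rfl⟩
  · rintro ⟨_, ⟨y, hy, rfl⟩, rfl⟩
    exact ⟨Prod.map ι ι y, ⟨y, hy, rfl⟩, rfl⟩

theorem j4a_run {V W : Type} {k : ℕ} (ι : V ↪ W) (T : V → Fin k → V) (T' : W → Fin k → W)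
    (h : ∀ v a, T' (ι v) a = ι (T v a)) (w : List (Fin k)) : ∀ o : V,
    run T' (ι o) w = ι (run T o w) := by
  induction w with
  | nil => intro o; rfl
  | cons a w ih =>
    intro o
    show run T' (T' (ι o) a) w = ι (run T (T o a) w)
    rw [h]
    exact ih _

-- TARGET
theorem reachSet_map (V W : Type) [Fintype V] [DecidableEq V] [Fintype W] [DecidableEq W] (k : ℕ)
    (ι : V ↪ W) (T : V → Fin k → V) (T' : W → Fin k → W)
    (h : ∀ v a, T' (ι v) a = ι (T v a)) (o : V) :
    reachSet T' (ι o) = (reachSet T o).map ι := by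
  classical
  unfold reachSet
  ext w
  simp only [Finset.mem_filter, Finset.mem_univ, true_and, Finset.mem_map]
  constructor
  · rintro ⟨l, rfl⟩
    exact ⟨run T o l, ⟨l, rfl⟩, (j4a_run ι T T' h l o).symm⟩
  · rintro ⟨_, ⟨l, rfl⟩, rfl⟩
    exact ⟨l, j4a_run ι T T' h l o⟩


end J7683
alias visited_map := J7683.visited_map
alias reachSet_map := J7683.reachSet_map
end RA
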