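import Pool.Agent.Helper338.RA.Defs2
import Pool.Agent.Helper338.RA.J7683
set_option autoImplicit false
namespace RA
variable {V : Type} {k : ℕ}
namespace J7704




/-- the extension of `T0` along the increasing enumeration of `S`. -/
noncomputable def extT {m m' k c : ℕ} (S : Finset (Fin (m'+1))) (hS : S.card = m + 1)
    (hSc : Sᶜ.card = c) (T0 : Fin (m+1) → Fin k → Fin (m+1))
    (g : Fin c → Fin k → Fin (m'+1)) : Fin (m'+1) → Fin k → Fin (m'+1) :=
  fun w => if hw : w ∈ S then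
      fun a => (S.orderIsoOfFin hS (T0 ((S.orderIsoOfFin hS).symm ⟨w, hw⟩) a) : Fin (m'+1))
    else g ((Sᶜ.orderIsoOfFin hSc).symm ⟨w, Finset.mem_compl.mpr hw⟩)

lemma extT_in {m m' k c : ℕ} (S : Finset (Fin (m'+1))) (hS : S.card = m + 1)
    (hSc : Sᶜ.card = c) (T0 : Fin (m+1) → Fin k → Fin (m+1))
    (g : Fin c → Fin k → Fin (m'+1)) (v : Fin (m+1)) (a : Fin k) :
    extT S hS hSc T0 g (S.orderEmbOfFin hS v) a = S.orderEmbOfFin hS (T0 v a) := by
  have hv : (S.orderEmbOfFin hS v) ∈ S := Finset.orderEmbOfFin_mem S hS v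
  have h2 : (⟨S.orderEmbOfFin hS v, hv⟩ : S) = S.orderIsoOfFin hS v := by
    apply Subtype.ext
    rw [Finset.coe_orderIsoOfFin_apply]
  unfold extT
  rw [dif_pos hv, h2, OrderIso.symm_apply_apply, Finset.coe_orderIsoOfFin_apply]

lemma extT_out {m m' k c : ℕ} (S : Finset (Fin (m'+1))) (hS : S.card = m + 1)
    (hSc : Sᶜ.card = c) (T0 : Fin (m+1) → Fin k → Fin (m+1))
    (g : Fin c → Fin k → Fin (m'+1)) (j : Fin c) :
    extT S hS hSc T0 g (Sᶜ.orderEmbOfFin hSc j) = g j := by
  have hv : (Sᶜ.orderEmbOfFin hSc j) ∈ Sᶜ := Finset.orderEmbOfFin_mem _ hSc j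
  have hv' : (Sᶜ.orderEmbOfFin hSc j) ∉ S := Finset.mem_compl.mp hv
  have h2 : (⟨Sᶜ.orderEmbOfFin hSc j, hv⟩ : (Sᶜ : Finset _)) = Sᶜ.orderIsoOfFin hSc j := by
    apply Subtype.ext
    rw [Finset.coe_orderIsoOfFin_apply]
  unfold extT
  rw [dif_neg hv', h2, OrderIso.symm_apply_apply]

lemma extT_zero {m m' : ℕ} (S : Finset (Fin (m'+1))) (hS : S.card = m + 1)
    (h0 : (0 : Fin (m'+1)) ∈ S) : S.orderEmbOfFin hS 0 = 0 := by
  have hr : (0 : Fin (m'+1)) ∈ Set.range (S.orderEmbOfFin hS) := by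
    rw [Finset.range_orderEmbOfFin]
    exact_mod_cast h0
  obtain ⟨v, hv⟩ := hr
  have h1 : S.orderEmbOfFin hS 0 ≤ S.orderEmbOfFin hS v :=
    (S.orderEmbOfFin hS).monotone (Fin.zero_le v)
  rw [hv] at h1
  exact le_antisymm h1 (Fin.zero_le _)

lemma extT_reach {m m' k c : ℕ} (S : Finset (Fin (m'+1))) (hS : S.card = m + 1)
    (hSc : Sᶜ.card = c) (h0 : (0 : Fin (m'+1)) ∈ S) (T0 : Fin (m+1) → Fin k → Fin (m+1))
    (g : Fin c → Fin k → Fin (m'+1)) (hT0 : Acc T0 0) :
    reachSet (extT S hS hSc T0 g) 0 = S := by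
  have h1 := reachSet_map (Fin (m+1)) (Fin (m'+1)) k (S.orderEmbOfFin hS).toEmbedding T0
    (extT S hS hSc T0 g) (fun v a => extT_in S hS hSc T0 g v a) 0
  have h2 : (S.orderEmbOfFin hS).toEmbedding 0 = 0 := extT_zero S hS h0
  rw [h2] at h1
  rw [h1]
  have h3 : reachSet T0 0 = Finset.univ := by
    ext q
    simp only [reachSet, Finset.mem_filter, Finset.mem_univ, true_and, iff_true]
    exact hT0 q
  rw [h3]
  ext x
  simp only [Finset.mem_map, Finset.mem_univ, true_and]
  constructor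
  · rintro ⟨v, rfl⟩
    exact Finset.orderEmbOfFin_mem S hS v
  · intro hx
    have hr : x ∈ Set.range (S.orderEmbOfFin hS) := by
      rw [Finset.range_orderEmbOfFin]
      exact_mod_cast hx
    obtain ⟨v, hv⟩ := hr
    exact ⟨v, hv⟩

-- TARGET
theorem embed_transfer (m m' k s0 t : ℕ) [NeZero k] (h : m ≤ m') :
    m'.choose m * Set.ncard {T : Fin (m+1) → Fin k → Fin (m+1) | Acc T 0 ∧
        ∃ p q, p ≠ q ∧ s0 < (visited T p q).card ∧ t < (reachSet T 0 \ visited T p q).card}
      * (m'+1)^(k*(m'-m))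
      ≤ Set.ncard {T : Fin (m'+1) → Fin k → Fin (m'+1) |
        ∃ p q, p ≠ q ∧ s0 < (visited T p q).card ∧ t < (reachSet T 0 \ visited T p q).card} := by
  classical
  set L : Set (Fin (m+1) → Fin k → Fin (m+1)) := {T | Acc T 0 ∧
        ∃ p q, p ≠ q ∧ s0 < (visited T p q).card ∧ t < (reachSet T 0 \ visited T p q).card} with hL
  set R : Set (Fin (m'+1) → Fin k → Fin (m'+1)) := {T |
        ∃ p q, p ≠ q ∧ s0 < (visited T p q).card ∧ t < (reachSet T 0 \ visited T p q).card} with hR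
  set I : Finset (Finset (Fin (m'+1))) := Finset.powersetCard m (Finset.univ.erase 0) with hI
  have hcI : I.card = m'.choose m := by
    rw [hI, Finset.card_powersetCard, Finset.card_erase_of_mem (Finset.mem_univ _),
      Finset.card_univ, Fintype.card_fin]
    rfl
  have hcard : ∀ S' ∈ I, (insert 0 S').card = m + 1 := by
    intro S' hS'
    rw [hI, Finset.mem_powersetCard] at hS'
    rw [Finset.card_insert_of_notMem, hS'.2]
    intro h0
    exact (Finset.mem_erase.mp (hS'.1 h0)).1 rfl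
  have hcardc : ∀ S' ∈ I, ((insert 0 S' : Finset (Fin (m'+1)))ᶜ).card = m' - m := by
    intro S' hS'
    rw [Finset.card_compl, hcard S' hS', Fintype.card_fin]
    omega
  -- the injection
  let Φ : {S' // S' ∈ I} × L × (Fin (m' - m) → Fin k → Fin (m'+1)) → R := fun x =>
    ⟨extT (insert 0 x.1.1) (hcard x.1.1 x.1.2) (hcardc x.1.1 x.1.2) x.2.1.1 x.2.2, by
      obtain ⟨⟨S', hS'⟩, ⟨T0, hT0⟩, g⟩ := x
      obtain ⟨hacc, p, q, hpq, hs, ht⟩ := hT0
      set S := insert (0 : Fin (m'+1)) S' with hSdef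
      set ι := (S.orderEmbOfFin (hcard S' hS')).toEmbedding with hι
      have hint : ∀ v a, extT S (hcard S' hS') (hcardc S' hS') T0 g (ι v) a = ι (T0 v a) :=
        fun v a => extT_in S (hcard S' hS') (hcardc S' hS') T0 g v a
      have hv := visited_map (Fin (m+1)) (Fin (m'+1)) k ι T0 _ hint p q
      have hr := reachSet_map (Fin (m+1)) (Fin (m'+1)) k ι T0 _ hint 0
      have h0 : ι 0 = 0 := extT_zero S (hcard S' hS') (Finset.mem_insert_self 0 S')
      rw [h0] at hr
      refine ⟨ι p, ι q, fun h => hpq (ι.injective h), ?_, ?_⟩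
      · rw [hv, Finset.card_map]
        exact hs
      · rw [hv, hr]
        have : (reachSet T0 0).map ι \ (visited T0 p q).map ι =
            (reachSet T0 0 \ visited T0 p q).map ι := by
          ext x
          simp only [Finset.mem_sdiff, Finset.mem_map]
          constructor
          · rintro ⟨⟨v, hv1, rfl⟩, hv2⟩
            exact ⟨v, ⟨hv1, fun h => hv2 ⟨v, h, rfl⟩⟩, rfl⟩
          · rintro ⟨v, ⟨hv1, hv2⟩, rfl⟩
            refine ⟨⟨v, hv1, rfl⟩, ?_⟩
            rintro ⟨w, hw, hwv⟩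
            exact hv2 (ι.injective hwv ▸ hw)
        rw [this, Finset.card_map]
        exact ht⟩
  have hΦ : Function.Injective Φ := by
    rintro ⟨⟨S', hS'⟩, ⟨T0, hT0⟩, g⟩ ⟨⟨S'', hS''⟩, ⟨T1, hT1⟩, g'⟩ hxy
    have hxy' : extT (insert 0 S') (hcard S' hS') (hcardc S' hS') T0 g =
        extT (insert 0 S'') (hcard S'' hS'') (hcardc S'' hS'') T1 g' := congrArg Subtype.val hxy
    have e1 := extT_reach (insert 0 S') (hcard S' hS') (hcardc S' hS')
      (Finset.mem_insert_self 0 S') T0 g hT0.1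
    have e2 := extT_reach (insert 0 S'') (hcard S'' hS'') (hcardc S'' hS'')
      (Finset.mem_insert_self 0 S'') T1 g' hT1.1
    rw [hxy', e2] at e1
    have hn' : (0 : Fin (m'+1)) ∉ S' := by
      intro h0
      rw [hI, Finset.mem_powersetCard] at hS'
      exact (Finset.mem_erase.mp (hS'.1 h0)).1 rfl
    have hn'' : (0 : Fin (m'+1)) ∉ S'' := by
      intro h0
      rw [hI, Finset.mem_powersetCard] at hS''
      exact (Finset.mem_erase.mp (hS''.1 h0)).1 rfl
    have hSS : S' = S'' := by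
      rw [← Finset.erase_insert hn', ← Finset.erase_insert hn'', e1]
    subst hSS
    have hT : T0 = T1 := by
      funext v a
      have h1 := extT_in (insert 0 S') (hcard S' hS') (hcardc S' hS') T0 g v a
      have h2 := extT_in (insert 0 S') (hcard S' hS') (hcardc S' hS') T1 g' v a
      rw [hxy', h2] at h1
      exact ((Finset.orderEmbOfFin _ _).injective h1).symm
    subst hT
    have hg : g = g' := by
      funext j
      have h1 := extT_out (insert 0 S') (hcard S' hS') (hcardc S' hS') T0 g j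
      have h2 := extT_out (insert 0 S') (hcard S' hS') (hcardc S' hS') T0 g' j
      rw [hxy', h2] at h1
      exact h1.symm
    subst hg
    rfl
  have hle := Nat.card_le_card_of_injective Φ hΦ
  have hcL : Nat.card L = Set.ncard L := rfl
  have hcR : Nat.card R = Set.ncard R := rfl
  rw [Nat.card_prod, Nat.card_prod, hcL, hcR] at hle
  have c1 : Nat.card {S' // S' ∈ I} = m'.choose m := by
    rw [Nat.card_eq_fintype_card, Fintype.card_coe, hcI]
  have c2 : Nat.card (Fin (m' - m) → Fin k → Fin (m'+1)) = (m'+1)^(k*(m'-m)) := by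
    rw [Nat.card_eq_fintype_card]
    simp [pow_mul]
  rw [c1, c2] at hle
  calc m'.choose m * Set.ncard L * (m'+1)^(k*(m'-m))
      = m'.choose m * (Set.ncard L * (m'+1)^(k*(m'-m))) := by ring
    _ ≤ Set.ncard R := hle


end J7704
alias embed_transfer := J7704.embed_transfer
end RA
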