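import Pool.Agent.Helper338.RA.Defs2
import Pool.Agent.Helper338.RA.J7582
import Pool.Agent.Helper338.RA.J7682
import Pool.Agent.Helper338.RA.J7704
set_option autoImplicit false
namespace RA
variable {V : Type} {k : ℕ}
namespace J7731






-- TARGET
theorem acc_bad (k : ℕ) [NeZero k] (hk : 2 ≤ k) : ∃ s0 C m0 : ℕ, ∀ m, m0 ≤ m →
    m * Set.ncard {T : Fin (m+1) → Fin k → Fin (m+1) | Acc T 0 ∧
        ∃ p q, p ≠ q ∧ s0 < (visited T p q).card ∧
          C * (Nat.log 2 (m+1) + 1)^2 < (Finset.univ \ visited T p q).card}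
      ≤ Set.ncard {T : Fin (m+1) → Fin k → Fin (m+1) | Acc T 0} := by
  classical
  obtain ⟨s0, C1, N0, hU⟩ := uniform_bad k hk
  refine ⟨s0, 16 * C1, N0 + k + 1, ?_⟩
  intro m hm
  obtain ⟨m', hmm', hm4, htr⟩ := transfer_exists m k (by omega) hk
  have hlog : Nat.log 2 (m' + 1) ≤ 4 * (Nat.log 2 (m + 1) + 1) := by
    have h1 : m + 1 < 2 ^ (Nat.log 2 (m + 1) + 1) := Nat.lt_pow_succ_log_self (by norm_num) _
    have h2 : (m + 1) ^ 4 < (2 ^ (Nat.log 2 (m + 1) + 1)) ^ 4 := Nat.pow_lt_pow_left h1 (by norm_num)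
    rw [← pow_mul] at h2
    have h3 : m' + 1 < 2 ^ ((Nat.log 2 (m + 1) + 1) * 4) := lt_of_le_of_lt hm4 h2
    have h4 := Nat.log_lt_of_lt_pow (by omega) h3
    omega
  have hlog2 : C1 * (Nat.log 2 (m' + 1)) ^ 2 ≤ 16 * C1 * (Nat.log 2 (m + 1) + 1) ^ 2 := by
    have := Nat.pow_le_pow_left hlog 2
    calc C1 * (Nat.log 2 (m' + 1)) ^ 2 ≤ C1 * (4 * (Nat.log 2 (m + 1) + 1)) ^ 2 :=
          Nat.mul_le_mul_left _ this
      _ = _ := by ring
  set A := Set.ncard {T : Fin (m+1) → Fin k → Fin (m+1) | Acc T 0} with hA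
  set B := Set.ncard {T : Fin (m+1) → Fin k → Fin (m+1) | Acc T 0 ∧
        ∃ p q, p ≠ q ∧ s0 < (visited T p q).card ∧
          16 * C1 * (Nat.log 2 (m+1) + 1)^2 < (Finset.univ \ visited T p q).card} with hB
  set B' := Set.ncard {T : Fin (m+1) → Fin k → Fin (m+1) | Acc T 0 ∧
        ∃ p q, p ≠ q ∧ s0 < (visited T p q).card ∧
          C1 * (Nat.log 2 (m' + 1))^2 < (reachSet T 0 \ visited T p q).card} with hB'
  have hBB : B ≤ B' := by
    apply Set.ncard_le_ncard _ (Set.toFinite _)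
    rintro T ⟨hacc, p, q, hpq, hs, ht⟩
    refine ⟨hacc, p, q, hpq, hs, ?_⟩
    have hr : reachSet T 0 = Finset.univ := by
      ext z
      simp only [reachSet, Finset.mem_filter, Finset.mem_univ, true_and, iff_true]
      exact hacc z
    rw [hr]
    exact lt_of_le_of_lt hlog2 ht
  have h1 := embed_transfer m m' k s0 (C1 * (Nat.log 2 (m' + 1))^2) hmm'
  rw [← hB'] at h1
  have h2 := hU (Fin (m' + 1)) 0 (by rw [Fintype.card_fin]; omega)
  rw [Fintype.card_fin] at h2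
  set U := Set.ncard {T : Fin (m'+1) → Fin k → Fin (m'+1) |
        ∃ p q, p ≠ q ∧ s0 < (visited T p q).card ∧
          C1 * (Nat.log 2 (m' + 1))^2 < (reachSet T 0 \ visited T p q).card} with hUU
  set X := (m' + 1) ^ (k * (m' - m)) with hX
  have hXpos : 0 < X := by positivity
  have hchoose : 0 < m'.choose m := Nat.choose_pos hmm'
  have hNpos : 0 < (m' + 1) ^ 2 := by positivity
  have h3 : B' * (m' + 1) ^ 3 ≤ k * A := by
    have hpos : 0 < (m'.choose m * X) * (m' + 1) ^ 2 := by positivity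
    apply Nat.le_of_mul_le_mul_right _ hpos
    calc B' * (m' + 1) ^ 3 * ((m'.choose m * X) * (m' + 1) ^ 2)
        = (m'.choose m * B' * X) * (m' + 1) ^ 5 := by ring
      _ ≤ U * (m' + 1) ^ 5 := Nat.mul_le_mul_right _ h1
      _ ≤ (m' + 1) ^ (k * (m' + 1)) := h2
      _ ≤ k*(m'+1)^2 * (m'.choose m * A * X) := htr
      _ = k * A * ((m'.choose m * X) * (m' + 1) ^ 2) := by ring
  have hkpos : 0 < k := by omega
  apply Nat.le_of_mul_le_mul_right _ hkpos
  have h4 : m * k ≤ (m' + 1) ^ 3 := by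
    have e1 : m ≤ m' + 1 := by omega
    have e2 : k ≤ m' + 1 := by omega
    calc m * k ≤ (m' + 1) * (m' + 1) := Nat.mul_le_mul e1 e2
      _ ≤ (m' + 1) * (m' + 1) * (m' + 1) := Nat.le_mul_of_pos_right _ (by omega)
      _ = (m' + 1) ^ 3 := by ring
  calc m * B * k = B * (m * k) := by ring
    _ ≤ B' * (m' + 1) ^ 3 := Nat.mul_le_mul hBB h4
    _ ≤ k * A := h3
    _ = A * k := mul_comm _ _


end J7731
alias acc_bad := J7731.acc_bad
end RA
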