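import Pool.Agent.Helper338.RA.Defs2
import Pool.Agent.Helper338.RA.J7563
import Pool.Agent.Helper338.RA.J7564
set_option autoImplicit false
namespace RA
variable {V : Type} {k : ℕ}
namespace J7734



/-- index type of the patterns -/
abbrev PIdx (k s0 : ℕ) : Type :=
  Σ s : Fin (s0 + 1), Σ h : Fin (k * s0 + 1),
    (Fin (s : ℕ) → Fin k → Fin (s : ℕ) ⊕ Fin (h : ℕ)) × Finset (Fin (s : ℕ) × Fin k)

/-- the set of triples of a pattern -/
def Trip (V : Type) (k s h : ℕ) (o : V) (tgt : Fin s → Fin k → Fin s ⊕ Fin h)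
    (F : Finset (Fin s × Fin k)) : Set ((V → Fin k → V) × (Fin s → V) × (Fin h → V)) :=
  {x : (V → Fin k → V) × (Fin s → V) × (Fin h → V) |
        Function.Injective x.2.1 ∧
        (∀ i a, x.1 (x.2.1 i) a = Sum.elim x.2.1 x.2.2 (tgt i a)) ∧
        (∀ T' : V → Fin k → V, (∀ v, (∀ i, v ≠ x.2.1 i) → T' v = x.1 v) →
          (∀ i a, (i, a) ∈ F → T' (x.2.1 i) a = x.1 (x.2.1 i) a) → Acc T' o)}

/-- admissible patterns -/
def PGood (k s h : ℕ) (tgt : Fin s → Fin k → Fin s ⊕ Fin h) (F : Finset (Fin s × Fin k)) : Prop :=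
  2 * h + 2 ≤ k * s ∧ Set.InjOn (fun x : Fin s × Fin k => tgt x.1 x.2) (F : Set (Fin s × Fin k)) ∧
    ∃ rank : Fin s → ℕ, ∀ x ∈ F, ∀ j, tgt x.1 x.2 = Sum.inl j → rank x.1 < rank j

theorem trip_bound (V : Type) [Fintype V] [DecidableEq V] (k s h : ℕ) (hk : 2 ≤ k) (o : V)
    (tgt : Fin s → Fin k → Fin s ⊕ Fin h) (F : Finset (Fin s × Fin k)) (hg : PGood k s h tgt F) :
    Fintype.card V * (Trip V k s h o tgt F).ncard ≤ Set.ncard {T : V → Fin k → V | Acc T o} := by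
  obtain ⟨hh, hinj, rank, hrank⟩ := hg
  have h1 := pattern_count V k s h o tgt F rank hinj hrank
  have h1' : (Trip V k s h o tgt F).ncard * (Fintype.card V) ^ (k * s)
      ≤ Set.ncard {T : V → Fin k → V | Acc T o} * (Fintype.card V) ^ (s + h) := h1
  have hn : 0 < Fintype.card V := Fintype.card_pos_iff.2 ⟨o⟩
  have h2 : s + h + 1 ≤ k * s := by nlinarith
  have h3 : (Fintype.card V) ^ (s + h + 1) ≤ (Fintype.card V) ^ (k * s) :=
    Nat.pow_le_pow_right hn h2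
  have h4 : (Fintype.card V * (Trip V k s h o tgt F).ncard) * (Fintype.card V) ^ (s + h)
      ≤ Set.ncard {T : V → Fin k → V | Acc T o} * (Fintype.card V) ^ (s + h) := by
    refine le_trans (le_of_eq ?_) ((Nat.mul_le_mul_left _ h3).trans h1')
    rw [pow_succ]
    ring
  exact Nat.le_of_mul_le_mul_right h4 (Nat.pow_pos hn)

-- TARGET
theorem small_struct (k s0 : ℕ) (hk : 2 ≤ k) : ∃ C : ℕ, ∀ (V : Type) [Fintype V] [DecidableEq V]
    (o : V),
    Fintype.card V * Set.ncard {T : V → Fin k → V | Acc T o ∧ ∃ M : Finset V, M.card ≤ s0 ∧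
        Closed T M ∧ ∃ u ∈ M, ∃ v ∈ M, ∃ a, T u a ≠ T v a ∧ T u a ∈ M ∧ T v a ∈ M}
      ≤ C * Set.ncard {T : V → Fin k → V | Acc T o} := by
  classical
  refine ⟨Fintype.card (PIdx k s0), ?_⟩
  intro V _ _ o
  let S : PIdx k s0 → Set (V → Fin k → V) := fun i =>
    {T | PGood k i.1 i.2.1 i.2.2.1 i.2.2.2 ∧
      ∃ (m : Fin (i.1 : ℕ) → V) (e : Fin (i.2.1 : ℕ) → V),
        (T, m, e) ∈ Trip V k i.1 i.2.1 o i.2.2.1 i.2.2.2}
  have hsub : {T : V → Fin k → V | Acc T o ∧ ∃ M : Finset V, M.card ≤ s0 ∧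
        Closed T M ∧ ∃ u ∈ M, ∃ v ∈ M, ∃ a, T u a ≠ T v a ∧ T u a ∈ M ∧ T v a ∈ M} ⊆
      ⋃ i, S i := by
    rintro T ⟨hT, M, hM0, hM, hne⟩
    obtain ⟨h, tgt, F, rank, m, e, h1, h2, h3, h4, h5, h6⟩ :=
      pattern_exists V k o T hT M hM hne
    have hh : h < k * s0 + 1 := by
      have := Nat.mul_le_mul_left k hM0
      omega
    rw [Set.mem_iUnion]
    exact ⟨⟨⟨M.card, by omega⟩, ⟨⟨h, hh⟩, (tgt, F)⟩⟩, ⟨h1, h2, rank, h3⟩, m, e, h4, h5, h6⟩
  have hS : ∀ i, Fintype.card V * (S i).ncard ≤ Set.ncard {T : V → Fin k → V | Acc T o} := by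
    intro i
    by_cases hg : PGood k i.1 i.2.1 i.2.2.1 i.2.2.2
    · refine le_trans (Nat.mul_le_mul_left _ ?_) (trip_bound V k i.1 i.2.1 hk o i.2.2.1 i.2.2.2 hg)
      have h1 : S i ⊆ Prod.fst '' (Trip V k i.1 i.2.1 o i.2.2.1 i.2.2.2) := by
        rintro T ⟨_, m, e, hme⟩
        exact ⟨(T, m, e), hme, rfl⟩
      exact (Set.ncard_le_ncard h1 (Set.toFinite _)).trans (Set.ncard_image_le (Set.toFinite _))
    · have h1 : S i = ∅ := by
        rw [Set.eq_empty_iff_forall_notMem]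
        rintro T ⟨h2, _⟩
        exact hg h2
      rw [h1, Set.ncard_empty, Nat.mul_zero]
      exact Nat.zero_le _
  have h1 : Set.ncard {T : V → Fin k → V | Acc T o ∧ ∃ M : Finset V, M.card ≤ s0 ∧
        Closed T M ∧ ∃ u ∈ M, ∃ v ∈ M, ∃ a, T u a ≠ T v a ∧ T u a ∈ M ∧ T v a ∈ M} ≤
      ∑ i, (S i).ncard :=
    (Set.ncard_le_ncard hsub (Set.toFinite _)).trans (Set.ncard_iUnion_le_of_fintype S)
  refine (Nat.mul_le_mul_left _ h1).trans ?_
  rw [Finset.mul_sum]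
  refine (Finset.sum_le_sum (fun i _ => hS i)).trans ?_
  rw [Finset.sum_const, Finset.card_univ, smul_eq_mul]


end J7734
alias small_struct := J7734.small_struct
end RA
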