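import Pool.Agent.Helper338.RA.Defs2
set_option autoImplicit false
namespace RA
variable {V : Type} {k : ℕ}
namespace J7736

-- TARGET
theorem congr_count (V : Type) [Fintype V] [DecidableEq V] [Nonempty V] (k : ℕ) (r : V → V)
    (hr : ∀ u, r (r u) = r u) (D H : ℕ) (hD : 1 ≤ D) :
    Set.ncard {T : V → Fin k → V | (∀ u a, r (T u a) = r (T (r u) a)) ∧
        (Finset.univ.filter (fun u => r u ≠ u ∧
          D < ∏ a, (Finset.univ.filter (fun v => r v = r (T (r u) a))).card)).card ≤ H}
      ≤ (Fintype.card V)^(k * (Finset.univ.filter (fun u => r u = u)).card)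
        * D^((Finset.univ.filter (fun u => r u ≠ u)).card) * (Fintype.card V)^(k*H) := by
  classical
  set N := Fintype.card V with hN
  have hNpos : 1 ≤ N := Fintype.card_pos
  let P : (V → Fin k → V) → Prop := fun T => (∀ u a, r (T u a) = r (T (r u) a)) ∧
        (Finset.univ.filter (fun u => r u ≠ u ∧
          D < ∏ a, (Finset.univ.filter (fun v => r v = r (T (r u) a))).card)).card ≤ H
  let S : Finset (V → Fin k → V) := Finset.univ.filter P
  have hS : {T : V → Fin k → V | P T} = (S : Set (V → Fin k → V)) := by
    ext T; simp [S]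
  show Set.ncard {T : V → Fin k → V | P T} ≤ _
  rw [hS, Set.ncard_coe_finset]
  let f : (V → Fin k → V) → ({u : V // r u = u} → Fin k → V) := fun T u => T u
  have hfib : ∀ A ∈ S.image f, (S.filter (fun T => f T = A)).card ≤
      D^((Finset.univ.filter (fun u => r u ≠ u)).card) * N^(k*H) := by
    intro A hA
    obtain ⟨T0, hT0, rfl⟩ := Finset.mem_image.mp hA
    have hP0 : P T0 := (Finset.mem_filter.mp hT0).2
    let c : V → ℕ := fun u => ∏ a, (Finset.univ.filter (fun v => r v = r (T0 (r u) a))).card
    let F : V → Finset (Fin k → V) := fun u => if r u = u then {T0 u} else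
      Fintype.piFinset (fun a => Finset.univ.filter (fun v => r v = r (T0 (r u) a)))
    have hsub : S.filter (fun T => f T = f T0) ⊆ Fintype.piFinset F := by
      intro T hT
      rw [Finset.mem_filter] at hT
      have hPT : P T := (Finset.mem_filter.mp hT.1).2
      rw [Fintype.mem_piFinset]
      intro u
      simp only [F]
      split_ifs with hu
      · rw [Finset.mem_singleton]
        exact congrFun hT.2 ⟨u, hu⟩
      · rw [Fintype.mem_piFinset]
        intro a
        rw [Finset.mem_filter]
        refine ⟨Finset.mem_univ _, ?_⟩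
        rw [hPT.1 u a]
        have : T (r u) = T0 (r u) := congrFun hT.2 ⟨r u, hr u⟩
        rw [this]
    refine (Finset.card_le_card hsub).trans ?_
    rw [Fintype.card_piFinset]
    have hcN : ∀ u, c u ≤ N ^ k := by
      intro u
      calc c u ≤ ∏ _a : Fin k, N := Finset.prod_le_prod' fun a _ => Finset.card_le_univ _
        _ = N ^ k := by simp
    have hpt : ∀ u, (F u).card ≤ (if r u ≠ u then D else 1) *
        (if r u ≠ u ∧ D < c u then N ^ k else 1) := by
      intro u
      simp only [F]
      by_cases hu : r u = u
      · rw [if_pos hu, if_neg (not_not.mpr hu), if_neg (fun h => h.1 hu)]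
        simp
      · rw [if_neg hu, if_pos hu, Fintype.card_piFinset]
        by_cases hc : D < c u
        · rw [if_pos ⟨hu, hc⟩]
          exact (hcN u).trans (Nat.le_mul_of_pos_left _ hD)
        · rw [if_neg (fun h => hc h.2), mul_one]
          exact not_lt.mp hc
    refine (Finset.prod_le_prod' fun u _ => hpt u).trans ?_
    rw [Finset.prod_mul_distrib]
    have h1 : ∏ u : V, (if r u ≠ u then D else 1) =
        D ^ ((Finset.univ.filter (fun u => r u ≠ u)).card) := by
      rw [← Finset.prod_filter, Finset.prod_const]
    have h2 : ∏ u : V, (if r u ≠ u ∧ D < c u then N ^ k else 1) =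
        (N ^ k) ^ ((Finset.univ.filter (fun u => r u ≠ u ∧ D < c u)).card) := by
      rw [← Finset.prod_filter, Finset.prod_const]
    rw [h1, h2, pow_mul]
    exact Nat.mul_le_mul_left _ (Nat.pow_le_pow_right (Nat.one_le_pow _ _ hNpos) hP0.2)
  have h3 := Finset.card_le_mul_card_image (f := f) S _ hfib
  have h4 : (S.image f).card ≤ N ^ (k * (Finset.univ.filter (fun u => r u = u)).card) := by
    refine (Finset.card_le_univ _).trans (le_of_eq ?_)
    rw [Fintype.card_fun, Fintype.card_fun, Fintype.card_fin, ← pow_mul, Fintype.card_subtype]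
  calc S.card ≤ _ := h3
    _ ≤ D^((Finset.univ.filter (fun u => r u ≠ u)).card) * N^(k*H) *
        N ^ (k * (Finset.univ.filter (fun u => r u = u)).card) := Nat.mul_le_mul_left _ h4
    _ = _ := by ring


end J7736
alias congr_count := J7736.congr_count
end RA
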