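import Pool.Agent.Helper338.RA.Defs2
set_option autoImplicit false
namespace RA
variable {V : Type} {k : ℕ}
namespace J7737

-- TARGET
theorem heavy_bound (V : Type) [Fintype V] [DecidableEq V] (k : ℕ) (T : V → Fin k → V) (f : V)
    (r : V → V) (hr : ∀ u, r (r u) = r u) (hf : ∀ u, r u = f → u = f)
    (hdist : ∀ w w', r w = w → r w' = w' → w ≠ f → w' ≠ f →
      (∀ a, r (T w a) = r (T w' a)) → w = w')
    (D B : ℕ) (hB : ∀ v, (Finset.univ.filter (fun x => r x = r v)).card ≤ B) :
    (Finset.univ.filter (fun u => r u ≠ u ∧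
        D < ∏ a, (Finset.univ.filter (fun v => r v = r (T (r u) a))).card)).card * D^2
      ≤ B * (∑ v, (Finset.univ.filter (fun x => r x = r v)).card)^k := by
  classical
  set cc : V → ℕ := fun w => (Finset.univ.filter (fun v => r v = w)).card with hcc
  set W : Finset V := Finset.univ.filter (fun w => r w = w ∧ w ≠ f ∧ D < ∏ a, cc (r (T w a))) with hW
  set H : Finset V := Finset.univ.filter (fun u => r u ≠ u ∧
        D < ∏ a, (Finset.univ.filter (fun v => r v = r (T (r u) a))).card) with hH
  set R : Finset V := Finset.univ.filter (fun w => r w = w) with hR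
  have hmaps : ∀ u ∈ H, r u ∈ W := by
    intro u hu
    rw [hH, Finset.mem_filter] at hu
    rw [hW, Finset.mem_filter]
    refine ⟨Finset.mem_univ _, hr u, ?_, hu.2.2⟩
    intro h
    have h1 := hf u h
    exact hu.2.1 (h.trans h1.symm)
  have h1 : H.card ≤ B * W.card := by
    rw [Finset.card_eq_sum_card_fiberwise hmaps]
    calc _ ≤ ∑ w ∈ W, B := by
            refine Finset.sum_le_sum fun w hw => ?_
            rw [hW, Finset.mem_filter] at hw
            refine le_trans (Finset.card_le_card ?_) (hB w)
            intro u hu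
            rw [Finset.mem_filter] at hu ⊢
            exact ⟨Finset.mem_univ _, by rw [hu.2, hw.2.1]⟩
      _ = B * W.card := by rw [Finset.sum_const, smul_eq_mul, mul_comm]
  have hsum : (∑ v, (Finset.univ.filter (fun x => r x = r v)).card) = ∑ w ∈ R, cc w ^ 2 := by
    have hm : ∀ v ∈ (Finset.univ : Finset V), r v ∈ R := by
      intro v _
      rw [hR, Finset.mem_filter]
      exact ⟨Finset.mem_univ _, hr v⟩
    rw [← Finset.sum_fiberwise_of_maps_to hm]
    refine Finset.sum_congr rfl fun w _ => ?_
    calc (∑ v ∈ Finset.univ.filter (fun v => r v = w), (Finset.univ.filter (fun x => r x = r v)).card)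
        = ∑ v ∈ Finset.univ.filter (fun v => r v = w), cc w := by
            refine Finset.sum_congr rfl fun v hv => ?_
            rw [Finset.mem_filter] at hv
            rw [hv.2]
      _ = cc w ^ 2 := by rw [Finset.sum_const, smul_eq_mul, pow_two]
  have h2 : W.card * D^2 ≤ (∑ w ∈ R, cc w ^ 2)^k := by
    have h3 : (∑ w ∈ R, cc w ^ 2)^k = ∑ τ ∈ Fintype.piFinset (fun _ : Fin k => R), ∏ a, cc (τ a) ^ 2 := by
      have h4 := Finset.prod_univ_sum (fun _ : Fin k => R) (fun (_ : Fin k) w => cc w ^ 2)
      rw [← h4, Finset.prod_const, Finset.card_univ, Fintype.card_fin]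
    rw [h3]
    have hinj : Set.InjOn (fun w : V => fun a : Fin k => r (T w a)) (W : Set V) := by
      intro w hw w' hw' h
      rw [Finset.mem_coe, hW, Finset.mem_filter] at hw hw'
      exact hdist w w' hw.2.1 hw'.2.1 hw.2.2.1 hw'.2.2.1 (fun a => congrFun h a)
    calc W.card * D^2 = ∑ w ∈ W, D^2 := by rw [Finset.sum_const, smul_eq_mul]
      _ ≤ ∑ w ∈ W, ∏ a, cc (r (T w a)) ^ 2 := by
          refine Finset.sum_le_sum fun w hw => ?_
          rw [hW, Finset.mem_filter] at hw
          rw [Finset.prod_pow]
          exact Nat.pow_le_pow_left hw.2.2.2.le 2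
      _ = ∑ τ ∈ W.image (fun w : V => fun a : Fin k => r (T w a)), ∏ a, cc (τ a) ^ 2 := by
          rw [Finset.sum_image hinj]
      _ ≤ _ := by
          apply Finset.sum_le_sum_of_subset
          intro τ hτ
          rw [Finset.mem_image] at hτ
          obtain ⟨w, -, rfl⟩ := hτ
          rw [Fintype.mem_piFinset]
          intro a
          rw [hR, Finset.mem_filter]
          exact ⟨Finset.mem_univ _, hr _⟩
  rw [hsum]
  calc H.card * D^2 ≤ (B * W.card) * D^2 := Nat.mul_le_mul_right _ h1
    _ = B * (W.card * D^2) := by ring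
    _ ≤ _ := Nat.mul_le_mul_left _ h2


end J7737
alias heavy_bound := J7737.heavy_bound
end RA
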