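import Pool.Agent.Helper338.RA.Defs2
import Pool.Agent.Helper338.RA.J7736
import Pool.Agent.Helper338.RA.J7737
set_option autoImplicit false
namespace RA
variable {V : Type} {k : ℕ}
namespace J7743





theorem asymp833 (k : ℕ) (hk : 2 ≤ k) : ∃ n0 : ℕ, ∀ N : ℕ, n0 ≤ N →
    N ^ (1 + k * ((Nat.sqrt (N * (Nat.log 2 N + 1) ^ 3) + 1) * 2 ^ 48
      * (1 + (Nat.log 2 N + 1) ^ 3) ^ k)) ≤ 2 ^ N := by
  -- constants
  obtain ⟨K, hK⟩ : ∃ K, K = 3 * k + 4 := ⟨_, rfl⟩
  obtain ⟨C, hC⟩ : ∃ C, C = 6 * 2 ^ 48 * k * 2 ^ k := ⟨_, rfl⟩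
  have hC0 : 0 < C := by rw [hC]; positivity
  have hev : ∃ h0 : ℕ, ∀ h : ℕ, h0 ≤ h → C * (4 * h) ^ K ≤ 2 ^ h := by
    have ht := tendsto_pow_const_div_const_pow_of_one_lt K (r := (2 : ℝ)) (by norm_num)
    have hpos : (0 : ℝ) < 1 / (C * 4 ^ K) := by positivity
    obtain ⟨h0, hh⟩ := Filter.eventually_atTop.mp (ht.eventually (gt_mem_nhds hpos))
    refine ⟨h0, fun h hle => ?_⟩
    have h1 := hh h hle
    rw [div_lt_div_iff₀ (by positivity) (by positivity), one_mul] at h1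
    have h2 : ((C * (4 * h) ^ K : ℕ) : ℝ) ≤ ((2 ^ h : ℕ) : ℝ) := by
      push_cast
      rw [mul_pow]
      nlinarith
    exact_mod_cast h2
  obtain ⟨h0, hh⟩ := hev
  refine ⟨2 ^ (2 * h0 + 2), fun N hN => ?_⟩
  obtain ⟨l, hl⟩ : ∃ l, l = Nat.log 2 N := ⟨_, rfl⟩
  rw [← hl]
  have hN0 : N ≠ 0 := by
    have : 0 < 2 ^ (2 * h0 + 2) := by positivity
    omega
  have hl1 : 2 * h0 + 2 ≤ l := by
    rw [hl]
    exact Nat.le_log_of_pow_le (by norm_num) hN
  have hN2 : N < 2 ^ (l + 1) := by rw [hl]; exact Nat.lt_pow_succ_log_self (by norm_num) N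
  have hNl : 2 ^ l ≤ N := by rw [hl]; exact Nat.pow_log_le_self 2 hN0
  obtain ⟨y, hy⟩ : ∃ y, y = l + 1 := ⟨_, rfl⟩
  rw [← hy] at hN2 ⊢
  have hy1 : 1 ≤ y := by omega
  obtain ⟨s, hs⟩ : ∃ s, s = Nat.sqrt N := ⟨_, rfl⟩
  have hs1 : 2 ^ (l / 2) ≤ s := by
    rw [hs, Nat.le_sqrt]
    calc 2 ^ (l / 2) * 2 ^ (l / 2) = 2 ^ (l / 2 + l / 2) := by rw [pow_add]
      _ ≤ 2 ^ l := Nat.pow_le_pow_right (by norm_num) (by omega)
      _ ≤ N := hNl
  have hs2 : s * s ≤ N := by rw [hs]; exact Nat.sqrt_le N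
  have hs3 : N < (s + 1) * (s + 1) := by rw [hs]; exact Nat.lt_succ_sqrt N
  have hs11 : 1 ≤ s := (Nat.one_le_two_pow).trans hs1
  have hy3 : 1 ≤ y ^ 3 := Nat.one_le_pow _ _ hy1
  have hCy : C * y ^ K ≤ s := by
    have h1 : y ≤ 4 * (l / 2) := by omega
    calc C * y ^ K ≤ C * (4 * (l / 2)) ^ K := Nat.mul_le_mul_left _ (Nat.pow_le_pow_left h1 K)
      _ ≤ 2 ^ (l / 2) := hh _ (by omega)
      _ ≤ s := hs1
  have hB1 : Nat.sqrt (N * y ^ 3) ≤ (s + 1) * y ^ 3 := by
    have h1 : N * y ^ 3 ≤ ((s + 1) * y ^ 3) * ((s + 1) * y ^ 3) := by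
      calc N * y ^ 3 ≤ ((s + 1) * (s + 1)) * (y ^ 3 * y ^ 3) :=
            Nat.mul_le_mul hs3.le (Nat.le_mul_of_pos_left _ hy3)
        _ = ((s + 1) * y ^ 3) * ((s + 1) * y ^ 3) := by ring
    calc Nat.sqrt (N * y ^ 3) ≤ Nat.sqrt (((s + 1) * y ^ 3) * ((s + 1) * y ^ 3)) :=
          Nat.sqrt_le_sqrt h1
      _ = (s + 1) * y ^ 3 := Nat.sqrt_eq _
  have hB2 : Nat.sqrt (N * y ^ 3) + 1 ≤ 3 * (s * y ^ 3) := by
    have h1 : 1 ≤ s * y ^ 3 := Nat.mul_pos hs11 hy3
    have h2 : y ^ 3 ≤ s * y ^ 3 := Nat.le_mul_of_pos_left _ hs11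
    have h3 : (s + 1) * y ^ 3 = s * y ^ 3 + y ^ 3 := by ring
    omega
  have hP : (1 + y ^ 3) ^ k ≤ 2 ^ k * y ^ (3 * k) := by
    calc (1 + y ^ 3) ^ k ≤ (2 * y ^ 3) ^ k := Nat.pow_le_pow_left (by omega) k
      _ = 2 ^ k * y ^ (3 * k) := by rw [mul_pow, ← pow_mul]
  have hE : 1 + k * ((Nat.sqrt (N * y ^ 3) + 1) * 2 ^ 48 * (1 + y ^ 3) ^ k)
      ≤ C * s * y ^ (3 * k + 3) := by
    have h1 : (Nat.sqrt (N * y ^ 3) + 1) * 2 ^ 48 * (1 + y ^ 3) ^ k
        ≤ 3 * (s * y ^ 3) * 2 ^ 48 * (2 ^ k * y ^ (3 * k)) :=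
      Nat.mul_le_mul (Nat.mul_le_mul_right _ hB2) hP
    have h2 : 1 ≤ k * (3 * (s * y ^ 3) * 2 ^ 48 * (2 ^ k * y ^ (3 * k))) := by
      have : 0 < k := by omega
      have hs' : 0 < s := hs11
      have hy' : 0 < y := hy1
      refine Nat.succ_le_of_lt ?_
      positivity
    calc 1 + k * ((Nat.sqrt (N * y ^ 3) + 1) * 2 ^ 48 * (1 + y ^ 3) ^ k)
        ≤ k * (3 * (s * y ^ 3) * 2 ^ 48 * (2 ^ k * y ^ (3 * k)))
          + k * (3 * (s * y ^ 3) * 2 ^ 48 * (2 ^ k * y ^ (3 * k))) :=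
          Nat.add_le_add h2 (Nat.mul_le_mul_left _ h1)
      _ = C * s * y ^ (3 * k + 3) := by rw [hC, pow_add]; ring
  calc N ^ (1 + k * ((Nat.sqrt (N * y ^ 3) + 1) * 2 ^ 48 * (1 + y ^ 3) ^ k))
      ≤ (2 ^ y) ^ (C * s * y ^ (3 * k + 3)) :=
        (Nat.pow_le_pow_left hN2.le _).trans (Nat.pow_le_pow_right (by positivity) hE)
    _ = 2 ^ (y * (C * s * y ^ (3 * k + 3))) := by rw [← pow_mul]
    _ ≤ 2 ^ N := by
        refine Nat.pow_le_pow_right (by norm_num) ?_
        calc y * (C * s * y ^ (3 * k + 3)) = (C * y ^ K) * s := by rw [hK]; ring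
          _ ≤ s * s := Nat.mul_le_mul_right _ hCy
          _ ≤ N := hs2

section rep833

variable {V : Type} {k : ℕ}

theorem LE_refl833 (T : V → Fin k → V) (f p : V) : LE T f p p := fun _ => Iff.rfl
theorem LE_symm833 {T : V → Fin k → V} {f p q : V} (h : LE T f p q) : LE T f q p :=
  fun w => (h w).symm
theorem LE_trans833 {T : V → Fin k → V} {f p q r : V} (h : LE T f p q) (h' : LE T f q r) :
    LE T f p r := fun w => (h w).trans (h' w)
theorem LE_step833 {T : V → Fin k → V} {f p q : V} (h : LE T f p q) (a : Fin k) :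
    LE T f (T p a) (T q a) := fun w => h (a :: w)

/-- a system of representatives -/
theorem exists_rep833 (T : V → Fin k → V) (f : V) : ∃ r : V → V, (∀ u, LE T f u (r u)) ∧
    (∀ u v, LE T f u v → r u = r v) := by
  let s : Setoid V := ⟨LE T f, ⟨LE_refl833 T f, fun h => LE_symm833 h, fun h h' => LE_trans833 h h'⟩⟩
  refine ⟨fun u => (Quotient.mk s u).out, fun u => ?_, fun u v h => ?_⟩
  · exact LE_symm833 (Quotient.mk_out (s := s) u)
  · have : Quotient.mk s u = Quotient.mk s v := Quotient.sound h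
    show (Quotient.mk s u).out = (Quotient.mk s v).out
    rw [this]

variable [Fintype V] [DecidableEq V]

theorem rep_facts833 {T : V → Fin k → V} {f : V} {r : V → V} (h1 : ∀ u, LE T f u (r u))
    (h2 : ∀ u v, LE T f u v → r u = r v) :
    (∀ u, r (r u) = r u) ∧ (∀ u v, r u = r v ↔ LE T f u v) ∧ (∀ u, r u = f → u = f) ∧
    (∀ u a, r (T u a) = r (T (r u) a)) ∧
    (∀ w w', r w = w → r w' = w' → w ≠ f → w' ≠ f → (∀ a, r (T w a) = r (T w' a)) → w = w') := by
  have hiff : ∀ u v, r u = r v ↔ LE T f u v := fun u v => by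
    constructor
    · intro h
      have h3 := h1 u
      rw [h] at h3
      exact LE_trans833 h3 (LE_symm833 (h1 v))
    · exact h2 u v
  refine ⟨fun u => (h2 _ _ (h1 u)).symm, hiff, ?_, ?_, ?_⟩
  · intro u hu
    have h3 := h1 u []
    rw [hu] at h3
    exact h3.mpr rfl
  · intro u a
    exact h2 _ _ (LE_step833 (h1 u) a)
  · intro w w' hw hw' hwf hwf' h
    rw [← hw, ← hw']
    apply h2
    intro x
    cases x with
    | nil => exact ⟨fun h => absurd h hwf, fun h => absurd h hwf'⟩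
    | cons a x => exact (hiff _ _).mp (h a) x

/-- counting ordered pairs -/
theorem sum_class833 (r : V → V) (A : Set (V × V))
    (hA : ∀ y, y ∈ A ↔ y.1 ≠ y.2 ∧ r y.1 = r y.2) :
    ∑ v, (Finset.univ.filter (fun x => r x = r v)).card ≤ Fintype.card V + A.ncard := by
  classical
  have e1 : ∑ v, (Finset.univ.filter (fun x => r x = r v)).card
      = (Finset.univ.filter (fun p : V × V => r p.1 = r p.2)).card := by
    simp only [Finset.card_filter]
    rw [Fintype.sum_prod_type_right]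
  rw [e1]
  have e2 : (Finset.univ.filter (fun p : V × V => r p.1 = r p.2)) ⊆
      (Finset.univ.image (fun v : V => (v, v))) ∪ A.toFinset := by
    intro p hp
    rw [Finset.mem_filter] at hp
    rw [Finset.mem_union, Finset.mem_image, Set.mem_toFinset, hA]
    by_cases h : p.1 = p.2
    · left
      exact ⟨p.1, Finset.mem_univ _, Prod.ext rfl h⟩
    · right
      exact ⟨h, hp.2⟩
  calc _ ≤ _ := Finset.card_le_card e2
    _ ≤ _ := Finset.card_union_le _ _
    _ ≤ Fintype.card V + A.ncard := by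
      refine Nat.add_le_add ?_ ?_
      · exact Finset.card_image_le.trans (le_of_eq Finset.card_univ)
      · rw [Set.ncard_eq_toFinset_card']

theorem class_le833 (r : V → V) (A : Set (V × V))
    (hA : ∀ y, y ∈ A ↔ y.1 ≠ y.2 ∧ r y.1 = r y.2) (v : V) {M : ℕ} (hM : A.ncard ≤ M) :
    (Finset.univ.filter (fun x => r x = r v)).card ≤ Nat.sqrt M + 1 := by
  classical
  obtain ⟨S, hS⟩ : ∃ S, S = Finset.univ.filter (fun x => r x = r v) := ⟨_, rfl⟩
  rw [← hS]
  have h1 : S.offDiag ⊆ A.toFinset := by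
    intro p hp
    rw [Finset.mem_offDiag, hS, Finset.mem_filter, Finset.mem_filter] at hp
    rw [Set.mem_toFinset, hA]
    exact ⟨hp.2.2, hp.1.2.trans hp.2.1.2.symm⟩
  have h2 := Finset.card_le_card h1
  rw [Finset.offDiag_card, ← Set.ncard_eq_toFinset_card'] at h2
  have h3 : (S.card - 1) * (S.card - 1) ≤ M := by
    refine le_trans ?_ (h2.trans hM)
    cases hc : S.card with
    | zero => simp
    | succ n =>
      rw [Nat.add_sub_cancel]
      have : (n + 1) * (n + 1) - (n + 1) = n * n + n := by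
        have e : (n + 1) * (n + 1) = n * n + n + (n + 1) := by ring
        rw [e, Nat.add_sub_cancel]
      rw [this]
      omega
  have h4 : S.card - 1 ≤ Nat.sqrt M := Nat.le_sqrt.mpr h3
  omega

theorem nonrep833 (r : V → V) (hrr : ∀ u, r (r u) = r u) (P : Set V)
    (hP : ∀ u, u ∈ P → ∃ v, v ≠ u ∧ r u = r v) :
    P.ncard ≤ 2 * (Finset.univ.filter (fun u => r u ≠ u)).card := by
  classical
  choose! g hg using hP
  have h1 : P.toFinset ⊆ (Finset.univ.filter (fun u => r u ≠ u)) ∪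
      (P.toFinset.filter (fun u => r u = u)) := by
    intro u hu
    rw [Finset.mem_union, Finset.mem_filter, Finset.mem_filter]
    by_cases h : r u = u
    · right; exact ⟨hu, h⟩
    · left; exact ⟨Finset.mem_univ _, h⟩
  have h2 : (P.toFinset.filter (fun u => r u = u)).card ≤
      (Finset.univ.filter (fun u => r u ≠ u)).card := by
    refine Finset.card_le_card_of_injOn g ?_ ?_
    · intro u hu
      have hu' : u ∈ P ∧ r u = u := by
        have := Finset.mem_coe.mp hu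
        rw [Finset.mem_filter, Set.mem_toFinset] at this
        exact this
      have h3 := hg u hu'.1
      rw [Finset.mem_coe, Finset.mem_filter]
      refine ⟨Finset.mem_univ _, fun h4 => h3.1 ?_⟩
      rw [← h4, ← h3.2, hu'.2]
    · intro u hu u' hu' he
      have hu1 : u ∈ P ∧ r u = u := by
        have := Finset.mem_coe.mp hu
        rw [Finset.mem_filter, Set.mem_toFinset] at this
        exact this
      have hu2 : u' ∈ P ∧ r u' = u' := by
        have := Finset.mem_coe.mp hu'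
        rw [Finset.mem_filter, Set.mem_toFinset] at this
        exact this
      have h3 := (hg u hu1.1).2
      have h4 := (hg u' hu2.1).2
      rw [← hu1.2, ← hu2.2, h3, h4, he]
  have h3 := (Finset.card_le_card h1).trans (Finset.card_union_le _ _)
  rw [← Set.ncard_eq_toFinset_card'] at h3
  omega

/-- maps with a given set of moved points -/
theorem maps833 (S : Finset V) :
    (Finset.univ.filter (fun r : V → V => Finset.univ.filter (fun u => r u ≠ u) = S)).card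
      ≤ Fintype.card V ^ S.card := by
  classical
  have h1 : Fintype.card (S → V) = Fintype.card V ^ S.card := by
    rw [Fintype.card_fun, Fintype.card_coe]
  rw [← h1, ← Finset.card_univ]
  refine Finset.card_le_card_of_injOn (fun r => fun u : S => r u) (fun _ _ => Finset.mem_univ _) ?_
  intro r hr r' hr' he
  have e1 : Finset.univ.filter (fun u => r u ≠ u) = S := by
    have := Finset.mem_coe.mp hr
    rw [Finset.mem_filter] at this
    exact this.2
  have e2 : Finset.univ.filter (fun u => r' u ≠ u) = S := by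
    have := Finset.mem_coe.mp hr'
    rw [Finset.mem_filter] at this
    exact this.2
  funext u
  by_cases hu : u ∈ S
  · exact congrFun he ⟨u, hu⟩
  · have h3 : r u = u := by
      by_contra h
      apply hu
      rw [← e1, Finset.mem_filter]
      exact ⟨Finset.mem_univ _, h⟩
    have h4 : r' u = u := by
      by_contra h
      apply hu
      rw [← e2, Finset.mem_filter]
      exact ⟨Finset.mem_univ _, h⟩
    rw [h3, h4]

/-- sum over maps grouped by moved points -/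
theorem sum_maps833 (g : ℕ → ℕ) (R : Finset (V → V)) (Q : ℕ → Prop) [DecidablePred Q]
    (hR : ∀ r ∈ R, Q (Finset.univ.filter (fun u => r u ≠ u)).card) :
    ∑ r ∈ R, g (Finset.univ.filter (fun u => r u ≠ u)).card ≤
      ∑ S ∈ (Finset.univ : Finset (Finset V)).filter (fun S => Q S.card),
        Fintype.card V ^ S.card * g S.card := by
  classical
  rw [← Finset.sum_fiberwise_of_maps_to (s := R)
    (t := (Finset.univ : Finset (Finset V)).filter (fun S => Q S.card))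
    (g := fun r => Finset.univ.filter (fun u => r u ≠ u)) (fun r hr => by
      rw [Finset.mem_filter]; exact ⟨Finset.mem_univ _, hR r hr⟩)]
  refine Finset.sum_le_sum (fun S _ => ?_)
  have h1 : ∑ r ∈ R.filter (fun r => Finset.univ.filter (fun u => r u ≠ u) = S),
      g (Finset.univ.filter (fun u => r u ≠ u)).card
      = ∑ r ∈ R.filter (fun r => Finset.univ.filter (fun u => r u ≠ u) = S), g S.card := by
    refine Finset.sum_congr rfl (fun r hr => ?_)
    rw [Finset.mem_filter] at hr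
    rw [hr.2]
  rw [h1, Finset.sum_const, smul_eq_mul]
  refine Nat.mul_le_mul_right _ ?_
  refine (Finset.card_le_card ?_).trans (maps833 S)
  intro r hr
  rw [Finset.mem_filter] at hr ⊢
  exact ⟨Finset.mem_univ _, hr.2⟩

end rep833

theorem term833 {N m k D H : ℕ} (hk : 2 ≤ k) (hm : m ≤ N) (hNm : N ≤ 4 * m)
    (hD3 : D * 2 ^ 23 ≤ N ^ (k - 1)) (hH : N ^ (1 + k * H) ≤ 2 ^ N) :
    (N * (N ^ m * (N ^ (k * (N - m)) * D ^ m * N ^ (k * H)))) * (8 ^ N * 2 ^ N) ≤ N ^ (k * N) := by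
  have e1 : (N * (N ^ m * (N ^ (k * (N - m)) * D ^ m * N ^ (k * H)))) * (8 ^ N * 2 ^ N)
      = (N ^ m * D ^ m * N ^ (k * (N - m))) * (N ^ (1 + k * H) * (8 ^ N * 2 ^ N)) := by
    rw [pow_add, pow_one]; ring
  have e2 : N ^ (1 + k * H) * (8 ^ N * 2 ^ N) ≤ 2 ^ (23 * m) := by
    calc N ^ (1 + k * H) * (8 ^ N * 2 ^ N) ≤ 2 ^ N * (8 ^ N * 2 ^ N) := Nat.mul_le_mul_right _ hH
      _ = 2 ^ (5 * N) := by
        have : (8 : ℕ) ^ N = 2 ^ (3 * N) := by rw [pow_mul]; norm_num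
        rw [this, ← pow_add, ← pow_add]; congr 1; ring
      _ ≤ 2 ^ (23 * m) := Nat.pow_le_pow_right (by norm_num) (by omega)
  have e3 : N ^ m * D ^ m * 2 ^ (23 * m) ≤ N ^ (k * m) := by
    calc N ^ m * D ^ m * 2 ^ (23 * m) = (N * (D * 2 ^ 23)) ^ m := by
          rw [mul_pow, mul_pow, ← pow_mul]; ring
      _ ≤ (N * N ^ (k - 1)) ^ m := Nat.pow_le_pow_left (Nat.mul_le_mul_left _ hD3) m
      _ = N ^ (k * m) := by
        have : N * N ^ (k - 1) = N ^ k := by
          rw [← pow_succ']; congr 1; omega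
        rw [this, pow_mul]
  rw [e1]
  calc (N ^ m * D ^ m * N ^ (k * (N - m))) * (N ^ (1 + k * H) * (8 ^ N * 2 ^ N))
      ≤ (N ^ m * D ^ m * N ^ (k * (N - m))) * 2 ^ (23 * m) := Nat.mul_le_mul_left _ e2
    _ = (N ^ m * D ^ m * 2 ^ (23 * m)) * N ^ (k * (N - m)) := by ring
    _ ≤ N ^ (k * m) * N ^ (k * (N - m)) := Nat.mul_le_mul_right _ e3
    _ = N ^ (k * N) := by
      rw [← pow_add, ← mul_add]; congr 2; omega

theorem heavy_le833 {N k D B ρ hv S : ℕ} (hk : 2 ≤ k) (hN : 1 ≤ N) (hD2 : N ^ (k - 1) ≤ D * 2 ^ 24)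
    (h : hv * D ^ 2 ≤ B * S ^ k) (hS : S ≤ N * (1 + ρ)) : hv ≤ B * 2 ^ 48 * (1 + ρ) ^ k := by
  have h1 : N ^ k ≤ (D * 2 ^ 24) ^ 2 := by
    calc N ^ k ≤ N ^ ((k - 1) * 2) := Nat.pow_le_pow_right hN (by omega)
      _ = (N ^ (k - 1)) ^ 2 := by rw [pow_mul]
      _ ≤ (D * 2 ^ 24) ^ 2 := Nat.pow_le_pow_left hD2 2
  have h2 : hv * N ^ k ≤ (B * 2 ^ 48 * (1 + ρ) ^ k) * N ^ k := by
    calc hv * N ^ k ≤ hv * (D * 2 ^ 24) ^ 2 := Nat.mul_le_mul_left _ h1
      _ = (hv * D ^ 2) * 2 ^ 48 := by rw [mul_pow, ← pow_mul]; ring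
      _ ≤ (B * S ^ k) * 2 ^ 48 := Nat.mul_le_mul_right _ h
      _ ≤ (B * (N * (1 + ρ)) ^ k) * 2 ^ 48 :=
        Nat.mul_le_mul_right _ (Nat.mul_le_mul_left _ (Nat.pow_le_pow_left hS k))
      _ = (B * 2 ^ 48 * (1 + ρ) ^ k) * N ^ k := by rw [mul_pow]; ring
  exact Nat.le_of_mul_le_mul_right h2 (by positivity)

-- TARGET
theorem congr_bound (k : ℕ) (hk : 2 ≤ k) : ∃ n0 : ℕ, ∀ (V : Type) [Fintype V] [DecidableEq V],
    n0 ≤ Fintype.card V →
    Set.ncard {x : (V → Fin k → V) × V |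
        Set.ncard {y : V × V | y.1 ≠ y.2 ∧ LE x.1 x.2 y.1 y.2}
          ≤ Fintype.card V * (Nat.log 2 (Fintype.card V) + 1)^3 ∧
        Fintype.card V ≤ 2 * Set.ncard {u : V | ∃ v, v ≠ u ∧ LE x.1 x.2 u v}}
        * 8^(Fintype.card V)
      ≤ (Fintype.card V)^(k * Fintype.card V) := by
  classical
  obtain ⟨n1, hn1⟩ := asymp833 k hk
  refine ⟨max n1 (2 ^ 24), fun V _ _ hV => ?_⟩
  obtain ⟨N, hN⟩ : ∃ N, N = Fintype.card V := ⟨_, rfl⟩
  rw [← hN] at hV ⊢
  have hN24 : 2 ^ 24 ≤ N := (le_max_right _ _).trans hV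
  have hN1 : 1 ≤ N := (Nat.one_le_two_pow).trans hN24
  have hne : Nonempty V := by
    rw [← Fintype.card_pos_iff, ← hN]; exact hN1
  obtain ⟨ρ, hρ⟩ : ∃ ρ, ρ = (Nat.log 2 N + 1) ^ 3 := ⟨_, rfl⟩
  obtain ⟨B, hB⟩ : ∃ B, B = Nat.sqrt (N * ρ) + 1 := ⟨_, rfl⟩
  obtain ⟨H, hH⟩ : ∃ H, H = B * 2 ^ 48 * (1 + ρ) ^ k := ⟨_, rfl⟩
  obtain ⟨D, hD⟩ : ∃ D, D = N ^ (k - 1) / 2 ^ 24 + 1 := ⟨_, rfl⟩
  have hHN : N ^ (1 + k * H) ≤ 2 ^ N := by
    have := hn1 N ((le_max_left _ _).trans hV)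
    rw [← hρ, ← hB, ← hH] at this
    exact this
  have hD1 : 1 ≤ D := by rw [hD]; omega
  have hD2 : N ^ (k - 1) ≤ D * 2 ^ 24 := by
    have h24 : (0 : ℕ) < 2 ^ 24 := by positivity
    rw [hD]
    generalize (2 : ℕ) ^ 24 = c at h24 ⊢
    have := Nat.lt_mul_div_succ (N ^ (k - 1)) h24
    rw [mul_comm]
    exact this.le
  have hD3 : D * 2 ^ 23 ≤ N ^ (k - 1) := by
    have h1 : N ^ (k - 1) / 2 ^ 24 * 2 ^ 24 ≤ N ^ (k - 1) := Nat.div_mul_le_self _ _
    have h2 : N ≤ N ^ (k - 1) := by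
      calc N = N ^ 1 := (pow_one N).symm
        _ ≤ N ^ (k - 1) := Nat.pow_le_pow_right hN1 (by omega)
    rw [hD]
    generalize N ^ (k - 1) / 2 ^ 24 = q at h1 ⊢
    have h3 : (2 : ℕ) ^ 24 = 2 * 2 ^ 23 := by rw [← pow_succ']
    have h4 := hN24
    rw [h3] at h1 h4
    generalize (2 : ℕ) ^ 23 = c at h1 h4 ⊢
    have e1 : q * (2 * c) = 2 * (q * c) := by ring
    have e2 : (q + 1) * c = q * c + c := by ring
    rw [e1] at h1
    rw [e2]
    have h5 : 2 * c ≤ N ^ (k - 1) := h4.trans h2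
    omega
  rw [← hρ]
  -- sets
  let mv : (V → V) → Finset V := fun r => Finset.univ.filter (fun u => r u ≠ u)
  let C : (V → V) → Set (V → Fin k → V) := fun r =>
    {T | (∀ u a, r (T u a) = r (T (r u) a)) ∧
        (Finset.univ.filter (fun u => r u ≠ u ∧
          D < ∏ a, (Finset.univ.filter (fun v => r v = r (T (r u) a))).card)).card ≤ H}
  let R : Finset (V → V) := Finset.univ.filter (fun r => (∀ u, r (r u) = r u) ∧ N ≤ 4 * (mv r).card)
  obtain ⟨X, hX⟩ : ∃ X : Set ((V → Fin k → V) × V), X = {x : (V → Fin k → V) × V |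
        Set.ncard {y : V × V | y.1 ≠ y.2 ∧ LE x.1 x.2 y.1 y.2} ≤ N * ρ ∧
        N ≤ 2 * Set.ncard {u : V | ∃ v, v ≠ u ∧ LE x.1 x.2 u v}} := ⟨_, rfl⟩
  rw [← hX]
  have hXC : ∀ x ∈ X, ∃ r ∈ R, x.1 ∈ C r := by
    intro x hx
    rw [hX] at hx
    obtain ⟨hx1, hx2⟩ := hx
    obtain ⟨r, hr1, hr2⟩ := exists_rep833 x.1 x.2
    obtain ⟨f1, f2, f3, f4, f5⟩ := rep_facts833 hr1 hr2
    have hA : ∀ y : V × V, y ∈ {y : V × V | y.1 ≠ y.2 ∧ LE x.1 x.2 y.1 y.2} ↔
        y.1 ≠ y.2 ∧ r y.1 = r y.2 := by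
      intro y
      rw [f2]
      exact Iff.rfl
    refine ⟨r, ?_, f4, ?_⟩
    · rw [Finset.mem_filter]
      refine ⟨Finset.mem_univ _, f1, ?_⟩
      have h3 := nonrep833 r f1 {u : V | ∃ v, v ≠ u ∧ LE x.1 x.2 u v} (fun u hu => by
        obtain ⟨v, hv1, hv2⟩ := hu
        exact ⟨v, hv1, (f2 u v).mpr hv2⟩)
      show N ≤ 4 * (Finset.univ.filter (fun u => r u ≠ u)).card
      omega
    · rw [hH]
      refine heavy_le833 hk hN1 hD2 (heavy_bound V k x.1 x.2 r f1 f3 f5 D B ?_) ?_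
      · intro v
        rw [hB]
        exact class_le833 r _ hA v hx1
      · have h4 := sum_class833 r _ hA
        rw [← hN] at h4
        calc _ ≤ _ := h4
          _ ≤ N + N * ρ := Nat.add_le_add_left hx1 _
          _ = N * (1 + ρ) := by ring
  have hcard : X.ncard ≤ N * ∑ r ∈ R, (C r).ncard := by
    have h1 : X.toFinset ⊆ ((Finset.univ : Finset V) ×ˢ R).biUnion
        (fun p => (C p.2).toFinset.image (fun T => (T, p.1))) := by
      intro x hx
      rw [Set.mem_toFinset] at hx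
      obtain ⟨r, hr, hxr⟩ := hXC x hx
      rw [Finset.mem_biUnion]
      refine ⟨(x.2, r), Finset.mem_product.mpr ⟨Finset.mem_univ _, hr⟩, ?_⟩
      rw [Finset.mem_image]
      exact ⟨x.1, Set.mem_toFinset.mpr hxr, rfl⟩
    rw [Set.ncard_eq_toFinset_card']
    calc _ ≤ _ := Finset.card_le_card h1
      _ ≤ _ := Finset.card_biUnion_le
      _ ≤ ∑ p ∈ (Finset.univ : Finset V) ×ˢ R, (C p.2).ncard := by
        refine Finset.sum_le_sum (fun p _ => ?_)
        rw [Set.ncard_eq_toFinset_card']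
        exact Finset.card_image_le
      _ = N * ∑ r ∈ R, (C r).ncard := by
        rw [Finset.sum_product]
        show ∑ _x : V, (∑ r ∈ R, (C r).ncard) = _
        rw [Finset.sum_const, Finset.card_univ, ← hN, smul_eq_mul]
  have hC : ∀ r ∈ R, (C r).ncard ≤ N ^ (k * (N - (mv r).card)) * D ^ (mv r).card * N ^ (k * H) := by
    intro r hr
    rw [Finset.mem_filter] at hr
    have h1 := congr_count V k r hr.2.1 D H hD1
    have h2 : (Finset.univ.filter (fun u => r u = u)).card = N - (mv r).card := by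
      have h3 := Finset.card_filter_add_card_filter_not (s := (Finset.univ : Finset V)) (fun u => r u = u)
      rw [Finset.card_univ, ← hN] at h3
      show _ = N - (Finset.univ.filter (fun u => r u ≠ u)).card
      have h4 : (Finset.univ.filter (fun u => r u ≠ u)).card
        = (Finset.univ.filter (fun u => ¬ r u = u)).card := rfl
      omega
    rw [h2, ← hN] at h1
    exact h1
  have hsum : ∑ r ∈ R, (C r).ncard ≤
      ∑ S ∈ (Finset.univ : Finset (Finset V)).filter (fun S => N ≤ 4 * S.card),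
        N ^ S.card * (N ^ (k * (N - S.card)) * D ^ S.card * N ^ (k * H)) := by
    have h1 := sum_maps833 (V := V) (fun m => N ^ (k * (N - m)) * D ^ m * N ^ (k * H)) R
      (fun m => N ≤ 4 * m) (fun r hr => by
        rw [Finset.mem_filter] at hr; exact hr.2.2)
    rw [← hN] at h1
    exact (Finset.sum_le_sum hC).trans h1
  have hfin : X.ncard * 8 ^ N * 2 ^ N ≤ N ^ (k * N) * 2 ^ N := by
    calc X.ncard * 8 ^ N * 2 ^ N ≤ (N * ∑ S ∈ (Finset.univ : Finset (Finset V)).filter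
          (fun S => N ≤ 4 * S.card),
          N ^ S.card * (N ^ (k * (N - S.card)) * D ^ S.card * N ^ (k * H))) * 8 ^ N * 2 ^ N := by
          refine Nat.mul_le_mul_right _ (Nat.mul_le_mul_right _ ?_)
          exact hcard.trans (Nat.mul_le_mul_left _ hsum)
      _ = ∑ S ∈ (Finset.univ : Finset (Finset V)).filter (fun S => N ≤ 4 * S.card),
          (N * (N ^ S.card * (N ^ (k * (N - S.card)) * D ^ S.card * N ^ (k * H)))) *
            (8 ^ N * 2 ^ N) := by
          rw [mul_assoc, Finset.mul_sum, Finset.sum_mul]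
      _ ≤ ∑ S ∈ (Finset.univ : Finset (Finset V)).filter (fun S => N ≤ 4 * S.card),
          N ^ (k * N) := by
          refine Finset.sum_le_sum (fun S hS => ?_)
          rw [Finset.mem_filter] at hS
          refine term833 hk ?_ hS.2 hD3 hHN
          rw [hN]; exact Finset.card_le_univ S
      _ ≤ N ^ (k * N) * 2 ^ N := by
          rw [Finset.sum_const, smul_eq_mul, mul_comm]
          refine Nat.mul_le_mul_left _ ?_
          calc _ ≤ (Finset.univ : Finset (Finset V)).card := Finset.card_filter_le _ _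
            _ = 2 ^ N := by rw [Finset.card_univ, Fintype.card_finset, ← hN]
  exact Nat.le_of_mul_le_mul_right hfin (by positivity)


end J7743
alias congr_bound := J7743.congr_bound
end RA
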