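import Pool.Agent.Helper338.RA.J7551
import Pool.Agent.Helper338.RA.J7557
import Pool.Agent.Helper338.RA.J7563
import Pool.Agent.Helper338.RA.J7564
import Pool.Agent.Helper338.RA.J7574
import Pool.Agent.Helper338.RA.J7575
import Pool.Agent.Helper338.RA.J7578
import Pool.Agent.Helper338.RA.J7579
import Pool.Agent.Helper338.RA.J7580
import Pool.Agent.Helper338.RA.J7581
import Pool.Agent.Helper338.RA.J7582
import Pool.Agent.Helper338.RA.J7583
import Pool.Agent.Helper338.RA.J7584
import Pool.Agent.Helper338.RA.J7607
import Pool.Agent.Helper338.RA.J7608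
import Pool.Agent.Helper338.RA.J7609
import Pool.Agent.Helper338.RA.J7610
import Pool.Agent.Helper338.RA.J7611
import Pool.Agent.Helper338.RA.J7612
import Pool.Agent.Helper338.RA.J7674
import Pool.Agent.Helper338.RA.J7675
import Pool.Agent.Helper338.RA.J7676
import Pool.Agent.Helper338.RA.J7677
import Pool.Agent.Helper338.RA.J7678
import Pool.Agent.Helper338.RA.J7679
import Pool.Agent.Helper338.RA.J7680
import Pool.Agent.Helper338.RA.J7681
import Pool.Agent.Helper338.RA.J7682
import Pool.Agent.Helper338.RA.J7683
import Pool.Agent.Helper338.RA.J7704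
import Pool.Agent.Helper338.RA.J7731
import Pool.Agent.Helper338.RA.J7734
import Pool.Agent.Helper338.RA.J7736
import Pool.Agent.Helper338.RA.J7737
import Pool.Agent.Helper338.RA.J7743
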