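import Pool.Agent.Helper338.RA.All
set_option autoImplicit false
open Finset
namespace RA

variable {V : Type} {k : ℕ}

theorem run_cons (T : V → Fin k → V) (p : V) (a : Fin k) (w : List (Fin k)) :
    run T p (a :: w) = run T (T p a) w := rfl

theorem LE_equiv (T : V → Fin k → V) (f : V) : Equivalence (LE T f) :=
  ⟨fun _ _ => Iff.rfl, fun h w => (h w).symm, fun h1 h2 w => (h1 w).trans (h2 w)⟩

theorem LE_compat (T : V → Fin k → V) (f : V) (u v : V) (h : LE T f u v) (a : Fin k) :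
    LE T f (T u a) (T v a) := fun w => h (a :: w)

theorem LE_final (T : V → Fin k → V) (f v : V) (h : LE T f f v) : v = f :=
  (h []).1 rfl

variable [Fintype V] [DecidableEq V] [NeZero k]

theorem final_not_visited (T : V → Fin k → V) (f p q : V) (hpq : p ≠ q) (h : LE T f p q) :
    f ∉ visited T p q := by
  intro hf
  obtain ⟨v, hv, hE⟩ := visited_equiv T p q hpq (LE T f) (LE_equiv T f)
    (fun u v h a => LE_compat T f u v h a) h f hf
  exact hv (LE_final T f v hE)

/-- if all explorations cover all but `t` states then the number of triples `(f, p, q)` with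
`p ≠ q` equivalent is at most `n^2 t`. -/
theorem sum_LE_le (T : V → Fin k → V) (t : ℕ)
    (h : ∀ p q, p ≠ q → (Finset.univ \ visited T p q).card ≤ t) :
    ∑ f : V, Set.ncard {y : V × V | y.1 ≠ y.2 ∧ LE T f y.1 y.2} ≤ (Fintype.card V)^2 * t := by
  classical
  have h1 : ∀ f : V, Set.ncard {y : V × V | y.1 ≠ y.2 ∧ LE T f y.1 y.2}
      ≤ ∑ y : V × V, if (y.1 ≠ y.2 ∧ f ∈ Finset.univ \ visited T y.1 y.2) then 1 else 0 := by
    intro f
    rw [← Finset.card_filter, ← Set.ncard_coe_finset]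
    apply Set.ncard_le_ncard _ (Set.toFinite _)
    intro y hy
    simp only [Finset.coe_filter, Finset.mem_univ, true_and, Set.mem_setOf_eq, Finset.mem_sdiff]
    exact ⟨hy.1, final_not_visited T f _ _ hy.1 hy.2⟩
  calc ∑ f : V, Set.ncard {y : V × V | y.1 ≠ y.2 ∧ LE T f y.1 y.2}
      ≤ ∑ f : V, ∑ y : V × V,
        (if (y.1 ≠ y.2 ∧ f ∈ Finset.univ \ visited T y.1 y.2) then 1 else 0) :=
        Finset.sum_le_sum (fun f _ => h1 f)
    _ = ∑ y : V × V, ∑ f : V,
        (if (y.1 ≠ y.2 ∧ f ∈ Finset.univ \ visited T y.1 y.2) then 1 else 0) := Finset.sum_comm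
    _ ≤ ∑ y : V × V, t := by
        apply Finset.sum_le_sum
        intro y _
        by_cases hy : y.1 = y.2
        · simp [hy]
        · have := h y.1 y.2 hy
          rw [← Finset.card_filter]
          refine le_trans (Finset.card_le_card ?_) this
          intro f hf
          simp only [Finset.mem_filter] at hf
          exact hf.2.2
    _ = (Fintype.card V)^2 * t := by
        simp [Finset.sum_const, Finset.card_univ, Fintype.card_prod, sq]

theorem markov_LE (T : V → Fin k → V) (t B : ℕ)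
    (h : ∀ p q, p ≠ q → (Finset.univ \ visited T p q).card ≤ t) :
    Set.ncard {f : V | B < Set.ncard {y : V × V | y.1 ≠ y.2 ∧ LE T f y.1 y.2}} * B
      ≤ (Fintype.card V)^2 * t := by
  classical
  refine le_trans ?_ (sum_LE_le T t h)
  have : Set.ncard {f : V | B < Set.ncard {y : V × V | y.1 ≠ y.2 ∧ LE T f y.1 y.2}}
      = (Finset.univ.filter
        (fun f : V => B < Set.ncard {y : V × V | y.1 ≠ y.2 ∧ LE T f y.1 y.2})).card := by
    rw [← Set.ncard_coe_finset]; congr 1; ext f; simp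
  rw [this, ← smul_eq_mul, ← Finset.sum_const]
  refine le_trans (Finset.sum_le_sum (fun f hf => ?_))
    (Finset.sum_le_sum_of_subset (Finset.filter_subset _ _))
  exact (Finset.mem_filter.1 hf).2.le

end RA

namespace RA

/-- abbreviation: number of accessible transition functions on `m+1` states. -/
noncomputable def accN (m k : ℕ) : ℕ := Set.ncard {T : Fin (m+1) → Fin k → Fin (m+1) | Acc T 0}

theorem pow_le_accN (m k : ℕ) (hk : 1 ≤ k) : (m+1)^(k*(m+1)) ≤ 3^(m+1) * accN m k := by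
  have h1 := acc_lower m k hk
  have h2 : (m+1)^(m+1) ≤ 3^(m+1) * (m+1).factorial := by
    -- n^n / n! ≤ e^n ≤ 3^n
    have h3 : ((m+1:ℕ):ℝ)^(m+1) / ((m+1).factorial : ℝ) ≤ Real.exp ((m+1:ℕ):ℝ) :=
      Real.pow_div_factorial_le_exp _ (by positivity) _
    have h4 : Real.exp ((m+1:ℕ):ℝ) ≤ 3^(m+1) := by
      rw [← Real.exp_one_pow]
      exact pow_le_pow_left₀ (Real.exp_pos _).le
        (by have := Real.exp_one_lt_d9; linarith) _
    have h5 : ((m+1:ℕ):ℝ)^(m+1) ≤ 3^(m+1) * ((m+1).factorial : ℝ) := by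
      have hpos : (0:ℝ) < ((m+1).factorial : ℝ) := by exact_mod_cast Nat.factorial_pos _
      rw [div_le_iff₀ hpos] at h3
      calc ((m+1:ℕ):ℝ)^(m+1) ≤ Real.exp ((m+1:ℕ):ℝ) * ((m+1).factorial : ℝ) := h3
        _ ≤ _ := by gcongr
    exact_mod_cast h5
  have hk' : k*(m+1) = (m+1) + (k-1)*(m+1) := by
    obtain ⟨j, rfl⟩ : ∃ j, k = j + 1 := ⟨k-1, by omega⟩
    simp; ring
  calc (m+1)^(k*(m+1)) = (m+1)^(m+1) * (m+1)^((k-1)*(m+1)) := by rw [hk', pow_add]
    _ ≤ (3^(m+1) * (m+1).factorial) * (m+1)^((k-1)*(m+1)) := by gcongr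
    _ = 3^(m+1) * ((m+1).factorial * (m+1)^((k-1)*(m+1))) := by ring
    _ ≤ 3^(m+1) * accN m k := by gcongr; exact h1

theorem accN_pos (m k : ℕ) (hk : 1 ≤ k) : 0 < accN m k := by
  have h := pow_le_accN m k hk
  rcases Nat.eq_zero_or_pos (accN m k) with h0 | h0
  · rw [h0] at h; simp at h
  · exact h0

theorem ncard_prod_first {α β : Type} [Fintype α] [Fintype β] (S : Set α) :
    Set.ncard {x : α × β | x.1 ∈ S} = S.ncard * Fintype.card β := by
  have : {x : α × β | x.1 ∈ S} = S ×ˢ (Set.univ : Set β) := by ext x; simp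
  rw [this, Set.ncard_prod, Set.ncard_univ, Nat.card_eq_fintype_card]

theorem ncard_fiber_le {α β : Type} [Fintype α] [Fintype β] (S : Set α) (R : α → β → Prop)
    (b : ℕ) (h : ∀ x ∈ S, Set.ncard {y | R x y} ≤ b) :
    Set.ncard {x : α × β | x.1 ∈ S ∧ R x.1 x.2} ≤ S.ncard * b := by
  classical
  have h1 : {x : α × β | x.1 ∈ S ∧ R x.1 x.2}
      = ((Finset.univ.filter (· ∈ S)).biUnion
          (fun a => (Finset.univ.filter (fun y => R a y)).image (fun y => (a, y))) :
            Finset (α × β)) := by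
    ext ⟨a, y⟩; simp [and_comm]
  rw [h1, Set.ncard_coe_finset]
  refine le_trans Finset.card_biUnion_le ?_
  have h2 : S.ncard = (Finset.univ.filter (· ∈ S)).card := by
    rw [← Set.ncard_coe_finset]; congr 1; ext; simp
  rw [h2, ← smul_eq_mul, ← Finset.sum_const]
  apply Finset.sum_le_sum
  intro a ha
  refine le_trans Finset.card_image_le ?_
  have h3 := h a (by simpa using ha)
  have h4 : Set.ncard {y | R a y} = (Finset.univ.filter (fun y => R a y)).card := by
    rw [← Set.ncard_coe_finset]; congr 1; ext; simp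
  omega

theorem log_sq_le (C : ℕ) : ∃ m0 : ℕ, ∀ m, m0 ≤ m → C * (Nat.log 2 (m+1) + 1)^2 ≤ m + 1 := by
  have h := tendsto_pow_const_div_const_pow_of_one_lt 2 (r := (2:ℝ)) (by norm_num)
  have h1 : ∀ᶠ l : ℕ in Filter.atTop, ((l:ℝ)^2 / 2^l) < 1 / (2 * (C + 1)) :=
    h.eventually_lt_const (by positivity)
  obtain ⟨l0, hl0⟩ := Filter.eventually_atTop.1 h1
  refine ⟨2^l0, fun m hm => ?_⟩
  set l := Nat.log 2 (m+1) + 1 with hl
  have hl1 : l0 ≤ l := by
    have : l0 ≤ Nat.log 2 (m+1) := Nat.le_log_of_pow_le (by norm_num) (by omega)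
    omega
  have h2 := hl0 l hl1
  rw [div_lt_div_iff₀ (by positivity) (by positivity)] at h2
  have h3 : l^2 * (2 * (C+1)) < 1 * 2^l := by exact_mod_cast h2
  have h4 : 2^l = 2 * 2^(Nat.log 2 (m+1)) := by rw [hl, pow_succ]; ring
  have h5 : 2^(Nat.log 2 (m+1)) ≤ m+1 := Nat.pow_log_le_self 2 (by omega)
  nlinarith

/-- the total number of bad pairs, in pieces. -/
theorem bad_pieces (k : ℕ) (hk : 2 ≤ k) : ∃ C m0 : ℕ, ∀ m, m0 ≤ m →
    ∃ b1 b2 b3 b4 b5 : ℕ,
      2 * (m+1)^(k-2) * b1 ≤ accN m k ∧ (m+1) * b2 ≤ C * accN m k ∧ m * b3 ≤ accN m k ∧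
      b4 * (Nat.log 2 (m+1) + 1) ≤ C * (m+1) * accN m k ∧
      b5 * 8^(m+1) ≤ 3^(m+1) * accN m k ∧
      Set.ncard {x : (Fin (m+1) → Fin k → Fin (m+1)) × Fin (m+1) | Acc x.1 0 ∧
        ¬ ∀ p q, LE x.1 x.2 p q → p = q} ≤ (m+1) * b1 + (m+1) * b2 + (m+1) * b3 + b4 + b5 := by
  haveI : NeZero k := ⟨by omega⟩
  obtain ⟨s0, C3, m3, h3⟩ := acc_bad k hk
  obtain ⟨C2, h2⟩ := small_struct k s0 hk
  obtain ⟨n5, h5⟩ := congr_bound k hk
  obtain ⟨m6, h6⟩ : ∃ m6 : ℕ, ∀ m, m6 ≤ m →
      2 * (C3 * (Nat.log 2 (m+1) + 1)^2) ≤ m + 1 := by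
    obtain ⟨m6, h6⟩ := log_sq_le (2 * C3)
    exact ⟨m6, fun m hm => by have := h6 m hm; rw [mul_assoc] at this; exact this⟩
  refine ⟨C2 + C3, m3 + n5 + m6 + 1, fun m hm => ?_⟩
  classical
  set n := m + 1 with hn
  set L := Nat.log 2 (m+1) + 1 with hL
  set t := C3 * L^2 with ht
  -- the five families
  set S1 : Set (Fin (m+1) → Fin k → Fin (m+1)) := {T | Acc T 0 ∧ ∃ u v, u ≠ v ∧ T u = T v}
    with hS1
  set S2 : Set (Fin (m+1) → Fin k → Fin (m+1)) := {T | Acc T 0 ∧
      ∃ M : Finset (Fin (m+1)), M.card ≤ s0 ∧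
        Closed T M ∧ ∃ u ∈ M, ∃ v ∈ M, ∃ a, T u a ≠ T v a ∧ T u a ∈ M ∧ T v a ∈ M} with hS2
  set S3 : Set (Fin (m+1) → Fin k → Fin (m+1)) := {T | Acc T 0 ∧
        ∃ p q, p ≠ q ∧ s0 < (visited T p q).card ∧ t < (Finset.univ \ visited T p q).card} with hS3
  set S4 : Set ((Fin (m+1) → Fin k → Fin (m+1)) × Fin (m+1)) :=
    {x | x.1 ∈ {T : Fin (m+1) → Fin k → Fin (m+1) | Acc T 0 ∧
        ∀ p q, p ≠ q → (Finset.univ \ visited T p q).card ≤ t} ∧
      n * L^3 < Set.ncard {y : Fin (m+1) × Fin (m+1) | y.1 ≠ y.2 ∧ LE x.1 x.2 y.1 y.2}} with hS4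
  set S5 : Set ((Fin (m+1) → Fin k → Fin (m+1)) × Fin (m+1)) :=
    {x | Set.ncard {y : Fin (m+1) × Fin (m+1) | y.1 ≠ y.2 ∧ LE x.1 x.2 y.1 y.2} ≤ n * L^3 ∧
      n ≤ 2 * Set.ncard {u : Fin (m+1) | ∃ v, v ≠ u ∧ LE x.1 x.2 u v}} with hS5
  refine ⟨S1.ncard, S2.ncard, S3.ncard, S4.ncard, S5.ncard, ?_, ?_, ?_, ?_, ?_, ?_⟩
  · have := identical_rows (Fin (m+1)) k 0
    simp only [Fintype.card_fin, Nat.add_sub_cancel] at this
    have hA : Set.ncard {T : Fin (m+1) → Fin k → Fin (m+1) | Acc T 0} = accN m k := rfl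
    rw [hA] at this
    have hk2 : (m+1)^k = (m+1)^2 * (m+1)^(k-2) := by rw [← pow_add]; congr 1; omega
    rw [hk2] at this
    have h7 : (m+1)^2 * (2 * (m+1)^(k-2) * S1.ncard) ≤ (m+1)^2 * accN m k := by
      calc (m+1)^2 * (2 * (m+1)^(k-2) * S1.ncard)
          = 2 * ((m+1)^2 * (m+1)^(k-2)) * S1.ncard := by ring
        _ ≤ (m+1) * m * accN m k := this
        _ ≤ (m+1)^2 * accN m k := by
            apply Nat.mul_le_mul_right
            rw [sq]; exact Nat.mul_le_mul_left _ (by omega)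
    exact Nat.le_of_mul_le_mul_left h7 (by positivity)
  · have := h2 (Fin (m+1)) 0
    simp only [Fintype.card_fin] at this
    calc (m+1) * S2.ncard ≤ C2 * accN m k := this
      _ ≤ (C2 + C3) * accN m k := Nat.mul_le_mul_right _ (by omega)
  · exact h3 m (by omega)
  · -- Markov
    have hb : S4.ncard ≤ accN m k * (n * C3 / L) := by
      have h8 : Set.ncard {T : Fin (m+1) → Fin k → Fin (m+1) | Acc T 0 ∧
        ∀ p q, p ≠ q → (Finset.univ \ visited T p q).card ≤ t} ≤ accN m k :=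
        Set.ncard_le_ncard (fun T hT => hT.1) (Set.toFinite _)
      refine le_trans (ncard_fiber_le (α := Fin (m+1) → Fin k → Fin (m+1)) (β := Fin (m+1)) _
        (fun T f => n * L^3 < Set.ncard
          {y : Fin (m+1) × Fin (m+1) | y.1 ≠ y.2 ∧ LE T f y.1 y.2}) (n * C3 / L) ?_)
        (Nat.mul_le_mul_right _ h8)
      intro T hT
      have h9 := markov_LE T t (n * L^3) hT.2
      simp only [Fintype.card_fin] at h9
      rw [Nat.le_div_iff_mul_le (by positivity)]
      generalize hX : Set.ncard {f : Fin (m+1) | n * L^3 < Set.ncard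
          {y : Fin (m+1) × Fin (m+1) | y.1 ≠ y.2 ∧ LE T f y.1 y.2}} = X at h9 ⊢
      have h10 : n * L^2 * (X * L) ≤ n * L^2 * (n * C3) := by
        have e1 : n * L^2 * (X * L) = X * (n * L^3) := by ring
        have e2 : n * L^2 * (n * C3) = (m+1)^2 * t := by rw [ht, hn]; ring
        rw [e1, e2]; exact h9
      exact Nat.le_of_mul_le_mul_left h10 (by positivity)
    calc S4.ncard * L ≤ accN m k * (n * C3 / L) * L := Nat.mul_le_mul_right _ hb
      _ = accN m k * (n * C3 / L * L) := by ring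
      _ ≤ accN m k * (n * C3) := Nat.mul_le_mul_left _ (Nat.div_mul_le_self _ _)
      _ ≤ (C2 + C3) * n * accN m k := by nlinarith [Nat.zero_le (C2 * n * accN m k)]
  · have h11 := h5 (Fin (m+1)) (by simp; omega)
    simp only [Fintype.card_fin] at h11
    exact le_trans h11 (pow_le_accN m k (by omega))
  · -- the union
    have hsub : {x : (Fin (m+1) → Fin k → Fin (m+1)) × Fin (m+1) | Acc x.1 0 ∧
        ¬ ∀ p q, LE x.1 x.2 p q → p = q}
        ⊆ ((({x | x.1 ∈ S1} ∪ {x | x.1 ∈ S2}) ∪ {x | x.1 ∈ S3}) ∪ S4) ∪ S5 := by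
      rintro ⟨T, f⟩ ⟨hT, hne⟩
      simp only [] at hT hne
      by_cases c1 : T ∈ S1
      · exact Or.inl (Or.inl (Or.inl (Or.inl c1)))
      by_cases c2 : T ∈ S2
      · exact Or.inl (Or.inl (Or.inl (Or.inr c2)))
      by_cases c3 : T ∈ S3
      · exact Or.inl (Or.inl (Or.inr c3))
      -- all explorations are large
      have hlarge : ∀ p q, p ≠ q → (Finset.univ \ visited T p q).card ≤ t := by
        intro p q hpq
        by_contra hcon
        push_neg at hcon
        by_cases hs : s0 < (visited T p q).card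
        · exact c3 ⟨hT, p, q, hpq, hs, hcon⟩
        · push_neg at hs
          apply c2
          refine ⟨hT, visited T p q, hs, visited_closed T p q hpq, p, (visited_mem T p q).1,
            q, (visited_mem T p q).2, ?_⟩
          have hrow : T p ≠ T q := fun h => c1 ⟨hT, p, q, hpq, h⟩
          obtain ⟨a, ha⟩ : ∃ a, T p a ≠ T q a := by
            by_contra hc; push_neg at hc; exact hrow (funext hc)
          rcases visited_pair T p q hpq a with h | h
          · exact absurd h ha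
          · exact ⟨a, ha, h.1, h.2⟩
      push_neg at hne
      obtain ⟨p, q, hLE, hpq⟩ := hne
      by_cases c4 : n * L^3 < Set.ncard
          {y : Fin (m+1) × Fin (m+1) | y.1 ≠ y.2 ∧ LE T f y.1 y.2}
      · exact Or.inl (Or.inr ⟨⟨hT, hlarge⟩, c4⟩)
      · refine Or.inr ⟨by push_neg at c4; exact c4, ?_⟩
        have h12 := hlarge p q hpq
        have h13 : (visited T p q).card + (Finset.univ \ visited T p q).card = n := by
          rw [Finset.card_sdiff_of_subset (Finset.subset_univ _), Finset.card_univ, Fintype.card_fin]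
          have := Finset.card_le_univ (visited T p q)
          rw [Fintype.card_fin] at this
          omega
        have h14 : (visited T p q).card ≤ Set.ncard {u : Fin (m+1) | ∃ v, v ≠ u ∧ LE T f u v} := by
          rw [← Set.ncard_coe_finset]
          apply Set.ncard_le_ncard _ (Set.toFinite _)
          intro u hu
          exact visited_equiv T p q hpq (LE T f) (LE_equiv T f)
            (fun u v h a => LE_compat T f u v h a) hLE u hu
        have h15 := h6 m (by omega)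
        change n ≤ 2 * _
        have h16 : 2 * t ≤ n := h15
        simp only [] 
        omega
    refine le_trans (Set.ncard_le_ncard hsub (Set.toFinite _)) ?_
    refine le_trans (Set.ncard_union_le _ _) ?_
    apply Nat.add_le_add_right
    refine le_trans (Set.ncard_union_le _ _) ?_
    apply Nat.add_le_add_right
    refine le_trans (Set.ncard_union_le _ _) ?_
    have e1 : Set.ncard {x : (Fin (m+1) → Fin k → Fin (m+1)) × Fin (m+1) | x.1 ∈ S1}
        = S1.ncard * (m+1) := by rw [ncard_prod_first]; simp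
    have e2 : Set.ncard {x : (Fin (m+1) → Fin k → Fin (m+1)) × Fin (m+1) | x.1 ∈ S2}
        = S2.ncard * (m+1) := by rw [ncard_prod_first]; simp
    have e3 : Set.ncard {x : (Fin (m+1) → Fin k → Fin (m+1)) × Fin (m+1) | x.1 ∈ S3}
        = S3.ncard * (m+1) := by rw [ncard_prod_first]; simp
    have h17 := Set.ncard_union_le {x : (Fin (m+1) → Fin k → Fin (m+1)) × Fin (m+1) | x.1 ∈ S1}
      {x : (Fin (m+1) → Fin k → Fin (m+1)) × Fin (m+1) | x.1 ∈ S2}
    rw [e1, e2] at h17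
    rw [e3]
    nlinarith

end RA

namespace RA

open Filter Topology in
/-- the proportion of non-minimal pairs: `1/(2 n^(k-2)) + o(1)`. -/
theorem nonmin_ratio (k : ℕ) (hk : 2 ≤ k) : ∃ δ : ℕ → ℝ, Tendsto δ atTop (𝓝 0) ∧
    ∀ᶠ m : ℕ in atTop,
      (Set.ncard {x : (Fin (m+1) → Fin k → Fin (m+1)) × Fin (m+1) | Acc x.1 0 ∧
        ¬ ∀ p q, LE x.1 x.2 p q → p = q} : ℝ)
      ≤ (1 / (2 * ((m:ℝ)+1)^(k-2)) + δ m) *
        (Set.ncard {x : (Fin (m+1) → Fin k → Fin (m+1)) × Fin (m+1) | Acc x.1 0} : ℝ) := by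
  obtain ⟨C, m0, h⟩ := bad_pieces k hk
  refine ⟨fun m => C / ((m:ℝ)+1) + 1 / m + C / (Nat.log 2 (m+1) + 1 : ℕ) + (3/8:ℝ)^(m+1), ?_, ?_⟩
  · have t1 : Tendsto (fun m : ℕ => (C:ℝ) / ((m:ℝ)+1)) atTop (𝓝 0) :=
      tendsto_const_nhds.div_atTop (tendsto_atTop_add_const_right _ _ tendsto_natCast_atTop_atTop)
    have t2 : Tendsto (fun m : ℕ => (1:ℝ) / m) atTop (𝓝 0) := tendsto_one_div_atTop_nhds_zero_nat
    have t3 : Tendsto (fun m : ℕ => (C:ℝ) / (Nat.log 2 (m+1) + 1 : ℕ)) atTop (𝓝 0) := by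
      apply tendsto_const_nhds.div_atTop
      apply tendsto_natCast_atTop_atTop.comp
      apply tendsto_atTop_atTop.2
      intro b
      refine ⟨2^b, fun a ha => ?_⟩
      have : b ≤ Nat.log 2 (a+1) := Nat.le_log_of_pow_le (by norm_num) (by omega)
      omega
    have t4 : Tendsto (fun m : ℕ => (3/8:ℝ)^(m+1)) atTop (𝓝 0) :=
      (tendsto_pow_atTop_nhds_zero_of_lt_one (by norm_num) (by norm_num)).comp
        (tendsto_add_atTop_nat 1)
    simpa using ((t1.add t2).add t3).add t4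
  · filter_upwards [eventually_ge_atTop (m0+1)] with m hm
    obtain ⟨b1, b2, b3, b4, b5, h1, h2, h3, h4, h5, h6⟩ := h m (by omega)
    have hall : Set.ncard {x : (Fin (m+1) → Fin k → Fin (m+1)) × Fin (m+1) | Acc x.1 0}
        = accN m k * (m+1) := by
      have := ncard_prod_first (α := Fin (m+1) → Fin k → Fin (m+1)) (β := Fin (m+1))
        {T | Acc T 0}
      simpa [accN] using this
    rw [hall]
    have hA : (0:ℝ) < accN m k := by exact_mod_cast accN_pos m k (by omega)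
    have hm1 : (0:ℝ) < m := by exact_mod_cast (by omega : 0 < m)
    have g1 : (b1:ℝ) ≤ accN m k / (2 * ((m:ℝ)+1)^(k-2)) := by
      rw [le_div_iff₀ (by positivity)]
      have : (2 * (m+1)^(k-2) * b1 : ℝ) ≤ accN m k := by exact_mod_cast h1
      nlinarith
    have g2 : (b2:ℝ) ≤ C * accN m k / ((m:ℝ)+1) := by
      rw [le_div_iff₀ (by positivity)]
      have : ((m+1) * b2 : ℝ) ≤ C * accN m k := by exact_mod_cast h2
      nlinarith
    have g3 : (b3:ℝ) ≤ accN m k / m := by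
      rw [le_div_iff₀ (by positivity)]
      have : (m * b3 : ℝ) ≤ accN m k := by exact_mod_cast h3
      nlinarith
    have g4 : (b4:ℝ) ≤ C * ((m:ℝ)+1) * accN m k / (Nat.log 2 (m+1) + 1 : ℕ) := by
      rw [le_div_iff₀ (by positivity)]
      exact_mod_cast h4
    have g5 : (b5:ℝ) ≤ (3/8:ℝ)^(m+1) * accN m k := by
      have : (b5 * 8^(m+1) : ℝ) ≤ 3^(m+1) * accN m k := by exact_mod_cast h5
      rw [div_pow, div_mul_eq_mul_div, le_div_iff₀ (by positivity)]
      exact this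
    have g6 : (Set.ncard {x : (Fin (m+1) → Fin k → Fin (m+1)) × Fin (m+1) | Acc x.1 0 ∧
        ¬ ∀ p q, LE x.1 x.2 p q → p = q} : ℝ)
        ≤ (m+1) * b1 + (m+1) * b2 + (m+1) * b3 + b4 + b5 := by exact_mod_cast h6
    refine le_trans g6 ?_
    have g5' : (b5:ℝ) ≤ (3/8:ℝ)^(m+1) * accN m k * (m+1) := by
      refine le_trans g5 ?_
      have : (0:ℝ) ≤ (3/8:ℝ)^(m+1) * accN m k := by positivity
      nlinarith
    have e1 : ((m:ℝ)+1) * b1 ≤ 1 / (2 * ((m:ℝ)+1)^(k-2)) * (accN m k * (m+1)) := by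
      calc ((m:ℝ)+1) * b1 ≤ ((m:ℝ)+1) * (accN m k / (2 * ((m:ℝ)+1)^(k-2))) := by gcongr
        _ = _ := by ring
    have e2 : ((m:ℝ)+1) * b2 ≤ C / ((m:ℝ)+1) * (accN m k * (m+1)) := by
      calc ((m:ℝ)+1) * b2 ≤ ((m:ℝ)+1) * (C * accN m k / ((m:ℝ)+1)) := by gcongr
        _ = _ := by ring
    have e3 : ((m:ℝ)+1) * b3 ≤ 1 / m * (accN m k * (m+1)) := by
      calc ((m:ℝ)+1) * b3 ≤ ((m:ℝ)+1) * (accN m k / m) := by gcongr
        _ = _ := by ring
    have e4 : (b4:ℝ) ≤ C / (Nat.log 2 (m+1) + 1 : ℕ) * (accN m k * (m+1)) := by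
      refine le_trans g4 (le_of_eq ?_)
      ring
    push_cast at e1 e2 e3 e4 ⊢
    nlinarith

end RA
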