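import Mathlib

/-!
Definitions for `MP_8401d0_pr` (random automata with one final state).
`T : V → Fin k → V` is a complete deterministic transition function on the state set `V`
over the alphabet `Fin k`.
-/

namespace RA

variable {V : Type} {k : ℕ}

/-- state reached from `p` by reading the word `w`. -/
def run (T : V → Fin k → V) (p : V) (w : List (Fin k)) : V := w.foldl T p

/-- every state is reachable from `o`. -/
def Acc (T : V → Fin k → V) (o : V) : Prop := ∀ q, ∃ w, run T o w = q

open Classical in
/-- the set of states reachable from `o`. -/
noncomputable def reachSet [Fintype V] (T : V → Fin k → V) (o : V) : Finset V :=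
  Finset.univ.filter (fun q => ∃ w, run T o w = q)

open Classical in
/-- states outside `M` that are targets of transitions from `M`. -/
noncomputable def exits [Fintype V] (T : V → Fin k → V) (M : Finset V) : Finset V :=
  Finset.univ.filter (fun z => z ∉ M ∧ ∃ u ∈ M, ∃ a, T u a = z)

/-- every state of `M` has a partner in `M` such that each letter merges them or keeps both in `M`. -/
def Closed (T : V → Fin k → V) (M : Finset V) : Prop :=
  ∀ u ∈ M, ∃ v ∈ M, v ≠ u ∧ ∀ a, T u a = T v a ∨ (T u a ∈ M ∧ T v a ∈ M)

/-- every state of `M` other than `p`, `q` is the target of a transition from `M`. -/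
def Hits (T : V → Fin k → V) (M : Finset V) (p q : V) : Prop :=
  ∀ z ∈ M, z = p ∨ z = q ∨ ∃ u ∈ M, ∃ a, T u a = z

/-- a set-valued function of `T` that only depends on the rows of `T` in the set. -/
def Local (Mf : (V → Fin k → V) → Finset V) : Prop :=
  ∀ T T' : V → Fin k → V, (∀ u ∈ Mf T, T' u = T u) → Mf T' = Mf T

/-- exploration of the pairs reachable from `(p, q)`: add the pair `(z, z')` if `z` is new. -/
def addOne [DecidableEq V] (L : List (V × V)) (z z' : V) : List (V × V) :=
  if z ∈ L.map Prod.fst then L else L ++ [(z, z')]

def addPair [DecidableEq V] (L : List (V × V)) (z z' : V) : List (V × V) :=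
  if z = z' then L else addOne (addOne L z z') z' z

/-- step `t` processes letter `t % k` of entry number `t / k`. -/
def expl [DecidableEq V] [NeZero k] (T : V → Fin k → V) (p q : V) : ℕ → List (V × V)
  | 0 => [(p, q), (q, p)]
  | t + 1 =>
    match (expl T p q t)[t / k]? with
    | none => expl T p q t
    | some (u, v) => addPair (expl T p q t) (T u (Fin.ofNat k t)) (T v (Fin.ofNat k t))

/-- the set of states visited by the exploration of `(p, q)`. -/
def visited [DecidableEq V] [Fintype V] [NeZero k] (T : V → Fin k → V) (p q : V) : Finset V :=
  ((expl T p q (k * Fintype.card V)).map Prod.fst).toFinset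

end RA
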