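import Pool.Agent.Helper338.RA.Defs
set_option autoImplicit false
namespace RA
variable {V : Type} {k : ℕ}

/-- after `k*i` letters at least `i+1` states (including `0`) have been seen. -/
def GoodWord (m k : ℕ) (w : Fin (k*(m+1)) → Fin (m+1)) : Prop :=
  ∀ i, i < m + 1 → i + 1 ≤
    (insert 0 ((Finset.univ.filter (fun p : Fin (k*(m+1)) => p.val < k*i)).image w)).card

open Classical in
/-- resampling outside `M`. -/
noncomputable def mix {V : Type} {k : ℕ} (M : Finset V) (T T' : V → Fin k → V) : V → Fin k → V :=
  fun v => if v ∈ M then T v else T' v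

/-- `p` and `q` accept the same words, `f` being the only final state. -/
def LE {V : Type} {k : ℕ} (T : V → Fin k → V) (f p q : V) : Prop :=
  ∀ w, run T p w = f ↔ run T q w = f

end RA
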