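import Pool.Agent.Helper338.RA.Defs2
set_option autoImplicit false
namespace RA
variable {V : Type} {k : ℕ}
namespace J7551

/-- the cyclic step with arbitrary last value -/
def acH (m : ℕ) (c : Fin (m+1)) (i : Fin (m+1)) : Fin (m+1) :=
  if hi : i.val < m then ⟨i.val + 1, by omega⟩ else c

/-- the ordering of the states -/
def acS (m : ℕ) (σ : Equiv.Perm (Fin m)) : Equiv.Perm (Fin (m+1)) :=
  Equiv.Perm.decomposeFin.symm (0, σ)

theorem acS_zero (m : ℕ) (σ : Equiv.Perm (Fin m)) : acS m σ 0 = 0 :=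
  Equiv.Perm.decomposeFin_symm_apply_zero 0 σ

theorem acS_inj (m : ℕ) {σ τ : Equiv.Perm (Fin m)} (h : acS m σ = acS m τ) : σ = τ := by
  have h1 := Equiv.Perm.decomposeFin.symm.injective h
  exact (Prod.mk.inj h1).2

/-- the automaton of the data -/
def acF (m k : ℕ) (d : Equiv.Perm (Fin m) × Fin (m+1) × (Fin (m+1) → Fin k → Fin (m+1))) :
    Fin (m+1) → Fin (k+1) → Fin (m+1) := fun q =>
  Fin.cons (acS m d.1 (acH m d.2.1 ((acS m d.1).symm q))) (d.2.2 q)

theorem acF_zero (m k : ℕ) (d : Equiv.Perm (Fin m) × Fin (m+1) × (Fin (m+1) → Fin k → Fin (m+1)))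
    (q : Fin (m+1)) : acF m k d q 0 = acS m d.1 (acH m d.2.1 ((acS m d.1).symm q)) := rfl

theorem acF_succ (m k : ℕ) (d : Equiv.Perm (Fin m) × Fin (m+1) × (Fin (m+1) → Fin k → Fin (m+1)))
    (q : Fin (m+1)) (j : Fin k) : acF m k d q j.succ = d.2.2 q j := rfl

theorem acF_run (m k : ℕ) (d : Equiv.Perm (Fin m) × Fin (m+1) × (Fin (m+1) → Fin k → Fin (m+1)))
    (n : ℕ) (hn : n < m + 1) :
    run (acF m k d) 0 (List.replicate n 0) = acS m d.1 ⟨n, hn⟩ := by
  induction n with
  | zero =>
    have h := acS_zero m d.1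
    exact h.symm
  | succ n ih =>
    have ih' := ih (by omega)
    unfold run at ih' ⊢
    rw [List.replicate_succ', List.foldl_append, ih']
    show acF m k d (acS m d.1 ⟨n, _⟩) 0 = _
    rw [acF_zero, Equiv.symm_apply_apply]
    congr 1
    unfold acH
    rw [dif_pos (show n < m by omega)]

theorem acF_acc (m k : ℕ) (d : Equiv.Perm (Fin m) × Fin (m+1) × (Fin (m+1) → Fin k → Fin (m+1))) :
    Acc (acF m k d) 0 := by
  intro q
  refine ⟨List.replicate ((acS m d.1).symm q).val 0, ?_⟩
  rw [acF_run m k d _ ((acS m d.1).symm q).isLt]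
  exact Equiv.apply_symm_apply _ _

theorem acF_inj (m k : ℕ) : Function.Injective (acF m k) := by
  intro d e h
  have h1 : d.1 = e.1 := by
    apply acS_inj m
    apply Equiv.ext
    intro i
    have e1 := acF_run m k d i.val i.isLt
    have e2 := acF_run m k e i.val i.isLt
    rw [h] at e1
    exact e1.symm.trans e2
  have h2 : d.2.1 = e.2.1 := by
    have e1 := congrFun (congrFun h (acS m d.1 (Fin.last m))) 0
    rw [acF_zero, acF_zero, ← h1, Equiv.symm_apply_apply] at e1
    have e2 := (acS m d.1).injective e1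
    unfold acH at e2
    rw [dif_neg (by simp), dif_neg (by simp)] at e2
    exact e2
  have h3 : d.2.2 = e.2.2 := by
    funext q j
    have e1 := congrFun (congrFun h q) j.succ
    rwa [acF_succ, acF_succ] at e1
  exact Prod.ext h1 (Prod.ext h2 h3)

-- TARGET
theorem acc_lower (m k : ℕ) (hk : 1 ≤ k) :
    (m+1).factorial * (m+1)^((k-1)*(m+1))
      ≤ Set.ncard {T : Fin (m+1) → Fin k → Fin (m+1) | Acc T 0} := by
  obtain ⟨k, rfl⟩ : ∃ k', k = k' + 1 := ⟨k - 1, by omega⟩
  rw [Nat.add_sub_cancel]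
  have h1 : (Set.range (acF m k)).ncard = (m+1).factorial * (m+1)^(k*(m+1)) := by
    rw [← Set.image_univ, Set.ncard_image_of_injective _ (acF_inj m k), Set.ncard_univ,
      Nat.card_eq_fintype_card, Fintype.card_prod, Fintype.card_prod, Fintype.card_perm,
      Fintype.card_fun, Fintype.card_fun, Fintype.card_fin, Fintype.card_fin, Fintype.card_fin,
      Nat.factorial_succ, ← pow_mul]
    ring
  rw [← h1]
  exact Set.ncard_le_ncard (by rintro T ⟨d, rfl⟩; exact acF_acc m k d) (Set.toFinite _)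


end J7551
alias acc_lower := J7551.acc_lower
end RA
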