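import Pool.Agent.Helper338.RA.Defs2
set_option autoImplicit false
namespace RA
variable {V : Type} {k : ℕ}
namespace J7608

section
variable {V : Type} [Fintype V] [DecidableEq V] {k : ℕ} [NeZero k]

lemma mem_addOne (L : List (V × V)) (z z' : V) (x : V × V) (hx : x ∈ addOne L z z') :
    x ∈ L ∨ x = (z, z') := by
  unfold addOne at hx
  split_ifs at hx with h
  · exact Or.inl hx
  · rcases List.mem_append.mp hx with h | h
    · exact Or.inl h
    · exact Or.inr (by simpa using h)

lemma mem_addPair (L : List (V × V)) (z z' : V) (x : V × V) (hx : x ∈ addPair L z z') :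
    x ∈ L ∨ (z ≠ z' ∧ (x = (z, z') ∨ x = (z', z))) := by
  unfold addPair at hx
  split_ifs at hx with h
  · exact Or.inl hx
  · rcases mem_addOne _ _ _ _ hx with h1 | h1
    · rcases mem_addOne _ _ _ _ h1 with h2 | h2
      · exact Or.inl h2
      · exact Or.inr ⟨h, Or.inl h2⟩
    · exact Or.inr ⟨h, Or.inr h1⟩

lemma expl_inv (T : V → Fin k → V) (p q : V) (hpq : p ≠ q) (E : V → V → Prop)
    (hE : Equivalence E) (hT : ∀ u v, E u v → ∀ a, E (T u a) (T v a)) (h : E p q) (t : ℕ) :
    ∀ x ∈ expl T p q t, E x.1 x.2 ∧ x.2 ≠ x.1 := by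
  induction t with
  | zero =>
    intro x hx
    simp only [expl, List.mem_cons, List.not_mem_nil, or_false] at hx
    rcases hx with rfl | rfl
    · exact ⟨h, hpq.symm⟩
    · exact ⟨hE.symm h, hpq⟩
  | succ t ih =>
    intro x hx
    rw [expl] at hx
    split at hx
    · exact ih x hx
    · rename_i u v huv
      have hmem : (u, v) ∈ expl T p q t := List.mem_of_getElem? huv
      have huv' := (ih _ hmem).1
      have hT' := hT u v huv' (Fin.ofNat k t)
      rcases mem_addPair _ _ _ _ hx with h1 | ⟨hne, h1 | h1⟩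
      · exact ih x h1
      · subst h1; exact ⟨hT', hne.symm⟩
      · subst h1; exact ⟨hE.symm hT', hne⟩

-- TARGET
theorem visited_equiv (T : V → Fin k → V) (p q : V) (hpq : p ≠ q) (E : V → V → Prop)
    (hE : Equivalence E) (hT : ∀ u v, E u v → ∀ a, E (T u a) (T v a)) (h : E p q) :
    ∀ u ∈ visited T p q, ∃ v, v ≠ u ∧ E u v := by
  intro u hu
  rw [visited, List.mem_toFinset, List.mem_map] at hu
  obtain ⟨x, hx, rfl⟩ := hu
  have := expl_inv T p q hpq E hE hT h _ x hx
  exact ⟨x.2, this.2, this.1⟩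
end


end J7608
alias visited_equiv := J7608.visited_equiv
end RA
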